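import Pool.Agent.K7.H41.BE.Struct

/-!
# Homomorphisms with small images: orthogonality
-/

set_option autoImplicit false

namespace Pool.Agent.K7.H41.AE

open Finset Pool.Agent.K7.H41.BE

variable {G Y H H' : Type} [AddCommGroup G] [AddCommGroup H] [AddCommGroup H'] [Fintype G]

open Classical in
/-- the image of a subgroup -/
noncomputable def img (f : G →+ H) (Γ : AddSubgroup G) : Finset H :=
  (univ.filter fun h : G => h ∈ Γ).image f

theorem mem_img {f : G →+ H} {Γ : AddSubgroup G} {c : H} : c ∈ img f Γ ↔ ∃ h ∈ Γ, f h = c := by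
  classical
  unfold img
  rw [mem_image]
  constructor
  · rintro ⟨h, hh, e⟩
    exact ⟨h, (mem_filter.1 hh).2, e⟩
  · rintro ⟨h, hh, e⟩
    exact ⟨h, mem_filter.2 ⟨mem_univ _, hh⟩, e⟩

theorem img_closed (f : G →+ H) (Γ : AddSubgroup G) : Closed (img f Γ) := by
  refine ⟨mem_img.2 ⟨0, Γ.zero_mem, map_zero _⟩, ?_⟩
  intro a ha b hb
  obtain ⟨x, hx, rfl⟩ := mem_img.1 ha
  obtain ⟨y, hy, rfl⟩ := mem_img.1 hb
  exact mem_img.2 ⟨x - y, Γ.sub_mem hx hy, map_sub _ _ _⟩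

theorem img_pos (f : G →+ H) (Γ : AddSubgroup G) : 0 < (img f Γ).card :=
  card_pos.2 ⟨0, (img_closed f Γ).1⟩

open Classical in
/-- the elements of a coset with a given value -/
noncomputable def fib (f : G →+ H) (Γ : AddSubgroup G) (x₀ : G) (c : H) : Finset G :=
  univ.filter fun x => x - x₀ ∈ Γ ∧ f x = c

/-- the sizes of the fibres -/
theorem fib_card (f : G →+ H) (Γ : AddSubgroup G) (x₀ : G) (c : H) (hc : c - f x₀ ∈ img f Γ) :
    (img f Γ).card * (fib f Γ x₀ c).card = sz Γ := by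
  classical
  obtain ⟨g₀, hg₀, e₀⟩ := mem_img.1 hc
  unfold sz
  rw [card_eq_sum_card_fiberwise (f := f) (t := img f Γ)
    (fun h hh => mem_img.2 ⟨h, (mem_filter.1 hh).2, rfl⟩), ← smul_eq_mul, ← sum_const]
  refine sum_congr rfl fun c' hc' => ?_
  obtain ⟨g', hg', e'⟩ := mem_img.1 hc'
  unfold fib
  refine card_bij' (fun x _ => x - x₀ - g₀ + g') (fun h _ => x₀ + h - g' + g₀) ?_ ?_ ?_ ?_
  · intro x hx
    obtain ⟨-, h1, h2⟩ := mem_filter.1 hx
    refine mem_filter.2 ⟨mem_filter.2 ⟨mem_univ _, Γ.add_mem (Γ.sub_mem h1 hg₀) hg'⟩, ?_⟩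
    rw [map_add, map_sub, map_sub, h2, e₀, e']
    abel
  · intro h hh
    obtain ⟨h1, h2⟩ := mem_filter.1 hh
    have h1' := (mem_filter.1 h1).2
    refine mem_filter.2 ⟨mem_univ _, ?_, ?_⟩
    · have : x₀ + h - g' + g₀ - x₀ = h - g' + g₀ := by abel
      rw [this]
      exact Γ.add_mem (Γ.sub_mem h1' hg') hg₀
    · rw [map_add, map_sub, map_add, h2, e₀, e']
      abel
  · intro x _
    abel
  · intro h _
    abel

omit [Fintype G] in
/-- independence of two homomorphisms on a subgroup -/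
def Indep (Γ : AddSubgroup G) (f : G →+ H) (g : G →+ H') : Prop := ∀ h ∈ Γ, ∃ k ∈ Γ, f k = 0 ∧ g k = g h

omit [Fintype G] in
theorem Indep.symm {Γ : AddSubgroup G} {f : G →+ H} {g : G →+ H'} (h : Indep Γ f g) : Indep Γ g f := by
  intro a ha
  obtain ⟨k, hk, h1, h2⟩ := h a ha
  refine ⟨a - k, Γ.sub_mem ha hk, ?_, ?_⟩
  · rw [map_sub, h2, sub_self]
  · rw [map_sub, h1, sub_zero]

theorem img_prod {Γ : AddSubgroup G} {f : G →+ H} {g : G →+ H'} (h : Indep Γ f g) :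
    (img (f.prod g) Γ).card = (img f Γ).card * (img g Γ).card := by
  classical
  rw [← card_product]
  congr 1
  ext ⟨a, b⟩
  rw [mem_product, mem_img, mem_img, mem_img]
  constructor
  · rintro ⟨x, hx, e⟩
    rw [AddMonoidHom.prod_apply, Prod.mk.injEq] at e
    exact ⟨⟨x, hx, e.1⟩, ⟨x, hx, e.2⟩⟩
  · rintro ⟨⟨x, hx, e1⟩, ⟨z, hz, e2⟩⟩
    obtain ⟨k, hk, h1, h2⟩ := h z hz
    obtain ⟨k', hk', h1', h2'⟩ := h.symm x hx
    refine ⟨k + k', Γ.add_mem hk hk', ?_⟩
    rw [AddMonoidHom.prod_apply, map_add, map_add, h1, h2, h1', h2']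
    refine Prod.ext ?_ ?_
    · rw [← e1]
      exact zero_add _
    · rw [← e2]
      exact add_zero _

open Classical in
/-- the normalised indicator function -/
noncomputable def ee (L : Y → G →+ H) (Γ : AddSubgroup G) (w : Y → H) (y : Y) (x : G) : ℝ :=
  (if L y x = w y then 1 else 0) - 1 / ((img (L y) Γ).card : ℝ)

section bessel

variable (L : Y → G →+ H) (Γ : AddSubgroup G) (x₀ : G) (w : Y → H)

open Classical in
theorem coset_card : ((univ.filter fun x : G => x - x₀ ∈ Γ).card : ℝ) = sz Γ := by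
  unfold sz
  congr 1
  refine card_bij' (fun x _ => x - x₀) (fun h _ => h + x₀) ?_ ?_ ?_ ?_
  · intro x hx
    exact mem_filter.2 ⟨mem_univ _, (mem_filter.1 hx).2⟩
  · intro h hh
    refine mem_filter.2 ⟨mem_univ _, ?_⟩
    rw [add_sub_cancel_right]
    exact (mem_filter.1 hh).2
  · intro x _
    abel
  · intro x _
    abel

open Classical in
theorem sum_ind (y : Y) : (∑ x ∈ univ.filter (fun x : G => x - x₀ ∈ Γ), if L y x = w y then (1 : ℝ) else 0) =
    ((fib (L y) Γ x₀ (w y)).card : ℝ) := by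
  rw [← sum_filter, sum_const, nsmul_eq_mul, mul_one, filter_filter]
  rfl

open Classical in
theorem orth_ee {y y' : Y} (hind : Indep Γ (L y) (L y')) (hy : w y - L y x₀ ∈ img (L y) Γ)
    (hy' : w y' - L y' x₀ ∈ img (L y') Γ) :
    (∑ x ∈ univ.filter (fun x : G => x - x₀ ∈ Γ), ee L Γ w y x * ee L Γ w y' x) = 0 := by
  have h1 := fib_card (L y) Γ x₀ (w y) hy
  have h2 := fib_card (L y') Γ x₀ (w y') hy'
  have h3 := fib_card ((L y).prod (L y')) Γ x₀ (w y, w y') (by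
    obtain ⟨a, ha, e1⟩ := mem_img.1 hy
    obtain ⟨b, hb, e2⟩ := mem_img.1 hy'
    obtain ⟨k, hk, g1, g2⟩ := hind b hb
    obtain ⟨k', hk', g1', g2'⟩ := hind.symm a ha
    refine mem_img.2 ⟨k + k', Γ.add_mem hk hk', ?_⟩
    rw [AddMonoidHom.prod_apply, AddMonoidHom.prod_apply, map_add, map_add, g1, g2, g1', g2', e1, e2]
    simp)
  rw [img_prod hind] at h3
  have hq : (0 : ℝ) < (img (L y) Γ).card := by exact_mod_cast img_pos _ _
  have hq' : (0 : ℝ) < (img (L y') Γ).card := by exact_mod_cast img_pos _ _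
  have h1' : ((fib (L y) Γ x₀ (w y)).card : ℝ) = sz Γ / (img (L y) Γ).card := by
    rw [eq_div_iff hq.ne', mul_comm]
    exact_mod_cast h1
  have h2' : ((fib (L y') Γ x₀ (w y')).card : ℝ) = sz Γ / (img (L y') Γ).card := by
    rw [eq_div_iff hq'.ne', mul_comm]
    exact_mod_cast h2
  have h3' : ((fib ((L y).prod (L y')) Γ x₀ (w y, w y')).card : ℝ) =
      sz Γ / ((img (L y) Γ).card * (img (L y') Γ).card) := by
    rw [eq_div_iff (by positivity), mul_comm]
    exact_mod_cast h3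
  have h4 : ∀ x : G, ee L Γ w y x * ee L Γ w y' x = (if L y x = w y ∧ L y' x = w y' then (1 : ℝ) else 0) -
      (1 / ((img (L y') Γ).card : ℝ)) * (if L y x = w y then (1 : ℝ) else 0) -
      (1 / ((img (L y) Γ).card : ℝ)) * (if L y' x = w y' then (1 : ℝ) else 0) +
      (1 / ((img (L y) Γ).card : ℝ)) * (1 / ((img (L y') Γ).card : ℝ)) := by
    intro x
    unfold ee
    by_cases e1 : L y x = w y <;> by_cases e2 : L y' x = w y' <;> simp [e1, e2] <;> ring
  rw [sum_congr rfl fun x _ => h4 x, sum_add_distrib, sum_sub_distrib, sum_sub_distrib, ← mul_sum, ← mul_sum,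
    sum_ind, sum_ind, sum_const, nsmul_eq_mul, coset_card, h1', h2']
  have h5 : (∑ x ∈ univ.filter (fun x : G => x - x₀ ∈ Γ), if L y x = w y ∧ L y' x = w y' then (1 : ℝ) else 0) =
      ((fib ((L y).prod (L y')) Γ x₀ (w y, w y')).card : ℝ) := by
    rw [← sum_filter, sum_const, nsmul_eq_mul, mul_one, filter_filter]
    refine congrArg _ (congrArg _ (Finset.ext fun x => ?_))
    unfold fib
    simp only [mem_filter, mem_univ, true_and, AddMonoidHom.prod_apply, Prod.mk.injEq]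
  rw [h5, h3']
  field_simp
  ring

open Classical in
theorem norm_ee {y : Y} (hy : w y - L y x₀ ∈ img (L y) Γ) :
    (∑ x ∈ univ.filter (fun x : G => x - x₀ ∈ Γ), ee L Γ w y x * ee L Γ w y x) ≤ sz Γ := by
  have h1 := fib_card (L y) Γ x₀ (w y) hy
  have hq : (0 : ℝ) < (img (L y) Γ).card := by exact_mod_cast img_pos _ _
  have hq1 : (1 : ℝ) ≤ (img (L y) Γ).card := by exact_mod_cast img_pos (L y) Γ
  have h1' : ((fib (L y) Γ x₀ (w y)).card : ℝ) = sz Γ / (img (L y) Γ).card := by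
    rw [eq_div_iff hq.ne', mul_comm]
    exact_mod_cast h1
  have h4 : ∀ x : G, ee L Γ w y x * ee L Γ w y x =
      (1 - 2 * (1 / ((img (L y) Γ).card : ℝ))) * (if L y x = w y then (1 : ℝ) else 0) +
      (1 / ((img (L y) Γ).card : ℝ)) ^ 2 := by
    intro x
    unfold ee
    by_cases e1 : L y x = w y <;> simp [e1] <;> ring
  rw [sum_congr rfl fun x _ => h4 x, sum_add_distrib, ← mul_sum, sum_ind, sum_const, nsmul_eq_mul, coset_card,
    h1']
  have hs : (0 : ℝ) ≤ sz Γ := Nat.cast_nonneg _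
  have e : (1 - 2 * (1 / ((img (L y) Γ).card : ℝ))) * (sz Γ / (img (L y) Γ).card) +
      sz Γ * (1 / ((img (L y) Γ).card : ℝ)) ^ 2 =
      sz Γ / (img (L y) Γ).card - sz Γ / (img (L y) Γ).card ^ 2 := by
    field_simp
    ring
  rw [e]
  have h2 : (sz Γ : ℝ) / (img (L y) Γ).card ≤ sz Γ := div_le_self hs hq1
  have h3 : (0 : ℝ) ≤ sz Γ / (img (L y) Γ).card ^ 2 := by positivity
  linarith

open Classical in
/-- **Bessel's inequality.** -/
theorem bessel (S : Finset G) (hS : ∀ x ∈ S, x - x₀ ∈ Γ) (F : Finset Y)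
    (hind : ∀ y ∈ F, ∀ y' ∈ F, y ≠ y' → Indep Γ (L y) (L y'))
    (hw : ∀ y ∈ F, w y - L y x₀ ∈ img (L y) Γ) (m : ℝ) (hm0 : 0 ≤ m)
    (hm : ∀ y ∈ F, m ≤ (S.card : ℝ) / (img (L y) Γ).card - ((S.filter fun x => L y x = w y).card : ℝ)) :
    (F.card * m) ^ 2 ≤ S.card * (F.card * sz Γ) := by
  have h1 : (F.card : ℝ) * m ≤ ∑ y ∈ F, ((S.card : ℝ) / (img (L y) Γ).card -
      ((S.filter fun x => L y x = w y).card : ℝ)) := by
    rw [← nsmul_eq_mul, ← sum_const]
    exact sum_le_sum hm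
  have h2 : (∑ y ∈ F, ((S.card : ℝ) / (img (L y) Γ).card - ((S.filter fun x => L y x = w y).card : ℝ))) =
      - ∑ x ∈ S, ∑ y ∈ F, ee L Γ w y x := by
    rw [sum_comm, ← sum_neg_distrib]
    refine sum_congr rfl fun y _ => ?_
    unfold ee
    rw [sum_sub_distrib, sum_const, nsmul_eq_mul, ← sum_filter, sum_const, nsmul_eq_mul]
    ring
  have h3 : (F.card * m) ^ 2 ≤ (∑ x ∈ S, ∑ y ∈ F, ee L Γ w y x) ^ 2 := by
    rw [h2] at h1
    have h4 : 0 ≤ (F.card : ℝ) * m := by positivity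
    calc (F.card * m) ^ 2 ≤ (- ∑ x ∈ S, ∑ y ∈ F, ee L Γ w y x) ^ 2 := pow_le_pow_left₀ h4 h1 2
      _ = _ := by ring
  refine h3.trans (sq_sum_le_card_mul_sum_sq.trans (mul_le_mul_of_nonneg_left ?_ (Nat.cast_nonneg _)))
  have h4 : (∑ x ∈ S, (∑ y ∈ F, ee L Γ w y x) ^ 2) ≤
      ∑ x ∈ univ.filter (fun x : G => x - x₀ ∈ Γ), (∑ y ∈ F, ee L Γ w y x) ^ 2 :=
    sum_le_sum_of_subset_of_nonneg (fun x hx => mem_filter.2 ⟨mem_univ _, hS x hx⟩) fun _ _ _ => sq_nonneg _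
  refine h4.trans ?_
  have h5 : ∀ x : G, (∑ y ∈ F, ee L Γ w y x) ^ 2 = ∑ y ∈ F, ∑ y' ∈ F, ee L Γ w y x * ee L Γ w y' x := by
    intro x
    rw [sq, sum_mul_sum]
  rw [sum_congr rfl fun x _ => h5 x, sum_comm]
  have h6 : ∀ y ∈ F, (∑ x ∈ univ.filter (fun x : G => x - x₀ ∈ Γ), ∑ y' ∈ F, ee L Γ w y x * ee L Γ w y' x) ≤
      sz Γ := by
    intro y hy
    rw [sum_comm, sum_eq_single y]
    · exact norm_ee L Γ x₀ w (hw y hy)
    · intro y' hy' hne
      exact orth_ee L Γ x₀ w (hind y hy y' hy' (Ne.symm hne)) (hw y hy) (hw y' hy')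
    · intro h
      exact absurd hy h
  refine (sum_le_sum h6).trans (le_of_eq ?_)
  rw [sum_const, nsmul_eq_mul]

end bessel

end Pool.Agent.K7.H41.AE
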