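import Pool.Agent.K7.H41.AE.Main
import Pool.Agent.K7.H41.BE.Zeros

/-!
# Extremal graphs defined by affine equations: many collisions
-/

set_option autoImplicit false

namespace Pool.Agent.K7.H41.AE

open Finset Pool.Agent.K7.H41.BE

/-- the number of pairs `x`, `h` with `u(x + h) - u(x) = L_y(h)` -/
noncomputable def coll {G Y H : Type} [AddCommGroup G] [AddCommGroup H] [Fintype G] (L : Y → G →+ H) (u : G → H)
    (y : Y) : ℕ := ∑ h : G, qq L u h y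

/-- even `r` -/
theorem coll_even (k s : ℕ) (hk : 1 ≤ k) (c : ℝ) (hc : 0 < c) : ∃ c₁ : ℝ, 0 < c₁ ∧ ∃ ν₀ : ℝ,
    ∀ (G Y H : Type) [AddCommGroup G] [AddCommGroup H] [Fintype G]
      (L : Y → G →+ H) (u : G → H) (v : Y → H) (T : Finset Y) (n ν : ℝ), (Fintype.card G : ℝ) ≤ n →
      (T.card : ℝ) ≤ n → ν₀ ≤ ν → ν ^ (2 * (k + 1)) = n →
      KFree (2 * (k + 1)) s (RelA L u v) univ T →
      c * n ^ 2 / ν ≤ ∑ y ∈ T, dg (RelA L u v) y → c₁ * n ^ 3 ≤ ((∑ y ∈ T, coll L u y : ℕ) : ℝ) := by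
  classical
  set A : ℝ := max 1 (4 * s / c ^ 2) with hA
  have hA1 : 1 ≤ A := le_max_left _ _
  have hAk : 4 * s / c ^ 2 ≤ A ^ k := cast_mul_max hk hA1 (le_max_right _ _)
  refine ⟨c ^ 2 / (4 * A), by positivity, max 1 (max (4 / c) (12 * (k + 1) / c ^ 2)), ?_⟩
  intro G Y H _ _ _ L u v T n ν hn hn' hν hνn hfree hI
  have hν1 : 1 ≤ ν := (le_max_left _ _).trans hν
  have hν2 : 4 / c ≤ ν := (le_max_left _ _).trans ((le_max_right _ _).trans hν)
  have hν3 : 12 * (k + 1) / c ^ 2 ≤ ν := (le_max_right _ _).trans ((le_max_right _ _).trans hν)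
  have hν0 : 0 < ν := by linarith
  have hn1 : 1 ≤ n := by
    rw [← hνn]
    exact one_le_pow₀ hν1
  obtain ⟨I, hIdef⟩ : ∃ I : ℝ, I = ∑ y ∈ T, dg (RelA L u v) y := ⟨_, rfl⟩
  rw [← hIdef] at hI
  obtain ⟨Ω, hΩ⟩ : ∃ Ω : ℝ, Ω = ((∑ y ∈ T, coll L u y : ℕ) : ℝ) := ⟨_, rfl⟩
  have hΩ0 : 0 ≤ Ω := by
    rw [hΩ]
    exact Nat.cast_nonneg _
  rw [← hΩ]
  have hm := main_ineq L u v (k := k) (s := s) ∅ T (by simpa using hfree) (A / ν ^ 2) (by positivity)
  rw [card_empty, Nat.cast_zero, mul_zero, add_zero] at hm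
  have hm1 : (Fintype.card G : ℝ) * (3 * (k + 1) * T.card) ≤ n * (3 * (k + 1) * n) := by gcongr
  have hm2 : s * (Fintype.card G : ℝ) ^ 2 / (A / ν ^ 2) ^ k ≤ s * n ^ 2 / (A / ν ^ 2) ^ k := by gcongr
  have hcs : I ^ 2 / n ≤ ((∑ y ∈ T, (nb (RelA L u v) y).card ^ 2 : ℕ) : ℝ) := by
    rw [div_le_iff₀ (by linarith), hIdef]
    have h1 := sq_sum_le_card_mul_sum_sq (s := T) (f := fun y => dg (RelA L u v) y)
    have h2 : (0 : ℝ) ≤ ∑ y ∈ T, dg (RelA L u v) y ^ 2 := sum_nonneg fun _ _ => sq_nonneg _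
    have h3 := mul_le_mul_of_nonneg_right hn' h2
    have h4 : ((∑ y ∈ T, (nb (RelA L u v) y).card ^ 2 : ℕ) : ℝ) = ∑ y ∈ T, dg (RelA L u v) y ^ 2 := by
      push_cast
      rfl
    rw [h4]
    linarith
  have hpow : ν ^ (2 * k) = n / ν ^ 2 := by
    rw [eq_div_iff (by positivity), ← hνn]
    ring
  have hkν : ν ≤ ν ^ (2 * k) := by
    calc ν = ν ^ 1 := (pow_one ν).symm
      _ ≤ ν ^ (2 * k) := pow_le_pow_right₀ hν1 (by omega)
  have hlast : s * n ^ 2 / (A / ν ^ 2) ^ k ≤ c ^ 2 / 4 * (n ^ 3 / ν ^ 2) := by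
    rw [div_pow, ← pow_mul, div_div_eq_mul_div, hpow]
    rw [div_le_iff₀ (by positivity)]
    have h2 : (s : ℝ) ≤ c ^ 2 / 4 * A ^ k := by
      rw [div_le_iff₀ (by positivity)] at hAk
      linarith
    calc s * n ^ 2 * (n / ν ^ 2) ≤ (c ^ 2 / 4 * A ^ k) * n ^ 2 * (n / ν ^ 2) := by gcongr
      _ = _ := by ring
  have hI2 : c ^ 2 * (n ^ 3 / ν ^ 2) ≤ I ^ 2 / n := by
    rw [le_div_iff₀ (by linarith)]
    calc c ^ 2 * (n ^ 3 / ν ^ 2) * n = (c * n ^ 2 / ν) ^ 2 := by ring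
      _ ≤ I ^ 2 := pow_le_pow_left₀ (by positivity) hI 2
  have hIn : 4 * n ≤ I := by
    refine le_trans ?_ hI
    rw [le_div_iff₀ hν0]
    have h3 : 4 * ν ≤ c * n := by
      have h4 : ν * ν ≤ n := by
        rw [← hνn]
        calc ν * ν = ν ^ 2 := by ring
          _ ≤ ν ^ (2 * (k + 1)) := pow_le_pow_right₀ hν1 (by omega)
      have h5 : 4 ≤ c * ν := by
        rw [div_le_iff₀ hc] at hν2
        linarith
      calc 4 * ν ≤ c * ν * ν := by gcongr
        _ = c * (ν * ν) := by ring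
        _ ≤ c * n := by gcongr
    calc 4 * n * ν = n * (4 * ν) := by ring
      _ ≤ n * (c * n) := by gcongr
      _ = c * n ^ 2 := by ring
  have hI3 : I ≤ 1 / 4 * (I ^ 2 / n) := by
    rw [← sub_nonneg]
    have : 1 / 4 * (I ^ 2 / n) - I = I * (I - 4 * n) / (4 * n) := by
      field_simp
    rw [this]
    have : 0 ≤ I := by linarith
    have : 0 ≤ I - 4 * n := by linarith
    positivity
  have h3 : n * (3 * (k + 1) * n) ≤ c ^ 2 / 4 * (n ^ 3 / ν ^ 2) := by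
    have h6 : 12 * (k + 1) / c ^ 2 ≤ n / ν ^ 2 := by
      rw [← hpow]
      exact hν3.trans hkν
    rw [div_le_iff₀ (by positivity)] at h6
    calc n * (3 * (k + 1) * n) = (12 * (k + 1)) * (n ^ 2 / 4) := by ring
      _ ≤ (n / ν ^ 2 * c ^ 2) * (n ^ 2 / 4) := by gcongr
      _ = _ := by ring
  have h5 : c ^ 2 / 4 * (n ^ 3 / ν ^ 2) ≤ A / ν ^ 2 * Ω := by
    have hsum : ((∑ y ∈ T, (nb (RelA L u v) y).card : ℕ) : ℝ) = I := by
      rw [hIdef]
      push_cast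
      rfl
    have hsum2 : ((∑ y ∈ T, ∑ h : G, qq L u h y : ℕ) : ℝ) = Ω := by
      rw [hΩ]
      rfl
    rw [hsum, hsum2] at hm
    linarith
  have h6 : c ^ 2 / 4 * (n ^ 3 / ν ^ 2) = c ^ 2 / 4 * n ^ 3 * (1 / ν ^ 2) := by ring
  have h7 : A / ν ^ 2 * Ω = A * Ω * (1 / ν ^ 2) := by ring
  rw [h6, h7] at h5
  have h8 := le_of_mul_le_mul_right h5 (by positivity)
  rw [div_mul_eq_mul_div, div_le_iff₀ (by positivity)]
  linarith

section odd

variable {G Y H : Type} [AddCommGroup G] [AddCommGroup H] [Fintype G]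

omit [AddCommGroup G] in
open Classical in
/-- large degrees are negligible -/
theorem large_degreesA {r s : ℕ} (R : G → Y → Prop) (T : Finset Y) (hfree : KFree (r + 1) s R univ T) (n Δ : ℝ)
    (hn : (Fintype.card G : ℝ) ≤ n) (hn0 : 0 < n) (hΔ : 4 * ((r : ℝ) + 1) ≤ Δ) :
    (∑ y ∈ T.filter (fun y : Y => Δ < dg R y), dg R y) ≤ 2 * (s * n / (Δ / (4 * n)) ^ r) := by
  have hΔ0 : 0 < Δ := by
    have : (0 : ℝ) ≤ r := Nat.cast_nonneg r
    linarith
  set T' : Finset Y := T.filter fun y : Y => Δ < dg R y with hT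
  have h1 := kst (r := r) (s := s) (R := R) (S := univ) (T := T')
    (hfree.mono (subset_univ _) (filter_subset _ _)) (Δ / (4 * n)) (by positivity)
  have h2 : ((∑ y ∈ T', ((univ : Finset G).filter fun x => R x y).card : ℕ) : ℝ) = ∑ y ∈ T', dg R y := by
    push_cast
    rfl
  rw [h2, card_univ] at h1
  have h1a : Δ / (4 * n) * Fintype.card G * T'.card ≤ Δ / (4 * n) * n * T'.card := by gcongr
  have h1b : s * (Fintype.card G : ℝ) / (Δ / (4 * n)) ^ r ≤ s * n / (Δ / (4 * n)) ^ r := by gcongr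
  have h3 : (T'.card : ℝ) * Δ ≤ ∑ y ∈ T', dg R y := by
    rw [← nsmul_eq_mul, ← sum_const]
    exact sum_le_sum fun y hy => (mem_filter.1 hy).2.le
  have h4 : ((r : ℝ) + 1) * T'.card ≤ 1 / 4 * (T'.card * Δ) := by
    have h5 : (4 * ((r : ℝ) + 1)) * T'.card ≤ Δ * T'.card :=
      mul_le_mul_of_nonneg_right hΔ (Nat.cast_nonneg _)
    linarith
  have h5 : Δ / (4 * n) * n * T'.card = 1 / 4 * (T'.card * Δ) := by
    field_simp
  linarith

variable (L : Y → G →+ H) (u : G → H) (v : Y → H)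

open Classical in
/-- the main inequality summed over the neighbours of the vertices `z` -/
theorem odd_sumA {k s : ℕ} (T : Finset Y) (hfree : KFree (2 * (k + 1) + 1) s (RelA L u v) univ T) (n τ : ℝ)
    (hn : (Fintype.card G : ℝ) ≤ n) (hτ : 0 < τ) :
    (∑ y ∈ T, dg (RelA L u v) y * dg (RelA L u v) y ^ 2) ≤
      (∑ y ∈ T, dg (RelA L u v) y * (dg (RelA L u v) y + n * (3 * (k + 1) + 2) +
      τ * (coll L u y : ℝ))) + s * n ^ 3 / τ ^ k := by
  have hz : ∀ z : G, (∑ y ∈ T.filter (fun y => RelA L u v z y), dg (RelA L u v) y ^ 2) ≤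
      (∑ y ∈ T.filter (fun y => RelA L u v z y), (dg (RelA L u v) y + n * (3 * (k + 1) + 2) +
        τ * (coll L u y : ℝ))) + s * n ^ 2 / τ ^ k := by
    intro z
    have h1 := main_ineq L u v (k := k) (s := s) {z} (T.filter fun y => RelA L u v z y) (by
      intro A' hA' Z hZ hcA hR
      have hzA : z ∉ A' := fun hz => by
        have := hA' hz
        rw [mem_compl, mem_singleton] at this
        exact this rfl
      refine hfree (insert z A') (subset_univ _) Z (hZ.trans (filter_subset _ _))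
        (by rw [card_insert_of_notMem hzA, hcA]) ?_
      intro x hx y hy
      rcases mem_insert.1 hx with rfl | hx
      · exact (mem_filter.1 (hZ hy)).2
      · exact hR x hx y hy) τ hτ
    rw [card_singleton] at h1
    have h1a : (Fintype.card G : ℝ) * ((3 * (k + 1) + 2 * (1 : ℕ)) * (T.filter fun y => RelA L u v z y).card) ≤
        n * ((3 * (k + 1) + 2 * (1 : ℕ)) * (T.filter fun y => RelA L u v z y).card) := by gcongr
    have h1b : s * (Fintype.card G : ℝ) ^ 2 / τ ^ k ≤ s * n ^ 2 / τ ^ k := by gcongr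
    replace h1 := h1.trans (add_le_add (add_le_add_left (add_le_add_right h1a _) _) h1b)
    have e1 : ((∑ y ∈ T.filter (fun y => RelA L u v z y), (nb (RelA L u v) y).card ^ 2 : ℕ) : ℝ) =
        ∑ y ∈ T.filter (fun y => RelA L u v z y), dg (RelA L u v) y ^ 2 := by
      push_cast
      rfl
    rw [e1] at h1
    refine h1.trans (le_of_eq ?_)
    rw [sum_add_distrib, sum_add_distrib, sum_const, nsmul_eq_mul, ← mul_sum]
    unfold dg coll
    push_cast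
    ring
  have hswap : ∀ f : Y → ℝ, (∑ z : G, ∑ y ∈ T.filter (fun y => RelA L u v z y), f y) =
      ∑ y ∈ T, dg (RelA L u v) y * f y := by
    intro f
    simp only [sum_filter]
    rw [sum_comm]
    refine sum_congr rfl fun y _ => ?_
    rw [← sum_filter, sum_const, nsmul_eq_mul]
    rfl
  rw [← hswap, ← hswap]
  refine (sum_le_sum fun z _ => hz z).trans ?_
  rw [sum_add_distrib, sum_const, nsmul_eq_mul, card_univ]
  have h9 : (Fintype.card G : ℝ) * (s * n ^ 2 / τ ^ k) ≤ n * (s * n ^ 2 / τ ^ k) := by gcongr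
  have h10 : n * (s * n ^ 2 / τ ^ k) = s * n ^ 3 / τ ^ k := by ring
  rw [h10] at h9
  exact add_le_add_right h9 _

open Classical in
theorem odd_boundA {k s : ℕ} (T : Finset Y) (hfree : KFree (2 * (k + 1) + 1) s (RelA L u v) univ T) (n τ Δ : ℝ)
    (hn : (Fintype.card G : ℝ) ≤ n) (hn0 : 0 < n) (hn' : (T.card : ℝ) ≤ n) (hτ : 0 < τ)
    (hΔ : Δ ≤ n) (hΔ0 : 0 ≤ Δ) (hY : ∀ y ∈ T, dg (RelA L u v) y ≤ Δ) :
    (∑ y ∈ T, dg (RelA L u v) y) ^ 3 / n ^ 2 ≤ n * (3 * (k + 1) + 3) * (∑ y ∈ T, dg (RelA L u v) y) +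
      τ * Δ * ((∑ y ∈ T, coll L u y : ℕ) : ℝ) + s * n ^ 3 / τ ^ k := by
  have h0 := odd_sumA L u v T hfree n τ hn hτ
  have h1 : (∑ y ∈ T, dg (RelA L u v) y * (dg (RelA L u v) y + n * (3 * (k + 1) + 2) +
      τ * (coll L u y : ℝ))) ≤
      n * (3 * (k + 1) + 3) * (∑ y ∈ T, dg (RelA L u v) y) + τ * Δ * ((∑ y ∈ T, coll L u y : ℕ) : ℝ) := by
    have h2 : ∀ y ∈ T, dg (RelA L u v) y * (dg (RelA L u v) y + n * (3 * (k + 1) + 2) +
        τ * (coll L u y : ℝ)) ≤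
        n * (3 * (k + 1) + 3) * dg (RelA L u v) y + τ * Δ * (coll L u y : ℝ) := by
      intro y hy
      have h2 := hY y hy
      have h0 := dg_nonneg (RelA L u v) y
      have h3 : dg (RelA L u v) y * (dg (RelA L u v) y + n * (3 * (k + 1) + 2)) ≤
          n * (3 * (k + 1) + 3) * dg (RelA L u v) y := by
        have : dg (RelA L u v) y + n * (3 * (k + 1) + 2) ≤ n * (3 * (k + 1) + 3) := by linarith
        calc dg (RelA L u v) y * (dg (RelA L u v) y + n * (3 * (k + 1) + 2)) ≤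
              dg (RelA L u v) y * (n * (3 * (k + 1) + 3)) := mul_le_mul_of_nonneg_left this h0
          _ = _ := mul_comm _ _
      have h4 : dg (RelA L u v) y * (τ * (coll L u y : ℝ)) ≤ τ * Δ * (coll L u y : ℝ) := by
        have h5 : (0 : ℝ) ≤ τ * (coll L u y : ℝ) := mul_nonneg hτ.le (Nat.cast_nonneg _)
        calc dg (RelA L u v) y * (τ * (coll L u y : ℝ)) ≤
              Δ * (τ * (coll L u y : ℝ)) := mul_le_mul_of_nonneg_right h2 h5
          _ = _ := by ring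
      rw [mul_add]
      exact add_le_add h3 h4
    refine (sum_le_sum h2).trans (le_of_eq ?_)
    rw [sum_add_distrib, ← mul_sum, ← mul_sum]
    push_cast
    rfl
  have h2 := pow_sum_le_card_mul_sum_pow (s := T) (f := dg (RelA L u v)) (fun y _ => dg_nonneg _ y) 2
  have h3 : (∑ y ∈ T, dg (RelA L u v) y ^ (2 + 1)) = ∑ y ∈ T, dg (RelA L u v) y * dg (RelA L u v) y ^ 2 :=
    sum_congr rfl fun y _ => by ring
  rw [h3] at h2
  have h4 : (0 : ℝ) ≤ ∑ y ∈ T, dg (RelA L u v) y * dg (RelA L u v) y ^ 2 := sum_nonneg fun y _ => by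
    have := dg_nonneg (RelA L u v) y
    positivity
  have h5 : (T.card : ℝ) ^ 2 ≤ n ^ 2 := pow_le_pow_left₀ (Nat.cast_nonneg _) hn' 2
  have h6 : (∑ y ∈ T, dg (RelA L u v) y) ^ 3 / n ^ 2 ≤ ∑ y ∈ T, dg (RelA L u v) y * dg (RelA L u v) y ^ 2 := by
    rw [div_le_iff₀ (by positivity)]
    calc (∑ y ∈ T, dg (RelA L u v) y) ^ 3 ≤
          (T.card : ℝ) ^ 2 * ∑ y ∈ T, dg (RelA L u v) y * dg (RelA L u v) y ^ 2 := h2
      _ ≤ n ^ 2 * ∑ y ∈ T, dg (RelA L u v) y * dg (RelA L u v) y ^ 2 := mul_le_mul_of_nonneg_right h5 h4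
      _ = _ := mul_comm _ _
  linarith

end odd

/-- odd `r` -/
theorem coll_odd (k s : ℕ) (hk : 1 ≤ k) (c : ℝ) (hc : 0 < c) : ∃ c₁ : ℝ, 0 < c₁ ∧ ∃ ν₀ : ℝ,
    ∀ (G Y H : Type) [AddCommGroup G] [AddCommGroup H] [Fintype G]
      (L : Y → G →+ H) (u : G → H) (v : Y → H) (T : Finset Y) (n ν : ℝ), (Fintype.card G : ℝ) ≤ n →
      (T.card : ℝ) ≤ n → ν₀ ≤ ν → ν ^ (2 * (k + 1) + 1) = n →
      KFree (2 * (k + 1) + 1) s (RelA L u v) univ T →
      c * n ^ 2 / ν ≤ ∑ y ∈ T, dg (RelA L u v) y → c₁ * n ^ 3 ≤ ((∑ y ∈ T, coll L u y : ℕ) : ℝ) := by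
  classical
  obtain ⟨A, hA1, hAk⟩ : ∃ A : ℝ, 1 ≤ A ∧ 32 * s / c ^ 3 ≤ A ^ k :=
    ⟨max 1 (32 * s / c ^ 3), le_max_left _ _, cast_mul_max hk (le_max_left _ _) (le_max_right _ _)⟩
  obtain ⟨Λ, hL1, hLk⟩ : ∃ Λ : ℝ, 1 ≤ Λ ∧ 4 ^ (2 * (k + 1) + 1) * s / c ≤ Λ ^ (2 * (k + 1)) :=
    ⟨max 1 (4 ^ (2 * (k + 1) + 1) * s / c), le_max_left _ _,
      cast_mul_max (by omega) (le_max_left _ _) (le_max_right _ _)⟩
  refine ⟨c ^ 3 / (16 * A * Λ), by positivity,
    max 1 (max Λ (max (8 * (k + 2)) (16 * (3 * (k + 1) + 3) / c ^ 2))), ?_⟩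
  intro G Y H _ _ _ L u v T n ν hn hn' hν hνn hfree hI
  have hν1 : 1 ≤ ν := (le_max_left _ _).trans hν
  have hν2 : Λ ≤ ν := (le_max_left _ _).trans ((le_max_right _ _).trans hν)
  have hν3 : 8 * (k + 2) ≤ ν :=
    (le_max_left _ _).trans ((le_max_right _ _).trans ((le_max_right _ _).trans hν))
  have hν4 : 16 * (3 * (k + 1) + 3) / c ^ 2 ≤ ν :=
    (le_max_right _ _).trans ((le_max_right _ _).trans ((le_max_right _ _).trans hν))
  have hν0 : 0 < ν := by linarith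
  have hn1 : 1 ≤ n := by
    rw [← hνn]
    exact one_le_pow₀ hν1
  have hn0 : 0 < n := by linarith
  have hpow2 : ν ^ (2 * (k + 1)) = n / ν := by
    rw [eq_div_iff (by positivity), ← hνn]
    ring
  have hnν1 : 1 * (n / ν) ≤ Λ * (n / ν) := mul_le_mul_of_nonneg_right hL1 (by positivity)
  have hΔν : ν ≤ Λ * (n / ν) := by
    refine le_trans ?_ hnν1
    rw [one_mul, ← hpow2]
    calc ν = ν ^ 1 := (pow_one ν).symm
      _ ≤ _ := pow_le_pow_right₀ hν1 (by omega)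
  have hΔn : Λ * (n / ν) ≤ n := by
    calc Λ * (n / ν) ≤ ν * (n / ν) := mul_le_mul_of_nonneg_right hν2 (by positivity)
      _ = n := by field_simp
  have hΔ0 : 0 < Λ * (n / ν) := by linarith
  have h1 := large_degreesA (r := 2 * (k + 1)) (s := s) (RelA L u v) T hfree n (Λ * (n / ν)) hn hn0 (by
    push_cast
    linarith)
  have h2 : 2 * (s * n / (Λ * (n / ν) / (4 * n)) ^ (2 * (k + 1))) ≤ c / 2 * n ^ 2 / ν := by
    have h7 : Λ * (n / ν) / (4 * n) = Λ / (4 * ν) := by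
      field_simp
    have h8 : 4 ^ (2 * (k + 1) + 1) * (s : ℝ) ≤ c * Λ ^ (2 * (k + 1)) := by
      rw [div_le_iff₀ hc] at hLk
      linarith
    have h9 : s * n / (Λ / (4 * ν)) ^ (2 * (k + 1)) ≤ c / 4 * n ^ 2 / ν := by
      rw [div_pow, mul_pow, hpow2, div_div_eq_mul_div, div_le_div_iff₀ (by positivity) (by positivity)]
      calc s * n * (4 ^ (2 * (k + 1)) * (n / ν)) * ν = (4 ^ (2 * (k + 1) + 1) * s) * (n ^ 2 / 4) := by
            field_simp
            ring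
        _ ≤ (c * Λ ^ (2 * (k + 1))) * (n ^ 2 / 4) := mul_le_mul_of_nonneg_right h8 (by positivity)
        _ = _ := by ring
    rw [h7]
    calc 2 * (s * n / (Λ / (4 * ν)) ^ (2 * (k + 1))) ≤ 2 * (c / 4 * n ^ 2 / ν) := by linarith
      _ = _ := by ring
  have h3 : c / 2 * n ^ 2 / ν ≤ ∑ y ∈ T.filter (fun y : Y => ¬ Λ * (n / ν) < dg (RelA L u v) y),
      dg (RelA L u v) y := by
    have h4 : (∑ y ∈ T.filter (fun y : Y => Λ * (n / ν) < dg (RelA L u v) y), dg (RelA L u v) y) +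
        (∑ y ∈ T.filter (fun y : Y => ¬ Λ * (n / ν) < dg (RelA L u v) y), dg (RelA L u v) y) =
        ∑ y ∈ T, dg (RelA L u v) y := sum_filter_add_sum_filter_not _ _ _
    have h5 : c * n ^ 2 / ν = c / 2 * n ^ 2 / ν + c / 2 * n ^ 2 / ν := by ring
    rw [h5] at hI
    linarith
  set T' := T.filter (fun y : Y => ¬ Λ * (n / ν) < dg (RelA L u v) y) with hT'
  have hT'c : (T'.card : ℝ) ≤ n := le_trans (by exact_mod_cast card_le_card (filter_subset _ _)) hn'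
  have h4 := odd_boundA L u v T' (hfree.mono (Subset.refl _) (filter_subset _ _)) n (A / ν ^ 2) (Λ * (n / ν))
    hn hn0 hT'c (by positivity) hΔn hΔ0.le (fun y hy => not_lt.1 (mem_filter.1 hy).2)
  have h5 := odd_real k s c A Λ n ν _ (((∑ y ∈ T', coll L u y : ℕ) : ℝ) / n) hc hA1 hL1 hAk hν1 hn1 hνn hν4 h3 (by
    rw [mul_div_cancel₀ _ hn0.ne']
    exact h4)
  rw [le_div_iff₀ hn0] at h5
  have h6 : ((∑ y ∈ T', coll L u y : ℕ) : ℝ) ≤ ((∑ y ∈ T, coll L u y : ℕ) : ℝ) := by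
    exact_mod_cast sum_le_sum_of_subset (filter_subset _ _)
  calc c ^ 3 / (16 * A * Λ) * n ^ 3 = c ^ 3 / (16 * A * Λ) * n ^ 2 * n := by ring
    _ ≤ _ := h5.trans h6

end Pool.Agent.K7.H41.AE
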