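import Pool.Agent.K7.H41.BE.Zeros
import Pool.Agent.K7.H41.BE.Struct

/-!
# Cubes in the neighbourhoods
-/

set_option autoImplicit false

namespace Pool.Agent.K7.H41.AE

open Finset Pool.Agent.K7.H41.BE

section defs

variable {G Y H : Type} [AddCommGroup G] [AddCommGroup H]

/-- the iterated difference `Δ_{h₁} ⋯ Δ_{h_d} f (x)` -/
def diff (f : G → H) : List G → G → H
  | [], x => f x
  | h :: l, x => diff f l (x + h) - diff f l x

/-- `f` is a polynomial map of degree at most `d`: all iterated differences of order `d + 1` vanish -/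
def DegLE (d : ℕ) (f : G → H) : Prop := ∀ l : List G, l.length = d + 1 → ∀ x, diff f l x = 0

theorem diff_const {d : ℕ} {f : G → H} (hf : DegLE d f) (l : List G) (hl : l.length = d) (x : G) :
    diff f l x = diff f l 0 := by
  have h := hf (x :: l) (by rw [List.length_cons, hl]) 0
  have h1 : diff f l (0 + x) - diff f l 0 = 0 := h
  rw [zero_add] at h1
  exact sub_eq_zero.1 h1

/-- the pairs `(x, y)`, `(x + h, y)` are in the relation -/
def sh (R : G → Y → Prop) (h : G) : G → Y → Prop := fun x y => R x y ∧ R (x + h) y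

/-- all vertices of a cube are in relation with `y` -/
def cube (R : G → Y → Prop) : List G → G → Y → Prop
  | [] => R
  | h :: l => sh (cube R l) h

theorem cube_sh (R : G → Y → Prop) (h : G) : ∀ l : List G, cube (sh R h) l = cube R (h :: l) := by
  intro l
  induction l with
  | nil => rfl
  | cons k l ih =>
    show sh (cube (sh R h) l) k = sh (sh (cube R l) k) h
    rw [ih]
    show sh (sh (cube R l) h) k = sh (sh (cube R l) k) h
    funext x y
    unfold sh
    rw [add_right_comm x k h]
    exact propext ⟨fun ⟨⟨a, b⟩, c, e⟩ => ⟨⟨a, c⟩, b, e⟩, fun ⟨⟨a, b⟩, c, e⟩ => ⟨⟨a, c⟩, b, e⟩⟩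

theorem cube_diff {R : G → Y → Prop} {f : Y → G → H} {u : G → H} {v : Y → H}
    (hR : ∀ x y, R x y → f y x = u x + v y) :
    ∀ (h : G) (l : List G) (x : G) (y : Y), cube R (h :: l) x y → diff (f y) (h :: l) x = diff u (h :: l) x := by
  intro h l
  induction l generalizing h with
  | nil =>
    intro x y hc
    obtain ⟨h1, h2⟩ := hc
    show f y (x + h) - f y x = u (x + h) - u x
    rw [hR _ _ h1, hR _ _ h2]
    abel
  | cons k l ih =>
    intro x y hc
    obtain ⟨h1, h2⟩ := hc
    show diff (f y) (k :: l) (x + h) - diff (f y) (k :: l) x = diff u (k :: l) (x + h) - diff u (k :: l) x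
    rw [ih k x y h1, ih k (x + h) y h2]

open Classical in
/-- the vertices of the cube at `0` -/
noncomputable def vert : List G → Finset G
  | [] => {0}
  | h :: l => vert l ∪ (vert l).image (· + h)

theorem mem_vert_nil {c : G} : c ∈ vert ([] : List G) ↔ c = 0 := by
  unfold vert
  exact mem_singleton

theorem mem_vert_cons {h c : G} {l : List G} : c ∈ vert (h :: l) ↔ c ∈ vert l ∨ ∃ a ∈ vert l, a + h = c := by
  classical
  rw [vert, mem_union, mem_image]

theorem cube_iff (R : G → Y → Prop) : ∀ (l : List G) (x : G) (y : Y),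
    cube R l x y ↔ ∀ c ∈ vert l, R (x + c) y := by
  intro l
  induction l with
  | nil =>
    intro x y
    constructor
    · intro h c hc
      rw [mem_vert_nil.1 hc, add_zero]
      exact h
    · intro h
      have := h 0 (mem_vert_nil.2 rfl)
      rwa [add_zero] at this
  | cons h l ih =>
    intro x y
    show (cube R l x y ∧ cube R l (x + h) y) ↔ _
    rw [ih, ih]
    constructor
    · rintro ⟨h1, h2⟩ c hc
      rcases mem_vert_cons.1 hc with hc | ⟨c', hc', rfl⟩
      · exact h1 c hc
      · have := h2 c' hc'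
        have e : x + (c' + h) = x + h + c' := by abel
        rwa [e]
    · intro h1
      refine ⟨fun c hc => h1 c (mem_vert_cons.2 (Or.inl hc)), fun c hc => ?_⟩
      have := h1 (c + h) (mem_vert_cons.2 (Or.inr ⟨c, hc, rfl⟩))
      have e : x + (c + h) = x + h + c := by abel
      rwa [e] at this

theorem vert_card_le : ∀ l : List G, (vert l).card ≤ 2 ^ l.length := by
  classical
  intro l
  induction l with
  | nil =>
    rw [vert]
    simp
  | cons h l ih =>
    rw [vert]
    refine (card_union_le _ _).trans ?_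
    have h1 := card_image_le (s := vert l) (f := (· + h))
    rw [List.length_cons, pow_succ]
    omega

theorem zero_mem_vert : ∀ l : List G, (0 : G) ∈ vert l := by
  intro l
  induction l with
  | nil => exact mem_vert_nil.2 rfl
  | cons h l ih => exact mem_vert_cons.2 (Or.inl ih)

open Classical in
/-- the differences of the vertices -/
noncomputable def dset (l : List G) : Finset G := (vert l ×ˢ vert l).image fun p => p.1 - p.2

theorem dset_card_le (l : List G) : (dset l).card ≤ 4 ^ l.length := by
  classical
  unfold dset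
  refine card_image_le.trans ?_
  rw [card_product]
  have h := vert_card_le l
  calc (vert l).card * (vert l).card ≤ 2 ^ l.length * 2 ^ l.length := Nat.mul_le_mul h h
    _ = 4 ^ l.length := by
      rw [← mul_pow]
      norm_num

theorem mem_dset {l : List G} {a b : G} (ha : a ∈ vert l) (hb : b ∈ vert l) : a - b ∈ dset l := by
  classical
  unfold dset
  exact mem_image.2 ⟨(a, b), mem_product.2 ⟨ha, hb⟩, rfl⟩

/-- the cube has the right number of vertices -/
def Nondeg (l : List G) : Prop := (vert l).card = 2 ^ l.length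

theorem nondeg_cons {h : G} {l : List G} (hl : Nondeg l) (hh : h ∉ dset l) : Nondeg (h :: l) := by
  classical
  unfold Nondeg at *
  rw [vert, card_union_of_disjoint, card_image_of_injective _ (add_left_injective h), hl, List.length_cons, pow_succ]
  · ring
  · rw [disjoint_left]
    intro c hc hc'
    obtain ⟨a, ha, rfl⟩ := mem_image.1 hc'
    apply hh
    have := mem_dset hc ha
    rwa [add_sub_cancel_left] at this

open Classical in
/-- the translates of the cube along a list without conflicts are disjoint -/
theorem card_cubes (l : List G) (L : List G)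
    (hL : L.Pairwise (fun a c => c ∉ (dset l).image (a + ·))) :
    (L.toFinset.biUnion fun a => (vert l).image (a + ·)).card = L.length * (vert l).card := by
  have hsymm : ∀ a c : G, c ∉ (dset l).image (a + ·) → a ∉ (dset l).image (c + ·) := by
    intro a c h1 h2
    apply h1
    obtain ⟨e, he, h3⟩ := mem_image.1 h2
    unfold dset at he
    obtain ⟨⟨p, q⟩, hpq, rfl⟩ := mem_image.1 he
    obtain ⟨hp, hq⟩ := mem_product.1 hpq
    refine mem_image.2 ⟨q - p, mem_dset hq hp, ?_⟩
    have h4 : c + (p - q) = a := h3
    show a + (q - p) = c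
    rw [← h4]
    abel
  have hnd : L.Nodup := by
    refine hL.imp ?_
    intro a b hab e
    apply hab
    rw [← e]
    refine mem_image.2 ⟨0, ?_, add_zero _⟩
    have := mem_dset (zero_mem_vert l) (zero_mem_vert l)
    rwa [sub_zero] at this
  have h1 : L.Pairwise (fun a c => c ∉ (dset l).image (a + ·) ∧ a ∉ (dset l).image (c + ·)) :=
    hL.imp fun {a c} h => ⟨h, hsymm a c h⟩
  rw [card_biUnion]
  · rw [sum_congr rfl fun a _ => card_image_of_injective (vert l) (add_right_injective a), sum_const,
      smul_eq_mul, List.toFinset_card_of_nodup hnd]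
  · intro a ha c hc hne
    have : Std.Symm (fun a c : G => c ∉ (dset l).image (a + ·) ∧ a ∉ (dset l).image (c + ·)) :=
      ⟨fun x y hxy => ⟨hxy.2, hxy.1⟩⟩
    have h2 := (h1.forall (List.mem_toFinset.1 ha) (List.mem_toFinset.1 hc) hne).1
    rw [Function.onFun, disjoint_left]
    intro z hz hz'
    obtain ⟨p, hp, rfl⟩ := mem_image.1 hz
    obtain ⟨q, hq, h3⟩ := mem_image.1 hz'
    apply h2
    refine mem_image.2 ⟨p - q, mem_dset hp hq, ?_⟩
    have h4 : c + q = a + p := h3
    show a + (p - q) = c
    rw [← add_sub_assoc, ← h4]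
    abel

end defs

section count

variable {G Y H : Type} [AddCommGroup G] [Fintype G]

open Classical in
/-- **The count for one cube.** -/
theorem cube_count {k s : ℕ} (l : List G) (hl : Nondeg l) (R : G → Y → Prop) (T : Finset Y)
    (hfree : KFree (2 ^ l.length * (k + 1)) s R univ T) (w : G → H) (a : Y → H)
    (hw : ∀ x y, cube R l x y → w x = a y) (τ : ℝ) (hτ : 0 < τ) :
    cnt (cube R l) univ T ≤ 4 ^ l.length * (k + 1) * T.card +
      τ * ((∑ y ∈ T, (univ.filter fun x => w x = a y).card : ℕ) : ℝ) + s * Fintype.card G / τ ^ k := by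
  let I : Finset H := T.image a
  let Yc : H → Finset Y := fun c => T.filter fun y => a y = c
  let Xc : H → Finset G := fun c => univ.filter fun x => w x = c
  let D : Y → Finset G := fun y => univ.filter fun x => cube R l x y
  have hclass : ∀ c ∈ I, ((∑ y ∈ Yc c, (D y).card : ℕ) : ℝ) ≤
      (4 ^ l.length : ℕ) * (k + 1) * (Yc c).card + τ * (Xc c).card * (Yc c).card + s * (Xc c).card / τ ^ k := by
    intro c _
    refine count_sizes (fun x : G => (dset l).image (x + ·)) (4 ^ l.length) s
      (fun x => card_image_le.trans (dset_card_le l)) (Xc c) k (Yc c) D ?_ ?_ τ hτ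
    · intro y hy x hx
      have h1 := (mem_filter.1 hx).2
      exact mem_filter.2 ⟨mem_univ _, (hw x y h1).trans (mem_filter.1 hy).2⟩
    · intro L hL hLp Z hZ hZL
      refine hfree (L.toFinset.biUnion fun a => (vert l).image (a + ·)) (subset_univ _) Z
        (hZ.trans (filter_subset _ _)) ?_ ?_
      · rw [card_cubes l L hLp, hL, hl]
        ring
      · intro x hx y hy
        obtain ⟨b, hb, hx⟩ := mem_biUnion.1 hx
        obtain ⟨c', hc', rfl⟩ := mem_image.1 hx
        have h1 := (mem_filter.1 (hZL y hy b (List.mem_toFinset.1 hb))).2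
        exact (cube_iff R l b y).1 h1 c' hc'
  have hmaps : ∀ y ∈ T, a y ∈ I := fun y hy => mem_image_of_mem a hy
  have e1 : (∑ c ∈ I, ∑ y ∈ Yc c, (D y).card) = ∑ y ∈ T, (D y).card := sum_fiberwise_of_maps_to hmaps _
  have e2 : (∑ c ∈ I, (Yc c).card) = T.card := (card_eq_sum_card_fiberwise hmaps).symm
  have e3 : (∑ c ∈ I, (Xc c).card * (Yc c).card) = ∑ y ∈ T, (univ.filter fun x => w x = a y).card := by
    rw [← sum_fiberwise_of_maps_to hmaps]
    refine sum_congr rfl fun c _ => ?_
    rw [mul_comm, ← smul_eq_mul, ← sum_const]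
    refine sum_congr rfl fun y hy => ?_
    rw [(mem_filter.1 hy).2]
  have e4 : (∑ c ∈ I, (Xc c).card) ≤ Fintype.card G := by
    rw [← card_univ, ← card_biUnion]
    · exact card_le_card (subset_univ _)
    · intro c _ c' _ hcc
      rw [Function.onFun, disjoint_left]
      intro x hx hx'
      exact hcc ((mem_filter.1 hx).2.symm.trans (mem_filter.1 hx').2)
  have h0 : cnt (cube R l) univ T = ((∑ y ∈ T, (D y).card : ℕ) : ℝ) := rfl
  rw [h0, ← e1]
  calc ((∑ c ∈ I, ∑ y ∈ Yc c, (D y).card : ℕ) : ℝ) = ∑ c ∈ I, ((∑ y ∈ Yc c, (D y).card : ℕ) : ℝ) := by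
        push_cast
        rfl
    _ ≤ ∑ c ∈ I, (((4 ^ l.length : ℕ) * (k + 1) * (Yc c).card + τ * (Xc c).card * (Yc c).card) +
        s * (Xc c).card / τ ^ k) := sum_le_sum hclass
    _ = 4 ^ l.length * (k + 1) * ((∑ c ∈ I, (Yc c).card : ℕ) : ℝ) +
        τ * ((∑ c ∈ I, (Xc c).card * (Yc c).card : ℕ) : ℝ)
        + s * ((∑ c ∈ I, (Xc c).card : ℕ) : ℝ) / τ ^ k := by
        rw [sum_add_distrib, sum_add_distrib, ← mul_sum, ← sum_div, ← mul_sum]
        push_cast
        congr 2
        rw [mul_sum]
        refine sum_congr rfl fun c _ => ?_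
        ring
    _ ≤ _ := by
        rw [e2, e3]
        gcongr

end count

end Pool.Agent.K7.H41.AE
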