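import Pool.Agent.K7.H41.AE.Tot

/-!
# Polynomial maps of abelian groups
-/

set_option autoImplicit false

namespace Pool.Agent.K7.H41.AE

open Finset Pool.Agent.K7.H41.BE

section basic

variable {G H : Type} [AddCommGroup G] [AddCommGroup H]

/-- the difference `Δ_h f` -/
def dl (f : G → H) (h : G) : G → H := fun x => f (x + h) - f x

theorem diff_cons (f : G → H) (h : G) (l : List G) (x : G) :
    diff f (h :: l) x = diff (dl f h) l x := by
  induction l generalizing h x with
  | nil => rfl
  | cons k l ih =>
    show (diff f l (x + h + k) - diff f l (x + h)) - (diff f l (x + k) - diff f l x) =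
      diff (dl f h) l (x + k) - diff (dl f h) l x
    have h1 := ih h (x + k)
    have h2 := ih h x
    rw [← h1, ← h2]
    show (diff f l (x + h + k) - diff f l (x + h)) - (diff f l (x + k) - diff f l x) =
      (diff f l (x + k + h) - diff f l (x + k)) - (diff f l (x + h) - diff f l x)
    rw [add_right_comm x h k]
    abel

theorem diff_sub (f g : G → H) (l : List G) (x : G) :
    diff (fun z => f z - g z) l x = diff f l x - diff g l x := by
  induction l generalizing x with
  | nil => rfl
  | cons k l ih =>
    show diff (fun z => f z - g z) l (x + k) - diff (fun z => f z - g z) l x = _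
    rw [ih, ih]
    show _ = (diff f l (x + k) - diff f l x) - (diff g l (x + k) - diff g l x)
    abel

theorem diff_add (f g : G → H) (l : List G) (x : G) :
    diff (fun z => f z + g z) l x = diff f l x + diff g l x := by
  induction l generalizing x with
  | nil => rfl
  | cons k l ih =>
    show diff (fun z => f z + g z) l (x + k) - diff (fun z => f z + g z) l x = _
    rw [ih, ih]
    show _ = (diff f l (x + k) - diff f l x) + (diff g l (x + k) - diff g l x)
    abel

theorem diff_shift (f : G → H) (c : G) (l : List G) (x : G) :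
    diff (fun z => f (z + c)) l x = diff f l (x + c) := by
  induction l generalizing x with
  | nil => rfl
  | cons k l ih =>
    show diff (fun z => f (z + c)) l (x + k) - diff (fun z => f (z + c)) l x = _
    rw [ih, ih]
    show _ = diff f l (x + c + k) - diff f l (x + c)
    rw [add_right_comm x c k]

theorem DegLE.sub {d : ℕ} {f g : G → H} (hf : DegLE d f) (hg : DegLE d g) : DegLE d fun z => f z - g z := by
  intro l hl x
  rw [diff_sub, hf l hl, hg l hl, sub_zero]

theorem DegLE.add {d : ℕ} {f g : G → H} (hf : DegLE d f) (hg : DegLE d g) : DegLE d fun z => f z + g z := by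
  intro l hl x
  rw [diff_add, hf l hl, hg l hl, add_zero]

theorem DegLE.shift {d : ℕ} {f : G → H} (hf : DegLE d f) (c : G) : DegLE d fun z => f (z + c) := by
  intro l hl x
  rw [diff_shift, hf l hl]

theorem DegLE.succ {d : ℕ} {f : G → H} (hf : DegLE d f) : DegLE (d + 1) f := by
  intro l hl x
  cases l with
  | nil => simp at hl
  | cons h l =>
    have hl' : l.length = d + 1 := by simpa using hl
    show diff f l (x + h) - diff f l x = 0
    rw [hf l hl', hf l hl', sub_zero]

theorem DegLE.mono {d e : ℕ} (hde : d ≤ e) {f : G → H} (hf : DegLE d f) : DegLE e f := by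
  induction hde with
  | refl => exact hf
  | step _ ih => exact ih.succ

theorem degLE_succ {d : ℕ} {f : G → H} : DegLE (d + 1) f ↔ ∀ h, DegLE d (dl f h) := by
  constructor
  · intro hf h l hl x
    rw [← diff_cons]
    exact hf (h :: l) (by rw [List.length_cons, hl]) x
  · intro hf l hl x
    cases l with
    | nil => simp at hl
    | cons h l =>
      rw [diff_cons]
      exact hf h l (by simpa using hl) x

theorem degLE_zero {f : G → H} : DegLE 0 f ↔ ∀ x, f x = f 0 := by
  constructor
  · intro hf x
    have h1 : f (0 + x) - f 0 = 0 := hf [x] rfl 0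
    rw [zero_add] at h1
    exact sub_eq_zero.1 h1
  · intro hf l hl x
    obtain ⟨h, rfl⟩ := List.length_eq_one_iff.1 hl
    show f (x + h) - f x = 0
    rw [hf (x + h), hf x, sub_self]

theorem degLE_const {d : ℕ} (c : H) : DegLE d fun _ : G => c :=
  DegLE.mono (Nat.zero_le d) (degLE_zero.2 fun _ => rfl)

/-- a homomorphism has degree one -/
theorem degLE_hom (φ : G →+ H) : DegLE 1 φ := by
  rw [degLE_succ]
  intro h
  refine degLE_zero.2 fun x => ?_
  show φ (x + h) - φ x = φ (0 + h) - φ 0
  rw [map_add, zero_add, map_zero]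
  abel

end basic

section mul

variable {G K : Type} [AddCommGroup G] [CommRing K]

theorem DegLE.mul : ∀ (c a b : ℕ), a + b = c → ∀ f g : G → K, DegLE a f → DegLE b g → DegLE c fun z => f z * g z := by
  intro c
  induction c with
  | zero =>
    intro a b hab f g hf hg
    obtain rfl : a = 0 := by omega
    obtain rfl : b = 0 := by omega
    rw [degLE_zero] at *
    intro x
    show f x * g x = f 0 * g 0
    rw [hf x, hg x]
  | succ c ih =>
    intro a b hab f g hf hg
    rw [degLE_succ]
    intro h
    have e : dl (fun z => f z * g z) h = fun z => dl f h z * g (z + h) + f z * dl g h z := by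
      funext z
      show f (z + h) * g (z + h) - f z * g z = (f (z + h) - f z) * g (z + h) + f z * (g (z + h) - g z)
      ring
    rw [e]
    refine DegLE.add ?_ ?_
    · rcases Nat.eq_zero_or_pos a with ha | ha
      · subst ha
        have h1 : ∀ z, dl f h z = 0 := fun z => by
          show f (z + h) - f z = 0
          rw [degLE_zero.1 hf (z + h), degLE_zero.1 hf z, sub_self]
        have : (fun z => dl f h z * g (z + h)) = fun _ => (0 : K) := by
          funext z
          rw [h1, zero_mul]
        rw [this]
        exact degLE_const 0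
      · obtain ⟨a', rfl⟩ : ∃ a', a = a' + 1 := ⟨a - 1, by omega⟩
        exact ih a' b (by omega) _ _ (degLE_succ.1 hf h) (hg.shift h)
    · rcases Nat.eq_zero_or_pos b with hb | hb
      · subst hb
        have h1 : ∀ z, dl g h z = 0 := fun z => by
          show g (z + h) - g z = 0
          rw [degLE_zero.1 hg (z + h), degLE_zero.1 hg z, sub_self]
        have : (fun z => f z * dl g h z) = fun _ => (0 : K) := by
          funext z
          rw [h1, mul_zero]
        rw [this]
        exact degLE_const 0
      · obtain ⟨b', rfl⟩ : ∃ b', b = b' + 1 := ⟨b - 1, by omega⟩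
        exact ih a b' (by omega) _ _ hf (degLE_succ.1 hg h)

/-- a product of `m` maps of degree one -/
theorem degLE_prod (m : ℕ) (f : ℕ → G → K) (hf : ∀ i, DegLE 1 (f i)) :
    DegLE m fun z => ∏ i ∈ range m, f i z := by
  induction m with
  | zero =>
    simp only [range_zero, prod_empty]
    exact degLE_const 1
  | succ m ih =>
    simp only [prod_range_succ]
    exact DegLE.mul (m + 1) m 1 rfl _ _ ih (hf m)

/-- the polarised product -/
theorem degLE_prod_sub (m : ℕ) (f : ℕ → G → K) (c : ℕ → K) (hf : ∀ i, DegLE 1 (f i)) :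
    DegLE m fun z => (∏ i ∈ range (m + 1), (f i z + c i)) - ∏ i ∈ range (m + 1), f i z := by
  have hf' : ∀ i, DegLE 1 fun z => f i z + c i := fun i => (hf i).add (degLE_const _)
  induction m with
  | zero =>
    simp only [zero_add, prod_range_one, add_sub_cancel_left]
    exact degLE_const _
  | succ m ih =>
    have e : (fun z => (∏ i ∈ range (m + 1 + 1), (f i z + c i)) - ∏ i ∈ range (m + 1 + 1), f i z) =
        fun z => ((∏ i ∈ range (m + 1), (f i z + c i)) - ∏ i ∈ range (m + 1), f i z) * (f (m + 1) z + c (m + 1)) +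
          (∏ i ∈ range (m + 1), f i z) * c (m + 1) := by
      funext z
      rw [prod_range_succ _ (m + 1), prod_range_succ _ (m + 1)]
      ring
    rw [e]
    refine DegLE.add (DegLE.mul (m + 1) m 1 rfl _ _ ih (hf' _)) ?_
    exact DegLE.mul (m + 1) (m + 1) 0 rfl _ _ (degLE_prod (m + 1) f hf) (degLE_const _)

end mul

section primes

variable {G H : Type} [AddCommGroup G] [AddCommGroup H] [Fintype G]

/-- the directions in which the difference has lower degree -/
def lowDir (d : ℕ) (f : G → H) : AddSubgroup G where
  carrier := {h | DegLE d (dl f h)}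
  zero_mem' := by
    show DegLE d (dl f 0)
    have : dl f 0 = fun _ => (0 : H) := by
      funext x
      show f (x + 0) - f x = 0
      rw [add_zero, sub_self]
    rw [this]
    exact degLE_const 0
  add_mem' := by
    intro a b ha hb
    show DegLE d (dl f (a + b))
    have e : dl f (a + b) = fun x => dl f a (x + b) + dl f b x := by
      funext x
      show f (x + (a + b)) - f x = (f (x + b + a) - f (x + b)) + (f (x + b) - f x)
      have : x + (a + b) = x + b + a := by abel
      rw [this]
      abel
    rw [e]
    exact (DegLE.shift ha b).add hb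
  neg_mem' := by
    intro a ha
    show DegLE d (dl f (-a))
    have e : dl f (-a) = fun x => (0 : H) - dl f a (x + -a) := by
      funext x
      show f (x + -a) - f x = 0 - (f (x + -a + a) - f (x + -a))
      rw [neg_add_cancel_right]
      abel
    rw [e]
    exact (degLE_const 0).sub (DegLE.shift ha (-a))

omit [Fintype G] in
theorem mem_lowDir {d : ℕ} {f : G → H} {h : G} : h ∈ lowDir d f ↔ DegLE d (dl f h) := Iff.rfl

open Classical in
/-- a proper subgroup is small -/
theorem proper_card (S : AddSubgroup G) (hS : S ≠ ⊤) (Q : ℝ) (hQ0 : 0 < Q)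
    (hQ : ∀ p : ℕ, p.Prime → p ∣ Fintype.card G → Q ≤ p) :
    ((univ.filter fun h : G => h ∈ S).card : ℝ) ≤ 1 / Q * Fintype.card G := by
  have h1 : Nat.card S * S.index = Nat.card G := S.card_mul_index
  have h2 : S.index ≠ 1 := fun h => hS (AddSubgroup.index_eq_one.1 h)
  have h3 : (univ.filter fun h : G => h ∈ S).card = Nat.card S := by
    rw [Nat.card_eq_fintype_card, ← Fintype.card_subtype]
  have h4 : S.index ≠ 0 := AddSubgroup.index_ne_zero_of_finite
  obtain ⟨p, hp, hpS⟩ := Nat.exists_prime_and_dvd h2
  have h5 : Q ≤ p := hQ p hp (by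
    rw [← Nat.card_eq_fintype_card, ← h1]
    exact hpS.trans (dvd_mul_left _ _))
  have h6 : (p : ℝ) ≤ S.index := by exact_mod_cast Nat.le_of_dvd (Nat.pos_of_ne_zero h4) hpS
  rw [h3, div_mul_eq_mul_div, one_mul, le_div_iff₀ hQ0, ← Nat.card_eq_fintype_card, ← h1]
  push_cast
  exact mul_le_mul_of_nonneg_left (h5.trans h6) (Nat.cast_nonneg _)

/-- **The zeros of the top differences**, groups without small prime factors. -/
theorem zeros_primes (Q : ℝ) (hQ0 : 0 < Q) (hQ : ∀ p : ℕ, p.Prime → p ∣ Fintype.card G → Q ≤ p) :
    open Classical in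
    ∀ (j : ℕ) (f : G → H), DegLE (j + 1) f → ¬ DegLE j f →
      sumT (j + 1) (fun l : List G => if diff f l 0 = 0 then (1 : ℝ) else 0) ≤
        (j + 1 : ℕ) / Q * (Fintype.card G : ℝ) ^ (j + 1) := by
  classical
  intro j
  induction j with
  | zero =>
    intro f hf hnf
    have h1 : lowDir 0 f = ⊤ ∨ lowDir 0 f ≠ ⊤ := em _
    obtain ⟨φ, hφ⟩ : ∃ φ : G →+ H, ∀ x, φ x = f x - f 0 := by
      refine ⟨AddMonoidHom.mk' (fun x => f x - f 0) (fun x y => ?_), fun x => rfl⟩
      have h : (f (0 + x + y) - f (0 + x)) - (f (0 + y) - f 0) = 0 := hf [x, y] rfl 0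
      rw [zero_add, zero_add] at h
      have h1 : f (x + y) - f x = f y - f 0 := sub_eq_zero.1 h
      have h2 : f (x + y) = f y - f 0 + f x := sub_eq_iff_eq_add.1 h1
      rw [h2]
      abel
    have hker : φ.ker ≠ ⊤ := by
      intro ht
      apply hnf
      refine degLE_zero.2 fun x => ?_
      have h2 : x ∈ φ.ker := by
        rw [ht]
        exact AddSubgroup.mem_top x
      have h3 : φ x = 0 := h2
      rw [hφ] at h3
      exact sub_eq_zero.1 h3
    have h2 := proper_card φ.ker hker Q hQ0 hQ
    have e : sumT (0 + 1) (fun l : List G => if diff f l 0 = 0 then (1 : ℝ) else 0) =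
        ((univ.filter fun h : G => h ∈ φ.ker).card : ℝ) := by
      show (∑ h : G, if diff f [h] 0 = 0 then (1 : ℝ) else 0) = _
      rw [sum_boole]
      congr 2
      ext h
      simp only [mem_filter, mem_univ, true_and]
      show f (0 + h) - f 0 = 0 ↔ φ h = 0
      rw [hφ, zero_add]
    rw [e, zero_add, pow_one, Nat.cast_one]
    convert h2
  | succ j ih =>
    intro f hf hnf
    have hS : lowDir j f ≠ ⊤ := by
      intro ht
      apply hnf
      rw [degLE_succ]
      intro h
      have : h ∈ lowDir j f := by
        rw [ht]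
        exact AddSubgroup.mem_top h
      exact this
    have h2 := proper_card (lowDir j f) hS Q hQ0 hQ
    set g : ℝ := (Fintype.card G : ℝ) with hg
    have hg0 : 0 ≤ g := Nat.cast_nonneg _
    have h3 : ∀ h : G, sumT (j + 1) (fun l : List G => if diff f (h :: l) 0 = 0 then (1 : ℝ) else 0) ≤
        (if h ∈ lowDir j f then g ^ (j + 1) else 0) + (j + 1 : ℕ) / Q * g ^ (j + 1) := by
      intro h
      have hnn : 0 ≤ (j + 1 : ℕ) / Q * g ^ (j + 1) := by positivity
      by_cases hh : h ∈ lowDir j f
      · rw [if_pos hh]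
        have h4 : sumT (j + 1) (fun l : List G => if diff f (h :: l) 0 = 0 then (1 : ℝ) else 0) ≤
            sumT (j + 1) (fun _ : List G => (1 : ℝ)) := by
          refine sumT_mono _ _ _ fun l _ => ?_
          split_ifs <;> norm_num
        rw [sumT_const, mul_one] at h4
        linarith
      · rw [if_neg hh, zero_add]
        have h4 := ih (dl f h) (degLE_succ.1 hf h) hh
        refine le_trans (le_of_eq ?_) h4
        congr 1
        funext l
        rw [diff_cons]
    show (∑ h : G, sumT (j + 1) fun l => if diff f (h :: l) 0 = 0 then (1 : ℝ) else 0) ≤ _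
    refine (sum_le_sum fun h _ => h3 h).trans ?_
    rw [sum_add_distrib, sum_const, nsmul_eq_mul, card_univ, ← hg, ← sum_filter, sum_const, nsmul_eq_mul]
    have h4 := mul_le_mul_of_nonneg_right h2 (pow_nonneg hg0 (j + 1))
    refine (add_le_add_left h4 _).trans (le_of_eq ?_)
    push_cast
    rw [pow_succ g (j + 1)]
    ring

end primes

section field

variable {F G H : Type} [Field F] [AddCommGroup G] [AddCommGroup H] [Module F G] [Module F H]

variable (F) in
/-- `f` is a polynomial of degree at most `D` on every line -/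
def LineDeg (D : ℕ) (f : G → H) : Prop :=
  ∀ x v : G, ∃ c : ℕ → H, ∀ t : F, f (x + t • v) = ∑ i ∈ range (D + 1), t ^ i • c i

theorem LineDeg.sub {D : ℕ} {f g : G → H} (hf : LineDeg F D f) (hg : LineDeg F D g) :
    LineDeg F D fun z => f z - g z := by
  intro x v
  obtain ⟨c, hc⟩ := hf x v
  obtain ⟨c', hc'⟩ := hg x v
  refine ⟨fun i => c i - c' i, fun t => ?_⟩
  show f (x + t • v) - g (x + t • v) = _
  rw [hc, hc', ← sum_sub_distrib]
  exact sum_congr rfl fun i _ => (smul_sub _ _ _).symm

theorem lineDeg_diff {D : ℕ} {f : G → H} (hf : LineDeg F D f) : ∀ (L : List (G × G)) (x v : G), ∃ c : ℕ → H,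
    ∀ t : F, diff f (L.map fun p => p.1 + t • p.2) (x + t • v) = ∑ i ∈ range (D + 1), t ^ i • c i := by
  intro L
  induction L with
  | nil => exact hf
  | cons p L ih =>
    intro x v
    obtain ⟨c, hc⟩ := ih (x + p.1) (v + p.2)
    obtain ⟨c', hc'⟩ := ih x v
    refine ⟨fun i => c i - c' i, fun t => ?_⟩
    show diff f (L.map fun p => p.1 + t • p.2) (x + t • v + (p.1 + t • p.2)) -
      diff f (L.map fun p => p.1 + t • p.2) (x + t • v) = _
    have e : x + t • v + (p.1 + t • p.2) = x + p.1 + t • (v + p.2) := by
      rw [smul_add]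
      abel
    rw [e, hc, hc', ← sum_sub_distrib]
    exact sum_congr rfl fun i _ => (smul_sub _ _ _).symm

open Classical in
theorem few_roots [Fintype F] {D : ℕ} (c : ℕ → H) (h0 : c 0 ≠ 0) :
    (univ.filter fun t : F => (∑ i ∈ range (D + 1), t ^ i • c i) = 0).card ≤ D := by
  obtain ⟨ψ, hψ⟩ : ∃ ψ : Module.Dual F H, ψ (c 0) ≠ 0 := by
    by_contra hcon
    push Not at hcon
    exact h0 ((Module.forall_dual_apply_eq_zero_iff F (c 0)).1 hcon)
  set p : Polynomial F := ∑ i ∈ range (D + 1), Polynomial.C (ψ (c i)) * Polynomial.X ^ i with hp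
  have hp0 : p.coeff 0 = ψ (c 0) := by
    rw [hp, Polynomial.finsetSum_coeff, sum_eq_single 0]
    · simp
    · intro i _ hi
      rw [Polynomial.coeff_C_mul, Polynomial.coeff_X_pow, if_neg (Ne.symm hi), mul_zero]
    · intro h
      exact absurd (mem_range.2 (Nat.succ_pos D)) h
  have hpne : p ≠ 0 := by
    intro h
    apply hψ
    rw [← hp0, h, Polynomial.coeff_zero]
  have hdeg : p.natDegree ≤ D := by
    rw [hp]
    refine Polynomial.natDegree_sum_le_of_forall_le _ _ fun i hi => ?_
    refine (Polynomial.natDegree_C_mul_X_pow_le _ _).trans ?_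
    have := mem_range.1 hi
    omega
  refine le_trans (card_le_card (t := p.roots.toFinset) ?_) ((Multiset.toFinset_card_le _).trans
    ((Polynomial.card_roots' p).trans hdeg))
  intro t ht
  rw [Multiset.mem_toFinset, Polynomial.mem_roots hpne, Polynomial.IsRoot.def, hp, Polynomial.eval_finsetSum]
  have h1 := congrArg ψ (mem_filter.1 ht).2
  rw [map_sum, map_zero] at h1
  rw [← h1]
  refine sum_congr rfl fun i _ => ?_
  rw [Polynomial.eval_mul, Polynomial.eval_C, Polynomial.eval_pow, Polynomial.eval_X, map_smul, smul_eq_mul, mul_comm]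

open Classical in
/-- **The zeros of a map which is a polynomial on the lines.** -/
theorem line_zeros [Fintype F] {W : Type} [AddCommGroup W] [Module F W] [Fintype W] {D : ℕ} (φ : W → H)
    (hφ : LineDeg F D φ) (w0 : W) (hw0 : φ w0 ≠ 0) :
    (Fintype.card F - 1) * (univ.filter fun w => φ w = 0).card ≤ D * Fintype.card W := by
  have h1 : ∀ t : F, t ≠ 0 → (univ.filter fun w => φ (w0 + t • w) = 0).card =
      (univ.filter fun w => φ w = 0).card := by
    intro t ht
    refine card_bij' (fun w _ => w0 + t • w) (fun w _ => t⁻¹ • (w - w0)) ?_ ?_ ?_ ?_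
    · intro w hw
      exact mem_filter.2 ⟨mem_univ _, (mem_filter.1 hw).2⟩
    · intro w hw
      refine mem_filter.2 ⟨mem_univ _, ?_⟩
      rw [smul_inv_smul₀ ht, add_sub_cancel]
      exact (mem_filter.1 hw).2
    · intro w _
      rw [add_sub_cancel_left, inv_smul_smul₀ ht]
    · intro w _
      rw [smul_inv_smul₀ ht, add_sub_cancel]
  have h2 : ∀ w : W, ((univ.filter fun t : F => t ≠ 0 ∧ φ (w0 + t • w) = 0)).card ≤ D := by
    intro w
    obtain ⟨c, hc⟩ := hφ w0 w
    have h0 : c 0 ≠ 0 := by
      have := hc 0
      rw [zero_smul, add_zero, sum_eq_single 0] at this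
      · rw [pow_zero, one_smul] at this
        rwa [← this]
      · intro i _ hi
        rw [zero_pow hi, zero_smul]
      · intro h
        exact absurd (mem_range.2 (Nat.succ_pos D)) h
    refine le_trans (card_le_card ?_) (few_roots (F := F) (D := D) c h0)
    intro t ht
    refine mem_filter.2 ⟨mem_univ _, ?_⟩
    rw [← hc]
    exact (mem_filter.1 ht).2.2
  calc (Fintype.card F - 1) * (univ.filter fun w => φ w = 0).card =
        ∑ t ∈ (univ : Finset F).filter (· ≠ 0), (univ.filter fun w => φ (w0 + t • w) = 0).card := by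
          rw [sum_congr rfl fun t ht => h1 t (mem_filter.1 ht).2, sum_const, smul_eq_mul, filter_ne' univ (0 : F),
            card_erase_of_mem (mem_univ _), card_univ]
    _ = ∑ w : W, ((univ.filter fun t : F => t ≠ 0 ∧ φ (w0 + t • w) = 0)).card := by
          simp only [card_filter]
          rw [sum_comm]
          refine sum_congr rfl fun w _ => ?_
          rw [sum_filter]
          refine sum_congr rfl fun t _ => ?_
          by_cases ht : t = 0
          · simp [ht]
          · simp [ht]
    _ ≤ ∑ _w : W, D := sum_le_sum fun w _ => h2 w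
    _ = D * Fintype.card W := by
          rw [sum_const, smul_eq_mul, card_univ, mul_comm]

open Classical in
/-- **The zeros of the top differences**, vector spaces over large fields. -/
theorem zeros_field [Fintype F] [Fintype G] {D : ℕ} (j : ℕ) (f : G → H) (hL : LineDeg F D f)
    (hf : DegLE (j + 1) f) (hnf : ¬ DegLE j f) :
    ((Fintype.card F : ℝ) - 1) * sumT (j + 1) (fun l : List G => if diff f l 0 = 0 then (1 : ℝ) else 0) ≤
      D * (Fintype.card G : ℝ) ^ (j + 1) := by
  unfold DegLE at hnf
  push Not at hnf
  obtain ⟨l, hl, x, hx⟩ := hnf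
  obtain ⟨w0, rfl⟩ : ∃ w : Fin (j + 1) → G, List.ofFn w = l := by
    rw [← hl]
    exact ⟨l.get, List.ofFn_get l⟩
  rw [diff_const hf _ hl] at hx
  have hφ : LineDeg F D fun w : Fin (j + 1) → G => diff f (List.ofFn w) 0 := by
    intro w v
    obtain ⟨c, hc⟩ := lineDeg_diff hL (List.ofFn fun i => (w i, v i)) 0 0
    refine ⟨c, fun t => ?_⟩
    have h1 := hc t
    rw [smul_zero, add_zero, List.map_ofFn] at h1
    exact h1
  have h1 := line_zeros (F := F) (fun w : Fin (j + 1) → G => diff f (List.ofFn w) 0) hφ w0 hx
  rw [Fintype.card_fun, Fintype.card_fin] at h1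
  have h2 : sumT (j + 1) (fun l : List G => if diff f l 0 = 0 then (1 : ℝ) else 0) =
      ((univ.filter fun w : Fin (j + 1) → G => diff f (List.ofFn w) 0 = 0).card : ℝ) := by
    rw [sumT_eq, sum_boole]
  rw [h2]
  have h3 : 1 ≤ Fintype.card F := Fintype.card_pos
  have h4 : ((Fintype.card F - 1 : ℕ) : ℝ) = (Fintype.card F : ℝ) - 1 := by
    rw [Nat.cast_sub h3, Nat.cast_one]
  rw [← h4]
  exact_mod_cast h1

end field

end Pool.Agent.K7.H41.AE
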