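import Pool.Agent.K7.H41.AE.Tot

/-!
# Equations of bounded degree in one variable
-/

set_option autoImplicit false

namespace Pool.Agent.K7.H41.AE

open Finset Pool.Agent.K7.H41.BE

section rel

variable {G Y H : Type} [AddCommGroup G] [AddCommGroup H] [Fintype G]

open Classical in
/-- **The bound for a relation.** -/
theorem rel_bound {k s d : ℕ} (hd : 1 ≤ d) (f : Y → G → H) (u : G → H) (v : Y → H) (R : G → Y → Prop)
    (hR : ∀ x y, R x y → f y x = u x + v y) (T : Finset Y) (hf : ∀ y, DegLE d (f y))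
    (hfree : KFree (2 ^ d * (k + 1)) s R univ T) (M : List G → ℝ)
    (hM : ∀ l : List G, l.length = d → ∀ c : H, ((T.filter fun y => diff (f y) l 0 = c).card : ℝ) ≤ M l)
    (τ : ℝ) (hτ : 0 < τ) :
    tot T d R ≤ ((k : ℝ) + 1 + d) * 4 ^ d * (Fintype.card G : ℝ) ^ d * T.card +
      τ * Fintype.card G * sumT d M + s * (Fintype.card G : ℝ) ^ (d + 1) / τ ^ k := by
  set g : ℝ := (Fintype.card G : ℝ) with hg
  set t : ℝ := (T.card : ℝ) with ht
  have hg0 : 0 ≤ g := Nat.cast_nonneg _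
  have ht0 : 0 ≤ t := Nat.cast_nonneg _
  have h1 : ∀ l : List G, l.length = d → cnt (cube R l) univ T ≤
      ((4 ^ d * (k + 1) * t + s * g / τ ^ k) + τ * g * M l) + g * t * (if Nondeg l then 0 else 1) := by
    intro l hl
    have hM0 : 0 ≤ M l := le_trans (Nat.cast_nonneg _) (hM l hl 0)
    by_cases hn : Nondeg l
    · rw [if_pos hn, mul_zero, add_zero]
      obtain ⟨h, l', rfl⟩ : ∃ h l', l = h :: l' := by
        cases l with
        | nil =>
          rw [List.length_nil] at hl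
          omega
        | cons h l' => exact ⟨h, l', rfl⟩
      have h2 := cube_count (k := k) (s := s) (h :: l') hn R T (by rw [hl]; exact hfree)
        (fun x => diff u (h :: l') x) (fun y => diff (f y) (h :: l') 0) (by
        intro x y hc
        have e1 := cube_diff hR h l' x y hc
        rw [diff_const (hf y) (h :: l') hl x] at e1
        exact e1.symm) τ hτ
      have h3 : ((∑ y ∈ T, (univ.filter fun x => diff u (h :: l') x = diff (f y) (h :: l') 0).card : ℕ) : ℝ) ≤
          g * M (h :: l') := by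
        have e2 : (∑ y ∈ T, (univ.filter fun x => diff u (h :: l') x = diff (f y) (h :: l') 0).card) =
            ∑ x : G, (T.filter fun y => diff (f y) (h :: l') 0 = diff u (h :: l') x).card := by
          simp only [card_filter]
          rw [sum_comm]
          refine sum_congr rfl fun x _ => sum_congr rfl fun y _ => ?_
          simp only [eq_comm]
        rw [e2]
        push_cast
        calc (∑ x : G, ((T.filter fun y => diff (f y) (h :: l') 0 = diff u (h :: l') x).card : ℝ)) ≤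
              ∑ _x : G, M (h :: l') := sum_le_sum fun x _ => hM _ hl _
          _ = _ := by rw [sum_const, nsmul_eq_mul, card_univ]
      have h4 := mul_le_mul_of_nonneg_left h3 hτ.le
      rw [hl] at h2
      refine h2.trans ?_
      have e : τ * (g * M (h :: l')) = τ * g * M (h :: l') := by ring
      rw [e] at h4
      linarith
    · rw [if_neg hn, mul_one]
      have h2 : cnt (cube R l) univ T ≤ g * t := by
        unfold cnt
        push_cast
        calc (∑ y ∈ T, ((univ.filter fun x => cube R l x y).card : ℝ)) ≤ ∑ _y ∈ T, g :=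
              sum_le_sum fun y _ => by
                rw [hg]
                exact_mod_cast card_le_univ _
          _ = g * t := by rw [sum_const, nsmul_eq_mul, mul_comm]
      have h3 : 0 ≤ 4 ^ d * ((k : ℝ) + 1) * t + s * g / τ ^ k := by positivity
      have h4 : 0 ≤ τ * g * M l := by positivity
      linarith
  rw [tot_eq]
  refine (sumT_mono d _ _ h1).trans ?_
  rw [sumT_add, sumT_add, sumT_const, sumT_mul, sumT_mul]
  have h2 := degenerate_few (G := G) d
  have h3 := mul_le_mul_of_nonneg_right h2 ht0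
  have h4 : g * t * sumT d (fun l : List G => if Nondeg l then (0 : ℝ) else 1) =
      g * sumT d (fun l : List G => if Nondeg l then (0 : ℝ) else 1) * t := by ring
  rw [h4]
  have h5 : g ^ d * (4 ^ d * ((k : ℝ) + 1) * t + s * g / τ ^ k) =
      (k + 1) * 4 ^ d * g ^ d * t + s * g ^ (d + 1) / τ ^ k := by
    rw [pow_succ]
    ring
  have h6 : ((k : ℝ) + 1 + d) * 4 ^ d * g ^ d * t = (k + 1) * 4 ^ d * g ^ d * t + d * 4 ^ d * g ^ d * t := by
    ring
  rw [h5, h6]
  linarith

end rel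

/-- the computation with one real number -/
theorem real_D (k : ℕ) (A s D ζ n : ℝ) (hA : 0 ≤ A) (hs : 0 ≤ s) (hD : 0 < D) (hn : 0 < n) (hζ : 1 / n ≤ ζ)
    (h : ∀ τ : ℝ, 0 < τ → D ≤ A / n + τ * ζ + s / (n * τ ^ k)) :
    D ^ (k + 1) ≤ (4 * s * 2 ^ k + (4 * A) ^ (k + 1)) * (ζ ^ k / n) := by
  have hζ0 : 0 < ζ := lt_of_lt_of_le (by positivity) hζ
  have h1 := h (D / (2 * ζ)) (by positivity)
  have h2 : D / (2 * ζ) * ζ = D / 2 := by
    field_simp
  have h3 : s / (n * (D / (2 * ζ)) ^ k) = s * (2 * ζ) ^ k / (n * D ^ k) := by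
    rw [div_pow]
    field_simp
  rw [h2, h3] at h1
  rcases le_total (A / n) (D / 4) with hc | hc
  · have h4 : D / 4 ≤ s * (2 * ζ) ^ k / (n * D ^ k) := by linarith
    rw [le_div_iff₀ (by positivity)] at h4
    have h5 : D ^ (k + 1) ≤ 4 * s * 2 ^ k * (ζ ^ k / n) := by
      rw [mul_div_assoc', le_div_iff₀ hn]
      calc D ^ (k + 1) * n = 4 * (D / 4 * (n * D ^ k)) := by ring
        _ ≤ 4 * (s * (2 * ζ) ^ k) := by linarith
        _ = 4 * s * 2 ^ k * ζ ^ k := by rw [mul_pow]; ring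
    have h6 : 0 ≤ (4 * A) ^ (k + 1) * (ζ ^ k / n) := by positivity
    rw [add_mul]
    linarith
  · have h4 : D ≤ 4 * A * (1 / n) := by
      have : 4 * A * (1 / n) = 4 * (A / n) := by ring
      rw [this]
      linarith
    have h5 : D ^ (k + 1) ≤ (4 * A) ^ (k + 1) * (ζ ^ k / n) := by
      calc D ^ (k + 1) ≤ (4 * A * (1 / n)) ^ (k + 1) := pow_le_pow_left₀ hD.le h4 _
        _ = (4 * A) ^ (k + 1) * ((1 / n) ^ k / n) := by
            rw [mul_pow, pow_succ (1 / n)]
            ring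
        _ ≤ (4 * A) ^ (k + 1) * (ζ ^ k / n) := by
            gcongr
    have h6 : 0 ≤ 4 * s * 2 ^ k * (ζ ^ k / n) := by positivity
    rw [add_mul]
    linarith

/-- the computation with real numbers -/
theorem real_deg (d k : ℕ) (A s C n g e ζ Θ : ℝ) (hA : 0 ≤ A) (hs : 0 ≤ s) (hC : 1 ≤ C) (hn : 1 ≤ n) (hng : n ≤ g)
    (hgC : g ≤ C * n) (he : 0 ≤ e) (hζ : 1 / n ≤ ζ)
    (hcs : e ^ 2 ^ d * g ^ (d + 1) * n ≤ (g * n) ^ 2 ^ d * Θ)
    (h : ∀ τ : ℝ, 0 < τ → Θ ≤ A * g ^ d * n + τ * g * (ζ * n * g ^ d) + s * g ^ (d + 1) / τ ^ k) :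
    e ^ (2 ^ d * (k + 1)) ≤ C ^ (2 ^ d * (k + 1)) * (4 * s * 2 ^ k + (4 * A) ^ (k + 1)) *
      (n ^ (2 * (2 ^ d * (k + 1))) * (ζ ^ k / n)) := by
  have hn0 : 0 < n := by linarith
  have hg0 : 0 < g := by linarith
  have hC0 : 0 < C := by linarith
  have hζ0 : 0 < ζ := lt_of_lt_of_le (by positivity) hζ
  have hP : 2 ^ d * (k + 1) ≠ 0 := by positivity
  rcases he.eq_or_lt with he0 | he0
  · rw [← he0, zero_pow hP]
    positivity
  set D : ℝ := (e / (g * n)) ^ 2 ^ d with hD
  have hD0 : 0 < D := by positivity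
  have h1 : ∀ τ : ℝ, 0 < τ → D ≤ A / n + τ * ζ + s / (n * τ ^ k) := by
    intro τ hτ
    have h2 := h τ hτ
    have h3 : D * (g ^ (d + 1) * n) ≤ Θ := by
      rw [hD, div_pow, div_mul_eq_mul_div, div_le_iff₀ (by positivity)]
      calc e ^ 2 ^ d * (g ^ (d + 1) * n) = e ^ 2 ^ d * g ^ (d + 1) * n := by ring
        _ ≤ _ := hcs
        _ = _ := mul_comm _ _
    have h4 : D ≤ (A * g ^ d * n + τ * g * (ζ * n * g ^ d) + s * g ^ (d + 1) / τ ^ k) / (g ^ (d + 1) * n) := by
      rw [le_div_iff₀ (by positivity)]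
      exact h3.trans h2
    refine h4.trans ?_
    have h5 : (A * g ^ d * n + τ * g * (ζ * n * g ^ d) + s * g ^ (d + 1) / τ ^ k) / (g ^ (d + 1) * n) =
        A / g + τ * ζ + s / (n * τ ^ k) := by
      rw [pow_succ]
      field_simp
    rw [h5]
    have h6 : A / g ≤ A / n := div_le_div_of_nonneg_left hA hn0 hng
    linarith
  have h2 := real_D k A s D ζ n hA hs hD0 hn0 hζ h1
  have h3 : e = e / (g * n) * (g * n) := by
    field_simp
  have h4 : e ^ (2 ^ d * (k + 1)) = D ^ (k + 1) * (g * n) ^ (2 ^ d * (k + 1)) := by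
    rw [hD, ← pow_mul, ← mul_pow, ← h3]
  rw [h4]
  have h5 : (g * n) ^ (2 ^ d * (k + 1)) ≤ C ^ (2 ^ d * (k + 1)) * n ^ (2 * (2 ^ d * (k + 1))) := by
    rw [pow_mul n 2, ← mul_pow]
    refine pow_le_pow_left₀ (by positivity) ?_ _
    calc g * n ≤ (C * n) * n := mul_le_mul_of_nonneg_right hgC hn0.le
      _ = _ := by ring
  calc D ^ (k + 1) * (g * n) ^ (2 ^ d * (k + 1)) ≤
        ((4 * s * 2 ^ k + (4 * A) ^ (k + 1)) * (ζ ^ k / n)) *
          (C ^ (2 ^ d * (k + 1)) * n ^ (2 * (2 ^ d * (k + 1)))) :=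
        mul_le_mul h2 h5 (by positivity) (by positivity)
    _ = _ := by ring

end Pool.Agent.K7.H41.AE
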