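import Pool.Agent.K7.H41.AE.Rel
import Pool.Agent.K7.H41.BE.Restrict

/-!
# Graphs defined by affine equations have few edges
-/

set_option autoImplicit false

namespace Pool.Agent.K7.H41.AE

open Finset Pool.Agent.K7.H41.BE

open Classical in
/-- **The vertices with many collisions.** -/
theorem struct_small (r s : ℕ) (hr : 1 ≤ r) (κ : ℝ) (hκ : 0 < κ) (hκ1 : κ ≤ 1) (ε : ℝ) (hε : 0 < ε) :
    ∃ ν₀ : ℝ, ∀ (G Y H : Type) [AddCommGroup G] [AddCommGroup H] [Fintype G]
      (L : Y → G →+ H) (u : G → H) (v : Y → H) (T : Finset Y) (n ν : ℝ), (Fintype.card G : ℝ) ≤ n →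
      (T.card : ℝ) ≤ n → ν₀ ≤ ν → ν ^ (r + 1) = n → KFree (r + 1) s (RelA L u v) univ T →
      (∀ y ∈ T, κ * n ^ 2 ≤ coll L u y) → cnt (RelA L u v) univ T ≤ ε * (n ^ 2 / ν) := by
  set M : ℕ := ⌊2 / κ ^ 2⌋₊ with hM
  obtain ⟨ν₀, hν₀⟩ := small_relA r s M hr (ε * κ / 2) (by positivity)
  refine ⟨max 1 ν₀, ?_⟩
  intro G Y H _ _ _ L u v T n ν hG hTn hν hνn hfree hcoll
  have hν1 : 1 ≤ ν := (le_max_left _ _).trans hν
  have hν2 : ν₀ ≤ ν := (le_max_right _ _).trans hν
  have hn0 : 0 < n := by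
    rw [← hνn]
    positivity
  choose! A hA1 hA2 using fun y hy => exists_fibre L u y κ n hκ hn0 hG (hcoll y hy)
  obtain ⟨F, hFT, hFi, hFm⟩ := exists_max_pairwise
    (fun y y' => ((sz (L y - L y').ker : ℕ) : ℝ) ≤ κ ^ 2 / 2 * n) (by
      intro a b h
      have h1 : sz (L b - L a).ker ≤ sz (L a - L b).ker := by
        refine sz_mono fun x hx => ?_
        have h2 : L b x - L a x = 0 := hx
        show L a x - L b x = 0
        rw [← neg_sub, h2, neg_zero]
      exact le_trans (by exact_mod_cast h1) h) T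
  have hFc : (F.card : ℝ) ≤ 2 / κ := by
    refine few_sets F A κ n hκ hn0 hG (fun y hy => hA1 y (hFT hy)) ?_
    intro y hy y' hy' hne
    refine le_trans ?_ (hFi y hy y' hy' hne)
    exact_mod_cast fibres_inter L u y y' (A y) (A y') (hA2 y (hFT hy)) (hA2 y' (hFT hy'))
  have hφ : ∀ y ∈ T, ∃ f ∈ F, κ ^ 2 / 2 * n ≤ ((sz (L y - L f).ker : ℕ) : ℝ) := by
    intro y hy
    by_cases hyF : y ∈ F
    · refine ⟨y, hyF, ?_⟩
      have h1 : (A y).card ≤ sz (L y - L y).ker := by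
        have := fibres_inter L u y y (A y) (A y) (hA2 y hy) (hA2 y hy)
        rwa [inter_self] at this
      have h2 : κ ^ 2 / 2 * n ≤ κ * n := by
        refine mul_le_mul_of_nonneg_right ?_ hn0.le
        nlinarith
      exact h2.trans ((hA1 y hy).trans (by exact_mod_cast h1))
    · obtain ⟨f, hf, h⟩ := hFm y hy hyF
      exact ⟨f, hf, (not_le.1 h).le⟩
  choose! φ hφF hφk using hφ
  rw [cnt_fiberwise (RelA L u v) univ T F φ hφF]
  have hcl : ∀ f ∈ F, cnt (RelA L u v) univ (T.filter fun y => φ y = f) ≤ ε * κ / 2 * (n ^ 2 / ν) := by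
    intro f _
    have hrel : ∀ (x : G) (y : Y), RelA L u v x y ↔
        RelA (fun y => L y - L f) (fun x => u x - L f x) v x y := by
      intro x y
      unfold RelA
      show L y x = u x + v y ↔ L y x - L f x = u x - L f x + v y
      constructor
      · intro e
        rw [e]
        abel
      · intro e
        have h1 : L y x = u x - L f x + v y + L f x := sub_eq_iff_eq_add.1 e
        rw [h1]
        abel
    rw [cnt_congr hrel]
    refine hν₀ G Y H n ν hν2 hνn hG (fun y => L y - L f) _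
      (le_trans (by exact_mod_cast card_le_card (filter_subset _ _)) hTn) ?_ _ v ?_
    · intro y hy
      obtain ⟨hy1, hy2⟩ := mem_filter.1 hy
      have h1 := hφk y hy1
      rw [hy2] at h1
      have h2 := img_mul_ker (L y - L f) ⊤
      rw [top_inf_eq, sz_top] at h2
      have h3 : (((img (L y - L f) ⊤).card : ℕ) : ℝ) * (κ ^ 2 / 2 * n) ≤ n := by
        calc (((img (L y - L f) ⊤).card : ℕ) : ℝ) * (κ ^ 2 / 2 * n) ≤
              (((img (L y - L f) ⊤).card : ℕ) : ℝ) * ((sz (L y - L f).ker : ℕ) : ℝ) :=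
                mul_le_mul_of_nonneg_left h1 (Nat.cast_nonneg _)
          _ = Fintype.card G := by exact_mod_cast h2
          _ ≤ n := hG
      show (img (L y - L f) ⊤).card ≤ M
      rw [hM]
      refine Nat.le_floor ?_
      rw [le_div_iff₀ (by positivity)]
      have h4 : (((img (L y - L f) ⊤).card : ℕ) : ℝ) * (κ ^ 2 / 2) ≤ 1 := by
        refine le_of_mul_le_mul_right ?_ hn0
        rw [one_mul, mul_assoc]
        exact h3
      linarith
    · intro A' hA' Z hZ hc hR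
      exact hfree A' hA' Z (hZ.trans (filter_subset _ _)) hc fun x hx y hy => (hrel x y).2 (hR x hx y hy)
  refine (sum_le_sum hcl).trans ?_
  rw [sum_const, nsmul_eq_mul]
  have hν0 : 0 < ν := by linarith
  calc (F.card : ℝ) * (ε * κ / 2 * (n ^ 2 / ν)) ≤ 2 / κ * (ε * κ / 2 * (n ^ 2 / ν)) :=
        mul_le_mul_of_nonneg_right hFc (by positivity)
    _ = ε * (n ^ 2 / ν) := by
        field_simp

theorem cnt_eq_dg {G Y : Type} [Fintype G] (R : G → Y → Prop) (T : Finset Y) :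
    cnt R univ T = ∑ y ∈ T, dg R y := by
  unfold cnt dg nb
  push_cast
  rfl

/-- **The theorem for relations on the whole group.** -/
theorem few_univ (r s : ℕ) (hr : 4 ≤ r) (c : ℝ) (hc : 0 < c) : ∃ ν₀ : ℝ,
    ∀ (G Y H : Type) [AddCommGroup G] [AddCommGroup H] [Fintype G]
      (L : Y → G →+ H) (u : G → H) (v : Y → H) (T : Finset Y) (n ν : ℝ), (Fintype.card G : ℝ) ≤ n →
      (T.card : ℝ) ≤ n → ν₀ ≤ ν → ν ^ r = n → KFree r s (RelA L u v) univ T →
      cnt (RelA L u v) univ T < c * (n ^ 2 / ν) := by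
  classical
  obtain ⟨c₁, hc₁, ν₁, hν₁⟩ : ∃ c₁ : ℝ, 0 < c₁ ∧ ∃ ν₀ : ℝ,
      ∀ (G Y H : Type) [AddCommGroup G] [AddCommGroup H] [Fintype G]
        (L : Y → G →+ H) (u : G → H) (v : Y → H) (T : Finset Y) (n ν : ℝ), (Fintype.card G : ℝ) ≤ n →
        (T.card : ℝ) ≤ n → ν₀ ≤ ν → ν ^ r = n → KFree r s (RelA L u v) univ T →
        c / 2 * n ^ 2 / ν ≤ ∑ y ∈ T, dg (RelA L u v) y → c₁ * n ^ 3 ≤ ((∑ y ∈ T, coll L u y : ℕ) : ℝ) := by
    rcases Nat.even_or_odd' r with ⟨j, hj | hj⟩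
    · obtain ⟨k, rfl⟩ : ∃ k, j = k + 1 := ⟨j - 1, by omega⟩
      subst hj
      exact coll_even k s (by omega) (c / 2) (by positivity)
    · obtain ⟨k, rfl⟩ : ∃ k, j = k + 1 := ⟨j - 1, by omega⟩
      subst hj
      exact coll_odd k s (by omega) (c / 2) (by positivity)
  obtain ⟨q, rfl⟩ : ∃ q, r = q + 1 := ⟨r - 1, by omega⟩
  obtain ⟨κ, hκ0, hκ1, hκc⟩ : ∃ κ : ℝ, 0 < κ ∧ κ ≤ 1 ∧ κ < c₁ :=
    ⟨min 1 (c₁ / 2), by positivity, min_le_left _ _, by
      have := min_le_right 1 (c₁ / 2)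
      linarith⟩
  obtain ⟨ν₂, hν₂⟩ := struct_small q s (by omega) κ hκ0 hκ1 (c / 4) (by positivity)
  refine ⟨max 1 (max ν₁ ν₂), ?_⟩
  intro G Y H _ _ _ L u v T n ν hn hn' hν hνn hfree
  have hν1 : 1 ≤ ν := (le_max_left _ _).trans hν
  have hν0 : 0 < ν := by linarith
  have hn0 : 0 < n := by
    rw [← hνn]
    positivity
  set T₁ := T.filter fun y => κ * n ^ 2 ≤ coll L u y with hT₁
  set T₂ := T.filter fun y => ¬ κ * n ^ 2 ≤ coll L u y with hT₂
  have hT₁n : (T₁.card : ℝ) ≤ n := le_trans (by exact_mod_cast card_le_card (filter_subset _ _)) hn'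
  have hT₂n : (T₂.card : ℝ) ≤ n := le_trans (by exact_mod_cast card_le_card (filter_subset _ _)) hn'
  have h1 := hν₂ G Y H L u v T₁ n ν hn hT₁n ((le_max_right _ _).trans ((le_max_right _ _).trans hν)) hνn
    (hfree.mono (Finset.Subset.refl _) (filter_subset _ _)) (fun y hy => (mem_filter.1 hy).2)
  have h2 : (∑ y ∈ T₂, dg (RelA L u v) y) < c / 2 * n ^ 2 / ν := by
    by_contra hcon
    push Not at hcon
    have h3 := hν₁ G Y H L u v T₂ n ν hn hT₂n ((le_max_left _ _).trans ((le_max_right _ _).trans hν)) hνn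
      (hfree.mono (Finset.Subset.refl _) (filter_subset _ _)) hcon
    have h4 : ((∑ y ∈ T₂, coll L u y : ℕ) : ℝ) ≤ κ * n ^ 3 := by
      push_cast
      calc (∑ y ∈ T₂, (coll L u y : ℝ)) ≤ ∑ _y ∈ T₂, κ * n ^ 2 :=
            sum_le_sum fun y hy => (not_le.1 (mem_filter.1 hy).2).le
        _ = T₂.card * (κ * n ^ 2) := by rw [sum_const, nsmul_eq_mul]
        _ ≤ n * (κ * n ^ 2) := mul_le_mul_of_nonneg_right hT₂n (by positivity)
        _ = _ := by ring
    have h5 : κ * n ^ 3 < c₁ * n ^ 3 := mul_lt_mul_of_pos_right hκc (by positivity)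
    linarith
  have h3 : cnt (RelA L u v) univ T = cnt (RelA L u v) univ T₁ + ∑ y ∈ T₂, dg (RelA L u v) y := by
    rw [cnt_eq_dg, cnt_eq_dg]
    exact (sum_filter_add_sum_filter_not _ _ _).symm
  rw [h3]
  have h4 : c / 2 * n ^ 2 / ν = c / 2 * (n ^ 2 / ν) := by ring
  have h5 : 0 < c * (n ^ 2 / ν) := by positivity
  rw [h4] at h2
  linarith

section lift

variable {G Y H : Type} [AddCommGroup G] [AddCommGroup H]

/-- the maps with values in `H × ℤ` -/
def liftL (L : Y → G →+ H) (y : Y) : G →+ H × ℤ := (AddMonoidHom.inl H ℤ).comp (L y)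

theorem liftL_apply (L : Y → G →+ H) (y : Y) (x : G) : liftL L y x = (L y x, 0) := rfl

theorem relA_lift (L : Y → G →+ H) (u : G → H) (v : Y → H) (S : Finset G) (x : G) (y : Y) :
    RelA (liftL L) (liftU S u) (fun y => ((v y, 0) : H × ℤ)) x y ↔ x ∈ S ∧ RelA L u v x y := by
  unfold RelA
  rw [liftL_apply]
  unfold liftU
  by_cases hx : x ∈ S
  · rw [if_pos hx]
    simp [hx]
  · rw [if_neg hx]
    simp [hx]

theorem cntA_lift [Fintype G] (L : Y → G →+ H) (u : G → H) (v : Y → H) (S : Finset G) (T : Finset Y) :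
    cnt (RelA (liftL L) (liftU S u) (fun y => ((v y, 0) : H × ℤ))) univ T = cnt (RelA L u v) S T := by
  classical
  unfold cnt
  congr 1
  refine sum_congr rfl fun y _ => ?_
  congr 1
  ext x
  rw [mem_filter, mem_filter, relA_lift]
  simp

theorem KFreeA_lift {r s : ℕ} (hr : 1 ≤ r) [Fintype G] (L : Y → G →+ H) (u : G → H)
    (v : Y → H) (S : Finset G) (T : Finset Y) (h : KFree r s (RelA L u v) S T) :
    KFree r s (RelA (liftL L) (liftU S u) (fun y => ((v y, 0) : H × ℤ))) univ T := by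
  intro A _ Z hZ hc hR
  rcases Z.eq_empty_or_nonempty with rfl | ⟨y0, hy0⟩
  · simp
  refine h A ?_ Z hZ hc ?_
  · intro x hx
    exact ((relA_lift L u v S x y0).1 (hR x hx y0 hy0)).1
  · intro x hx y hy
    exact ((relA_lift L u v S x y).1 (hR x hx y hy)).2

end lift

/-- **Affine equations on subsets.** -/
theorem few_cntA (r s : ℕ) (hr : 4 ≤ r) (c : ℝ) (hc : 0 < c) : ∃ ν₀ : ℝ,
    ∀ (G Y H : Type) [AddCommGroup G] [AddCommGroup H] [Fintype G]
      (L : Y → G →+ H) (u : G → H) (v : Y → H) (n ν : ℝ) (S : Finset G) (T : Finset Y),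
      (Fintype.card G : ℝ) ≤ n → (T.card : ℝ) ≤ n → ν₀ ≤ ν → ν ^ r = n →
      KFree r s (RelA L u v) S T → cnt (RelA L u v) S T < c * (n ^ 2 / ν) := by
  obtain ⟨ν₀, hν₀⟩ := few_univ r s hr c hc
  refine ⟨ν₀, ?_⟩
  intro G Y H _ _ _ L u v n ν S T hn hn' hν hνn hfree
  rw [← cntA_lift]
  exact hν₀ G Y (H × ℤ) (liftL L) (liftU S u) _ T n ν hn hn' hν hνn
    (KFreeA_lift (by omega) L u v S T hfree)

end Pool.Agent.K7.H41.AE
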