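import Pool.Agent.K7.H41.AE.FinalA
import Pool.Agent.K7.H41.AE.Degree
import Pool.Agent.K7.H41.BE.Example

/-!
# Graphs defined by equations of low degree in one of the two vertices
-/

set_option autoImplicit false

namespace Pool.Agent.K7.H41.AE

open Finset Pool.Agent.K7.H41.BE

/-- An equation `f_y (a x) = u x` for two vertices `x`, `y`: the vertices are mapped injectively to a finite
abelian group `G`, the `f_y` are maps from `G` to an abelian group `H`, one for each vertex, and `u` is an arbitrary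
function. In other words, the point `(a x, u x)` lies on the graph of `f_y`. -/
structure Eqn (V : Type) where
  /-- the group -/
  G : Type
  /-- the group of the values -/
  H : Type
  [instG : AddCommGroup G]
  [instF : Fintype G]
  [instH : AddCommGroup H]
  /-- the embedding of the vertices -/
  a : V → G
  inj : Function.Injective a
  /-- the maps -/
  f : V → G → H
  /-- the function -/
  u : V → H

attribute [instance] Eqn.instG Eqn.instF Eqn.instH

namespace Eqn

variable {V : Type}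

/-- `x` and `y` satisfy the equation -/
def Holds (E : Eqn V) (x y : V) : Prop := E.f y (E.a x) = E.u x

/-- the group has at most `t` elements -/
def SizeLE (E : Eqn V) (t : ℝ) : Prop := (Fintype.card E.G : ℝ) ≤ t

/-- all `f_y` are polynomial maps of degree at most `d` -/
def DegreeLE (E : Eqn V) (d : ℕ) : Prop := ∀ y, DegLE d (E.f y)

open Classical in
/-- the largest number of vertices `y` for which the iterated difference of `f_y` has the same value at `0` -/
noncomputable def mode [Fintype V] (E : Eqn V) (l : List E.G) : ℕ :=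
  univ.sup fun z => (univ.filter fun y => diff (E.f y) l 0 = diff (E.f z) l 0).card

/-- on average over `h ∈ G ^ d` at most `ζ n` of the `n` vertices `y` have the same iterated difference -/
def Spread [Fintype V] (E : Eqn V) (d : ℕ) (ζ : ℝ) : Prop :=
  (∑ h : Fin d → E.G, (E.mode (List.ofFn h) : ℝ)) ≤ ζ * Fintype.card V * (Fintype.card E.G : ℝ) ^ d

end Eqn

section

variable {V G H : Type} [AddCommGroup G] [AddCommGroup H]

/-- the homomorphism of a map of degree one -/
def linPart (f : G → H) (hf : DegLE 1 f) : G →+ H :=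
  AddMonoidHom.mk' (fun x => f x - f 0) (fun x y => by
    have h : (f (0 + x + y) - f (0 + x)) - (f (0 + y) - f 0) = 0 := hf [x, y] rfl 0
    rw [zero_add, zero_add] at h
    have h1 : f (x + y) - f x = f y - f 0 := sub_eq_zero.1 h
    have h2 : f (x + y) = f y - f 0 + f x := sub_eq_iff_eq_add.1 h1
    rw [h2]
    abel)

theorem linPart_apply (f : G → H) (hf : DegLE 1 f) (x : G) : linPart f hf x = f x - f 0 := rfl

/-- the relation on the group -/
theorem relA_extend (f : V → G → H) (hf : ∀ y, DegLE 1 (f y)) (a : V → G) (u : V → H)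
    (ha : Function.Injective a) (x y : V) :
    RelA (fun y => linPart (f y) (hf y)) (Function.extend a u 0) (fun y => - f y 0) (a x) y ↔
      f y (a x) = u x := by
  unfold RelA
  rw [ha.extend_apply, linPart_apply, ← sub_eq_add_neg]
  exact sub_left_inj

omit [AddCommGroup G] in
open Classical in
theorem cnt_image [Fintype V] (R : G → V → Prop) (R' : V → V → Prop) (a : V → G) (ha : Function.Injective a)
    (h : ∀ x y, R (a x) y ↔ R' x y) : cnt R (univ.image a) univ = cnt R' univ univ := by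
  unfold cnt
  congr 1
  refine sum_congr rfl fun y _ => ?_
  rw [filter_image, card_image_of_injective _ ha]
  congr 1
  refine filter_congr fun x _ => ?_
  exact h x y

omit [AddCommGroup G] in
open Classical in
theorem KFree_image [Fintype V] (R : G → V → Prop) (R' : V → V → Prop) (a : V → G) (ha : Function.Injective a)
    (h : ∀ x y, R (a x) y ↔ R' x y) (r s : ℕ) (hK : KFree r s R' univ univ) :
    KFree r s R (univ.image a) univ := by
  intro A hA Z hZ hc hR
  obtain ⟨A', -, rfl⟩ := subset_image_iff.1 hA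
  rw [card_image_of_injective _ ha] at hc
  refine hK A' (subset_univ _) Z (subset_univ _) hc ?_
  intro x hx y hy
  exact (h x y).1 (hR (a x) (mem_image_of_mem a hx) y hy)

end

open Classical in
/-- the number of edges -/
theorem edges_le_symm {V : Type} [Fintype V] (Γ : SimpleGraph V) {m : ℕ} (R : Fin m → V → V → Prop)
    (hR : ∀ x y, Γ.Adj x y → ∃ i, R i x y ∨ R i y x) (X : ℝ) (hX : ∀ i, cnt (R i) univ univ ≤ X) :
    (Nat.card Γ.edgeSet : ℝ) ≤ m * X := by
  have h1 : 2 * (Nat.card Γ.edgeSet) = ∑ y, Γ.degree y := by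
    rw [Γ.sum_degrees_eq_twice_card_edges, SimpleGraph.edgeFinset_card, Nat.card_eq_fintype_card]
  have h2 : ∀ y, Γ.degree y ≤ ∑ i, ((univ.filter fun x => R i x y).card + (univ.filter fun x => R i y x).card) := by
    intro y
    rw [← SimpleGraph.card_neighborFinset_eq_degree]
    refine le_trans (card_le_card ?_) (le_trans (card_biUnion_le (s := univ)
      (t := fun i => (univ.filter fun x => R i x y) ∪ univ.filter fun x => R i y x)) (sum_le_sum fun i _ =>
        card_union_le _ _))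
    intro x hx
    rw [SimpleGraph.mem_neighborFinset] at hx
    obtain ⟨i, hi⟩ := hR x y hx.symm
    rcases hi with hi | hi
    · exact mem_biUnion.2 ⟨i, mem_univ _, mem_union_left _ (mem_filter.2 ⟨mem_univ _, hi⟩)⟩
    · exact mem_biUnion.2 ⟨i, mem_univ _, mem_union_right _ (mem_filter.2 ⟨mem_univ _, hi⟩)⟩
  have h4 : ∀ i, (∑ y : V, ((univ.filter fun x => R i x y).card + (univ.filter fun x => R i y x).card)) =
      2 * ∑ y : V, (univ.filter fun x => R i x y).card := by
    intro i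
    have e : (∑ y : V, (univ.filter fun x => R i y x).card) = ∑ y : V, (univ.filter fun x => R i x y).card := by
      simp only [card_filter]
      rw [sum_comm]
    rw [sum_add_distrib, e]
    ring
  have h3 : (Nat.card Γ.edgeSet) ≤ ∑ i, ∑ y : V, (univ.filter fun x => R i x y).card := by
    have h5 := sum_le_sum fun y (_ : y ∈ univ) => h2 y
    rw [sum_comm, sum_congr rfl fun i _ => h4 i, ← mul_sum] at h5
    omega
  calc (Nat.card Γ.edgeSet : ℝ) ≤ ((∑ i, ∑ y : V, (univ.filter fun x => R i x y).card : ℕ) : ℝ) := by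
        exact_mod_cast h3
    _ = ∑ i, cnt (R i) univ univ := by
        unfold cnt
        push_cast
        rfl
    _ ≤ ∑ _i : Fin m, X := sum_le_sum fun i _ => hX i
    _ = m * X := by rw [sum_const, nsmul_eq_mul, card_univ, Fintype.card_fin]

/-- **Equations of degree one in one of the vertices, `r ≥ 4`.** -/
theorem graph_affine (r s m : ℕ) (C c : ℝ) (hr : 4 ≤ r) (hc : 0 < c) : ∃ n₀ : ℕ,
    ∀ (V : Type) [Fintype V] (Γ : SimpleGraph V) (E : Fin m → Eqn V), n₀ ≤ Fintype.card V →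
      (∀ i, (E i).SizeLE (C * Fintype.card V)) → (∀ i, (E i).DegreeLE 1) →
      (∀ x y, x ≠ y → (Γ.Adj x y ↔ ∃ i, (E i).Holds x y ∨ (E i).Holds y x)) →
      (completeBipartiteGraph (Fin r) (Fin s)).Free Γ →
      (Nat.card Γ.edgeSet : ℝ) < c * (Fintype.card V : ℝ) ^ (2 - 1 / (r : ℝ)) := by
  classical
  obtain ⟨C₁, hC₁, hCC⟩ : ∃ C₁ : ℝ, 1 ≤ C₁ ∧ C ≤ C₁ := ⟨max 1 C, le_max_left _ _, le_max_right _ _⟩
  have hC0 : 0 < C₁ := by linarith
  obtain ⟨ν₀, hν₀⟩ := few_cntA r (r + s) hr (c / ((m + 1) * C₁ ^ (2 - 1 / (r : ℝ)))) (by positivity)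
  refine ⟨⌈(max 1 ν₀) ^ r⌉₊, ?_⟩
  intro V _ Γ E hV hsize hdeg hadj hfree
  obtain ⟨N, hN⟩ : ∃ N : ℝ, (Fintype.card V : ℝ) = N := ⟨_, rfl⟩
  have hN1 : (max 1 ν₀) ^ r ≤ N := by
    rw [← hN]
    exact (Nat.le_ceil _).trans (by exact_mod_cast hV)
  have hN1' : 1 ≤ N := (one_le_pow₀ (le_max_left _ _)).trans hN1
  rw [hN] at hsize ⊢
  have hN0 : 0 < N := by linarith
  have hr0 : (r : ℝ) ≠ 0 := by
    have : r ≠ 0 := by omega
    exact_mod_cast this
  set n : ℝ := C₁ * N with hn
  have hn0 : 0 < n := by positivity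
  have hNn : N ≤ n := by
    rw [hn]
    nlinarith
  set ν : ℝ := n ^ (1 / (r : ℝ)) with hν
  have hνn : ν ^ r = n := by
    rw [hν, ← Real.rpow_natCast, ← Real.rpow_mul hn0.le, one_div, inv_mul_cancel₀ hr0, Real.rpow_one]
  have hν1 : max 1 ν₀ ≤ ν := by
    have h1 : (max 1 ν₀) ^ r ≤ ν ^ r := by
      rw [hνn]
      exact hN1.trans hNn
    exact le_of_pow_le_pow_left₀ (by omega) (by positivity) h1
  have hν0 : 0 < ν := by positivity
  have hpow : n ^ 2 / ν = C₁ ^ (2 - 1 / (r : ℝ)) * N ^ (2 - 1 / (r : ℝ)) := by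
    rw [← Real.mul_rpow hC0.le hN0.le, ← hn, Real.rpow_sub hn0, hν]
    norm_num
  have hcnt : ∀ i, cnt (E i).Holds univ univ ≤ c / (m + 1) * N ^ (2 - 1 / (r : ℝ)) := by
    intro i
    have hG : (Fintype.card (E i).G : ℝ) ≤ C * N := hsize i
    have hCN : C * N ≤ n := by
      rw [hn]
      exact mul_le_mul_of_nonneg_right hCC hN0.le
    have hK := KFree_of_free Γ r s hfree (E i).Holds (fun x y hxy h => (hadj x y hxy).2 ⟨i, Or.inl h⟩) univ univ
    have hrel := relA_extend (E i).f (hdeg i) (E i).a (E i).u (E i).inj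
    have h1 := hν₀ (E i).G V (E i).H _ _ _ n ν (univ.image (E i).a) univ (hG.trans hCN)
      (by rw [card_univ, hN]; exact hNn) ((le_max_right _ _).trans hν1) hνn
      (KFree_image _ (E i).Holds (E i).a (E i).inj hrel r (r + s) hK)
    rw [cnt_image _ (E i).Holds (E i).a (E i).inj hrel, hpow] at h1
    refine h1.le.trans (le_of_eq ?_)
    have : C₁ ^ (2 - 1 / (r : ℝ)) ≠ 0 := by positivity
    field_simp
  have h1 := edges_le_symm Γ (fun i => (E i).Holds) (fun x y h => (hadj x y h.ne).1 h) _ hcnt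
  refine lt_of_le_of_lt h1 ?_
  have h2 : (0 : ℝ) < c / (m + 1) * N ^ (2 - 1 / (r : ℝ)) := by positivity
  have h3 : c * N ^ (2 - 1 / (r : ℝ)) = (m + 1) * (c / (m + 1) * N ^ (2 - 1 / (r : ℝ))) := by
    field_simp
  rw [h3]
  linarith

open Classical in
/-- one relation -/
theorem cnt_degree (s k d : ℕ) (C : ℝ) (hd : 1 ≤ d) (hC : 1 ≤ C) : ∃ K : ℝ, 0 < K ∧
    ∀ (V : Type) [Fintype V] [Nonempty V] (E : Eqn V) (ζ : ℝ), E.SizeLE (C * Fintype.card V) → E.DegreeLE d →
      E.Spread d ζ → KFree (2 ^ d * (k + 1)) s E.Holds univ univ → 1 / (Fintype.card V : ℝ) ≤ ζ ∧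
      cnt E.Holds univ univ ^ (2 ^ d * (k + 1)) ≤
        K * ((Fintype.card V : ℝ) ^ (2 * (2 ^ d * (k + 1))) * (ζ ^ k / Fintype.card V)) := by
  set A : ℝ := ((k : ℝ) + 1 + d) * 4 ^ d with hA
  have hA0 : 0 < A := by positivity
  refine ⟨C ^ (2 ^ d * (k + 1)) * (4 * s * 2 ^ k + (4 * A) ^ (k + 1)), by positivity, ?_⟩
  intro V _ _ E ζ hsize hdeg hspread hfree
  set n : ℝ := (Fintype.card V : ℝ) with hn
  set g : ℝ := (Fintype.card E.G : ℝ) with hg
  have hn1 : 1 ≤ n := by
    rw [hn]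
    exact_mod_cast Fintype.card_pos
  have hn0 : 0 < n := by linarith
  have hng : n ≤ g := by
    rw [hn, hg]
    exact_mod_cast Fintype.card_le_of_injective E.a E.inj
  have hg0 : 0 < g := by linarith
  let M : List E.G → ℝ := fun l => (E.mode l : ℝ)
  have hMle : ∀ (l : List E.G) (c : E.H),
      (((univ : Finset V).filter fun y => diff (E.f y) l 0 = c).card : ℝ) ≤ M l := by
    intro l c
    rcases ((univ : Finset V).filter fun y => diff (E.f y) l 0 = c).eq_empty_or_nonempty with h | ⟨z, hz⟩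
    · rw [h, card_empty, Nat.cast_zero]
      exact Nat.cast_nonneg _
    · have h1 := (mem_filter.1 hz).2
      have h2 : ((univ : Finset V).filter fun y => diff (E.f y) l 0 = c).card ≤ E.mode l := by
        unfold Eqn.mode
        refine le_trans (le_of_eq ?_) (le_sup (f := fun z : V =>
          ((univ : Finset V).filter fun y => diff (E.f y) l 0 = diff (E.f z) l 0).card) (mem_univ z))
        rw [h1]
      exact Nat.cast_le.2 h2
  have hM1 : ∀ l : List E.G, (1 : ℝ) ≤ M l := by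
    intro l
    obtain ⟨z⟩ := (inferInstance : Nonempty V)
    refine le_trans ?_ (hMle l (diff (E.f z) l 0))
    have : 0 < ((univ : Finset V).filter fun y => diff (E.f y) l 0 = diff (E.f z) l 0).card :=
      card_pos.2 ⟨z, mem_filter.2 ⟨mem_univ _, rfl⟩⟩
    exact_mod_cast this
  have hMs : sumT d M ≤ ζ * n * g ^ d := by
    rw [sumT_eq]
    exact hspread
  have hζ : 1 / n ≤ ζ := by
    have h1 : g ^ d ≤ sumT d M := by
      have h2 := sumT_mono d (fun _ : List E.G => (1 : ℝ)) M (fun l _ => hM1 l)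
      rw [sumT_const, mul_one] at h2
      exact h2
    have h3 : 1 * g ^ d ≤ (ζ * n) * g ^ d := by
      rw [one_mul]
      exact h1.trans hMs
    rw [div_le_iff₀ hn0]
    exact le_of_mul_le_mul_right h3 (by positivity)
  refine ⟨hζ, ?_⟩
  -- the relation on the group
  obtain ⟨R, hRdef⟩ : ∃ R : E.G → V → Prop, ∀ z y, R z y ↔
      (z ∈ (univ : Finset V).image E.a ∧ E.f y z = Function.extend E.a E.u 0 z + (0 : V → E.H) y) :=
    ⟨_, fun _ _ => Iff.rfl⟩
  have hRa : ∀ x y, R (E.a x) y ↔ E.Holds x y := by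
    intro x y
    rw [hRdef, E.inj.extend_apply, Pi.zero_apply, add_zero]
    exact ⟨fun h => h.2, fun h => ⟨mem_image_of_mem _ (mem_univ x), h⟩⟩
  have hRS : cnt R univ univ = cnt R ((univ : Finset V).image E.a) univ := by
    unfold cnt
    congr 1
    refine sum_congr rfl fun y _ => ?_
    congr 1
    ext z
    rw [mem_filter, mem_filter]
    exact ⟨fun h => ⟨((hRdef z y).1 h.2).1, h.2⟩, fun h => ⟨mem_univ _, h.2⟩⟩
  have hcnt : cnt R univ univ = cnt E.Holds univ univ := by
    rw [hRS, cnt_image R E.Holds E.a E.inj hRa]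
  have hKR : KFree (2 ^ d * (k + 1)) s R univ univ := by
    intro A' _ Z hZ hc hR
    rcases Z.eq_empty_or_nonempty with rfl | ⟨y0, hy0⟩
    · simp
    refine KFree_image R E.Holds E.a E.inj hRa _ s hfree A' ?_ Z hZ hc hR
    intro z hz
    exact ((hRdef z y0).1 (hR z hz y0 hy0)).1
  have hcs := gcs (univ : Finset V) d R
  rw [card_univ, hcnt] at hcs
  refine real_deg d k A s C n g _ ζ (tot univ d R) hA0.le (Nat.cast_nonneg _) hC hn1 hng hsize
    (cnt_nonneg _ _ _) hζ hcs ?_
  intro τ hτ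
  have h1 := rel_bound (k := k) (s := s) hd E.f (Function.extend E.a E.u 0) 0 R
    (fun x y h => ((hRdef x y).1 h).2) univ hdeg
    hKR M (fun l _ c => hMle l c) τ hτ
  rw [card_univ] at h1
  refine h1.trans ?_
  have h2 : τ * g * sumT d M ≤ τ * g * (ζ * n * g ^ d) := mul_le_mul_of_nonneg_left hMs (by positivity)
  linarith

/-- **Equations of degree `d` in one of the vertices.** -/
theorem graph_degree (r s d k m : ℕ) (C : ℝ) (hd : 1 ≤ d) (hr : r ≤ 2 ^ d * (k + 1)) : ∃ K : ℝ, 0 < K ∧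
    ∀ (V : Type) [Fintype V] (Γ : SimpleGraph V) (E : Fin m → Eqn V) (ζ : ℝ),
      (∀ i, (E i).SizeLE (C * Fintype.card V)) → (∀ i, (E i).DegreeLE d) → (∀ i, (E i).Spread d ζ) →
      (∀ x y, x ≠ y → (Γ.Adj x y ↔ ∃ i, (E i).Holds x y ∨ (E i).Holds y x)) →
      (completeBipartiteGraph (Fin r) (Fin s)).Free Γ →
      (Nat.card Γ.edgeSet : ℝ) ≤ K * (Fintype.card V : ℝ) ^ (2 - 1 / (2 ^ d * (k + 1) : ℝ)) *
        |ζ| ^ (k / (2 ^ d * (k + 1)) : ℝ) := by
  classical
  obtain ⟨C₁, hC₁, hCC⟩ : ∃ C₁ : ℝ, 1 ≤ C₁ ∧ C ≤ C₁ := ⟨max 1 C, le_max_left _ _, le_max_right _ _⟩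
  have hC0 : 0 < C₁ := by linarith
  obtain ⟨K, hK0, hK⟩ := cnt_degree (r + s) k d C₁ hd hC₁
  obtain ⟨q, hq⟩ : ∃ q : ℕ, q = 2 ^ d * (k + 1) := ⟨_, rfl⟩
  have hq0 : q ≠ 0 := by
    rw [hq]
    positivity
  have hqr : (2 ^ d * (k + 1) : ℝ) = (q : ℝ) := by
    rw [hq]
    push_cast
    ring
  have hq0' : (q : ℝ) ≠ 0 := by exact_mod_cast hq0
  refine ⟨(m + 1) * K ^ (1 / (q : ℝ)), by positivity, ?_⟩
  intro V _ Γ E ζ hsize hdeg hspread hadj hfree
  rw [hqr]
  have hr0 : (0 : ℝ) ≤ (Fintype.card V : ℝ) ^ (2 - 1 / (q : ℝ)) := by positivity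
  rcases isEmpty_or_nonempty V with hV | hV
  · have h0 : Nat.card Γ.edgeSet = 0 := by
      have : IsEmpty Γ.edgeSet := by
        refine ⟨fun e => ?_⟩
        obtain ⟨e, he⟩ := e
        induction e using Sym2.ind with
        | _ x y => exact hV.false x
      exact Nat.card_of_isEmpty
    rw [h0, Nat.cast_zero]
    exact mul_nonneg (mul_nonneg (by positivity) hr0) (Real.rpow_nonneg (abs_nonneg _) _)
  have hn0 : (0 : ℝ) < Fintype.card V := by exact_mod_cast Fintype.card_pos
  rcases Nat.eq_zero_or_pos m with hm | hm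
  · subst hm
    have h1 := edges_le_symm Γ (fun i => (E i).Holds) (fun x y h => (hadj x y h.ne).1 h) 0
      (fun i => i.elim0)
    refine h1.trans ?_
    rw [mul_zero]
    exact mul_nonneg (mul_nonneg (by positivity) hr0) (Real.rpow_nonneg (abs_nonneg _) _)
  have hζ0 : 0 < ζ := by
    have hK' := KFree_mono_r hr (KFree_of_free Γ r s hfree (E ⟨0, hm⟩).Holds
      (fun x y hxy h => (hadj x y hxy).2 ⟨_, Or.inl h⟩) univ univ)
    have h1 := (hK V (E ⟨0, hm⟩) ζ (le_trans (hsize _) (mul_le_mul_of_nonneg_right hCC hn0.le)) (hdeg _)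
      (hspread _) hK').1
    exact lt_of_lt_of_le (by positivity) h1
  rw [abs_of_pos hζ0]
  have hcnt : ∀ i, cnt (E i).Holds univ univ ≤
      K ^ (1 / (q : ℝ)) * (Fintype.card V : ℝ) ^ (2 - 1 / (q : ℝ)) * ζ ^ ((k : ℝ) / q) := by
    intro i
    have hK' := KFree_mono_r hr (KFree_of_free Γ r s hfree (E i).Holds
      (fun x y hxy h => (hadj x y hxy).2 ⟨_, Or.inl h⟩) univ univ)
    have h1 := (hK V (E i) ζ (le_trans (hsize _) (mul_le_mul_of_nonneg_right hCC hn0.le)) (hdeg _)
      (hspread _) hK').2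
    rw [← hq] at h1
    have h2 : K ^ (1 / (q : ℝ)) * (Fintype.card V : ℝ) ^ (2 - 1 / (q : ℝ)) * ζ ^ ((k : ℝ) / q) =
        (K * ((Fintype.card V : ℝ) ^ (2 * q) * (ζ ^ k / Fintype.card V))) ^ (1 / (q : ℝ)) := by
      rw [Real.mul_rpow hK0.le (by positivity), Real.mul_rpow (by positivity) (by positivity),
        Real.div_rpow (by positivity) hn0.le, Real.rpow_sub hn0]
      have e1 : ((Fintype.card V : ℝ) ^ (2 * q)) ^ (1 / (q : ℝ)) = (Fintype.card V : ℝ) ^ (2 : ℝ) := by
        rw [← Real.rpow_natCast, ← Real.rpow_mul hn0.le]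
        congr 1
        push_cast
        field_simp
      have e2 : (ζ ^ k) ^ (1 / (q : ℝ)) = ζ ^ ((k : ℝ) / q) := by
        rw [← Real.rpow_natCast, ← Real.rpow_mul hζ0.le]
        congr 1
        ring
      rw [e1, e2]
      ring
    rw [h2]
    have h3 : cnt (E i).Holds univ univ = (cnt (E i).Holds univ univ ^ q) ^ (1 / (q : ℝ)) := by
      rw [← Real.rpow_natCast, ← Real.rpow_mul (cnt_nonneg _ _ _), mul_one_div_cancel hq0', Real.rpow_one]
    rw [h3]
    exact Real.rpow_le_rpow (pow_nonneg (cnt_nonneg _ _ _) _) h1 (by positivity)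
  have h1 := edges_le_symm Γ (fun i => (E i).Holds) (fun x y h => (hadj x y h.ne).1 h) _ hcnt
  refine h1.trans ?_
  have h2 : (0 : ℝ) ≤ K ^ (1 / (q : ℝ)) * (Fintype.card V : ℝ) ^ (2 - 1 / (q : ℝ)) * ζ ^ ((k : ℝ) / q) := by
    positivity
  calc (m : ℝ) * (K ^ (1 / (q : ℝ)) * (Fintype.card V : ℝ) ^ (2 - 1 / (q : ℝ)) * ζ ^ ((k : ℝ) / q)) ≤
        (m + 1) * (K ^ (1 / (q : ℝ)) * (Fintype.card V : ℝ) ^ (2 - 1 / (q : ℝ)) * ζ ^ ((k : ℝ) / q)) := by
          refine mul_le_mul_of_nonneg_right ?_ h2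
          linarith
    _ = _ := by ring

end Pool.Agent.K7.H41.AE
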