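import Pool.Agent.K7.H41.AE.Heavy
import Pool.Agent.K7.H41.AE.Deg

/-!
# Relations of bounded degree in one variable, when different maps are different almost everywhere
-/

set_option autoImplicit false

namespace Pool.Agent.K7.H41.AE

open Finset Pool.Agent.K7.H41.BE

section defs

variable {G Y H : Type}

/-- the relation `f_y (x) = u (x)`, for `x ∈ S` -/
def Rl (S : Finset G) (f : Y → G → H) (u : G → H) : G → Y → Prop := fun x y => x ∈ S ∧ f y x = u x

open Classical in
/-- if `f_y - f_y'` has degree exactly `j + 1`, then few `(j + 1)`-th differences are zero -/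
def SepOn [AddCommGroup G] [AddCommGroup H] [Fintype G] (T : Finset Y) (f : Y → G → H) (η : ℝ) : Prop :=
  ∀ y ∈ T, ∀ y' ∈ T, ∀ j : ℕ, DegLE (j + 1) (fun x => f y x - f y' x) → ¬ DegLE j (fun x => f y x - f y' x) →
    sumT (j + 1) (fun l : List G => if diff (fun x => f y x - f y' x) l 0 = 0 then (1 : ℝ) else 0) ≤
      η * (Fintype.card G : ℝ) ^ (j + 1)

end defs

section base

variable {G Y H : Type} [AddCommGroup G] [AddCommGroup H] [Fintype G]

open Classical in
/-- degree zero -/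
theorem base_bound {r s : ℕ} (S : Finset G) (T : Finset Y) (f : Y → G → H) (u : G → H)
    (h0 : ∀ y ∈ T, ∀ y' ∈ T, DegLE 0 (fun x => f y x - f y' x)) (hfree : KFree r s (Rl S f u) univ T)
    (htg : (T.card : ℝ) ≤ Fintype.card G) :
    cnt (Rl S f u) univ T ≤ ((r : ℝ) + s) * Fintype.card G := by
  rcases T.eq_empty_or_nonempty with hT | ⟨y0, hy0⟩
  · rw [hT]
    unfold cnt
    rw [sum_empty, Nat.cast_zero]
    positivity
  · set R := Rl S f u with hR
    have key : ∀ y ∈ T, ∀ x, R x y ↔ x ∈ S ∧ f y 0 - f y0 0 = u x - f y0 x := by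
      intro y hy x
      have h1 : f y x - f y0 x = f y 0 - f y0 0 := degLE_zero.1 (h0 y hy y0 hy0) x
      show (x ∈ S ∧ f y x = u x) ↔ _
      rw [← h1]
      exact and_congr_right fun _ => (sub_left_inj).symm
    let N : Y → Finset G := fun y => univ.filter fun x => R x y
    have h1 : ∀ y ∈ T, (N y).card ≤ r + (univ.filter fun x => R x y ∧ r ≤ (N y).card).card := by
      intro y _
      by_cases h : r ≤ (N y).card
      · have : (univ.filter fun x => R x y ∧ r ≤ (N y).card) = N y := by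
          refine filter_congr fun x _ => ?_
          exact and_iff_left h
        rw [this]
        omega
      · omega
    have h2 : ∀ x : G, (T.filter fun y => R x y ∧ r ≤ (N y).card).card ≤ s := by
      intro x
      rcases (T.filter fun y => R x y ∧ r ≤ (N y).card).eq_empty_or_nonempty with he | ⟨y1, hy1⟩
      · rw [he]
        simp
      · obtain ⟨hy1T, hy1R, hy1r⟩ := mem_filter.1 hy1
        obtain ⟨A, hA, hAc⟩ := exists_subset_card_eq hy1r
        refine hfree A (subset_univ _) _ (filter_subset _ _) hAc ?_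
        intro x' hx' y hy
        obtain ⟨hyT, hyR, _⟩ := mem_filter.1 hy
        have h3 := (key y1 hy1T x').1 (mem_filter.1 (hA hx')).2
        have h4 := (key y1 hy1T x).1 hy1R
        have h5 := (key y hyT x).1 hyR
        exact (key y hyT x').2 ⟨h3.1, h5.2.trans (h4.2.symm.trans h3.2)⟩
    have h3 : (∑ y ∈ T, (N y).card) ≤ r * T.card + s * Fintype.card G := by
      calc (∑ y ∈ T, (N y).card) ≤ ∑ y ∈ T, (r + (univ.filter fun x => R x y ∧ r ≤ (N y).card).card) :=
            sum_le_sum h1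
        _ = r * T.card + ∑ x : G, (T.filter fun y => R x y ∧ r ≤ (N y).card).card := by
            rw [sum_add_distrib, sum_const, smul_eq_mul, mul_comm]
            congr 1
            simp only [card_filter]
            rw [sum_comm]
        _ ≤ r * T.card + ∑ _x : G, s := by
            refine Nat.add_le_add_left (sum_le_sum fun x _ => h2 x) _
        _ = r * T.card + s * Fintype.card G := by
            rw [sum_const, smul_eq_mul, card_univ, mul_comm (Fintype.card G)]
    have h4 : cnt R univ T ≤ r * T.card + s * Fintype.card G := by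
      unfold cnt
      exact_mod_cast h3
    have h5 : (r : ℝ) * T.card ≤ r * Fintype.card G := mul_le_mul_of_nonneg_left htg (Nat.cast_nonneg _)
    linarith

end base

section small

variable {G Y H : Type} [AddCommGroup G] [AddCommGroup H] [Fintype G]

open Classical in
/-- the maps whose classes are small -/
theorem small_classes {s d j : ℕ} (S : Finset G) (T : Finset Y) (f : Y → G → H) (u : G → H)
    (hdeg : ∀ y ∈ T, ∀ y' ∈ T, DegLE (d + 1) (fun x => f y x - f y' x)) (η n Q : ℝ) (hsep : SepOn T f η)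
    (hfree : KFree (2 ^ (d + 1) * (1 + 1) + j) s (Rl S f u) univ T) (hQ1 : 1 ≤ Q) (hQn : Q ≤ n)
    (hη : η ≤ 1 / Q ^ 2) (hTn : (T.card : ℝ) ≤ n) (hng : n ≤ Fintype.card G)
    (hcls : ∀ y ∈ T, ((T.filter fun y' => DegLE d (fun x => f y x - f y' x)).card : ℝ) ≤ n / Q ^ 2) :
    cnt (Rl S f u) univ T ^ (2 ^ (d + 1) * (1 + 1) + j) * n ^ (1 + 1) ≤
      ((4 * ((2 ^ (d + 1) * (1 + 1) + j : ℕ) : ℝ)) ^ (2 ^ (d + 1) * (1 + 1) + j) +
        2 ^ (2 ^ (d + 1) * (1 + 1)) * 4 ^ j * (4 * s * 2 ^ 1 +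
          (4 * (((1 : ℕ) : ℝ) + 1 + (d + 1 : ℕ)) * 4 ^ (d + 1)) ^ (1 + 1))) *
      (Fintype.card G : ℝ) ^ (2 ^ (d + 1) * (1 + 1) + j) * n ^ (2 ^ (d + 1) * (1 + 1) + j) * (2 * n / Q) ^ 1 := by
  have hQ0 : 0 < Q := by linarith
  have hn1 : 1 ≤ n := hQ1.trans hQn
  have hn0 : 0 < n := by linarith
  rcases T.eq_empty_or_nonempty with hT | ⟨y0, hy0⟩
  · have h1 : cnt (Rl S f u) univ T = 0 := by
      rw [hT]
      unfold cnt
      simp
    have h2 : 2 ^ (d + 1) * (1 + 1) + j ≠ 0 := by positivity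
    rw [h1, zero_pow h2, zero_mul]
    positivity
  set g : ℝ := (Fintype.card G : ℝ) with hg
  set t : ℝ := (T.card : ℝ) with ht
  have hg0 : 0 < g := by linarith
  have ht0 : 0 ≤ t := Nat.cast_nonneg _
  obtain ⟨f', hf'1, hf'2⟩ : ∃ f' : Y → G → H, (∀ y ∈ T, f' y = fun x => f y x - f y0 x) ∧
      ∀ y ∉ T, f' y = fun _ => 0 :=
    ⟨fun y => if y ∈ T then (fun x => f y x - f y0 x) else fun _ => 0, fun y hy => if_pos hy,
      fun y hy => if_neg hy⟩
  obtain ⟨R', hR'⟩ : ∃ R' : G → Y → Prop, ∀ x y, R' x y ↔ (Rl S f u x y ∧ y ∈ T) := ⟨_, fun _ _ => Iff.rfl⟩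
  have hcnt : cnt R' univ T = cnt (Rl S f u) univ T := by
    unfold cnt
    congr 1
    refine sum_congr rfl fun y hy => congrArg _ (filter_congr fun x _ => ?_)
    rw [hR']
    exact and_iff_left hy
  -- the pairs with the same difference
  let P : List G → ℕ := fun l => ((T ×ˢ T).filter fun p => diff (f p.1) l 0 = diff (f p.2) l 0).card
  let M : List G → ℝ := fun l => √(P l)
  have hM : ∀ l : List G, l.length = d + 1 → ∀ c : H,
      ((T.filter fun y => diff (f' y) l 0 = c).card : ℝ) ≤ M l := by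
    intro l _ c
    refine Real.le_sqrt_of_sq_le ?_
    have h1 : (T.filter fun y => diff (f' y) l 0 = c).card ^ 2 ≤ P l := by
      rw [sq, ← card_product]
      refine card_le_card ?_
      intro p hp
      obtain ⟨h1, h2⟩ := mem_product.1 hp
      obtain ⟨h1, h3⟩ := mem_filter.1 h1
      obtain ⟨h2, h4⟩ := mem_filter.1 h2
      refine mem_filter.2 ⟨mem_product.2 ⟨h1, h2⟩, ?_⟩
      rw [hf'1 _ h1, diff_sub] at h3
      rw [hf'1 _ h2, diff_sub] at h4
      exact sub_left_injective (h3.trans h4.symm)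
    exact_mod_cast h1
  have hPsum : sumT (d + 1) (fun l => (P l : ℝ)) ≤ 2 * n ^ 2 / Q ^ 2 * g ^ (d + 1) := by
    have e1 : sumT (d + 1) (fun l => (P l : ℝ)) = ∑ p ∈ T ×ˢ T, sumT (d + 1) (fun l : List G =>
        if diff (fun x => f p.1 x - f p.2 x) l 0 = 0 then (1 : ℝ) else 0) := by
      simp_rw [sumT_eq]
      rw [sum_comm]
      refine sum_congr rfl fun h _ => ?_
      show ((((T ×ˢ T).filter fun p => diff (f p.1) (List.ofFn h) 0 = diff (f p.2) (List.ofFn h) 0).card : ℕ) : ℝ) = _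
      rw [← sum_boole]
      refine sum_congr rfl fun p _ => ?_
      rw [diff_sub]
      simp only [sub_eq_zero]
    have e2 : ∀ p ∈ T ×ˢ T, sumT (d + 1) (fun l : List G =>
        if diff (fun x => f p.1 x - f p.2 x) l 0 = 0 then (1 : ℝ) else 0) ≤
        (if DegLE d (fun x => f p.1 x - f p.2 x) then g ^ (d + 1) else 0) + 1 / Q ^ 2 * g ^ (d + 1) := by
      intro p hp
      obtain ⟨h1, h2⟩ := mem_product.1 hp
      by_cases hd : DegLE d (fun x => f p.1 x - f p.2 x)
      · rw [if_pos hd]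
        have h3 : sumT (d + 1) (fun l : List G => if diff (fun x => f p.1 x - f p.2 x) l 0 = 0 then (1 : ℝ) else 0) ≤
            sumT (d + 1) (fun _ : List G => (1 : ℝ)) := by
          refine sumT_mono _ _ _ fun l _ => ?_
          split_ifs <;> norm_num
        rw [sumT_const, mul_one] at h3
        have h4 : 0 ≤ 1 / Q ^ 2 * g ^ (d + 1) := by positivity
        linarith
      · rw [if_neg hd, zero_add]
        exact (hsep p.1 h1 p.2 h2 d (hdeg p.1 h1 p.2 h2) hd).trans (mul_le_mul_of_nonneg_right hη (by positivity))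
    rw [e1]
    refine (sum_le_sum e2).trans ?_
    rw [sum_add_distrib, sum_const, nsmul_eq_mul, card_product, sum_product]
    have e3 : (∑ y ∈ T, ∑ y' ∈ T, if DegLE d (fun x => f y x - f y' x) then g ^ (d + 1) else 0) ≤
        t * (n / Q ^ 2) * g ^ (d + 1) := by
      calc (∑ y ∈ T, ∑ y' ∈ T, if DegLE d (fun x => f y x - f y' x) then g ^ (d + 1) else 0) =
            ∑ y ∈ T, ((T.filter fun y' => DegLE d (fun x => f y x - f y' x)).card : ℝ) * g ^ (d + 1) := by
              refine sum_congr rfl fun y _ => ?_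
              rw [← sum_filter, sum_const, nsmul_eq_mul]
        _ ≤ ∑ _y ∈ T, n / Q ^ 2 * g ^ (d + 1) :=
              sum_le_sum fun y hy => mul_le_mul_of_nonneg_right (hcls y hy) (by positivity)
        _ = _ := by
              rw [sum_const, nsmul_eq_mul]
              ring
    have e4 : t * (n / Q ^ 2) * g ^ (d + 1) ≤ n * (n / Q ^ 2) * g ^ (d + 1) := by gcongr
    have e5 : ((T.card * T.card : ℕ) : ℝ) * (1 / Q ^ 2 * g ^ (d + 1)) ≤ n * n * (1 / Q ^ 2 * g ^ (d + 1)) := by
      push_cast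
      gcongr
    have e6 : 2 * n ^ 2 / Q ^ 2 * g ^ (d + 1) = n * (n / Q ^ 2) * g ^ (d + 1) + n * n * (1 / Q ^ 2 * g ^ (d + 1)) := by
      ring
    rw [e6]
    linarith
  have hMs : sumT (d + 1) M ≤ 2 * n / Q * g ^ (d + 1) := by
    refine le_of_pow_le_pow_left₀ two_ne_zero (by positivity) ?_
    have h1 : sumT (d + 1) M ^ 2 ≤ g ^ (d + 1) * sumT (d + 1) (fun l => (P l : ℝ)) := by
      rw [sumT_eq, sumT_eq]
      have h2 := sq_sum_le_card_mul_sum_sq (s := (univ : Finset (Fin (d + 1) → G))) (f := fun h => M (List.ofFn h))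
      rw [card_univ, Fintype.card_fun, Fintype.card_fin] at h2
      push_cast at h2
      refine h2.trans (le_of_eq ?_)
      congr 1
      refine sum_congr rfl fun h _ => ?_
      exact Real.sq_sqrt (Nat.cast_nonneg _)
    refine h1.trans ((mul_le_mul_of_nonneg_left hPsum (by positivity)).trans ?_)
    have h3 : (2 * n / Q * g ^ (d + 1)) ^ 2 = 2 * (g ^ (d + 1) * (2 * n ^ 2 / Q ^ 2 * g ^ (d + 1))) := by
      rw [mul_pow, div_pow]
      ring
    rw [h3]
    have h4 : 0 ≤ g ^ (d + 1) * (2 * n ^ 2 / Q ^ 2 * g ^ (d + 1)) := by positivity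
    linarith
  have hμ : 1 ≤ 2 * n / Q := by
    rw [le_div_iff₀ hQ0]
    linarith
  have h1 := thmA (k := 1) (s := s) (j := j) (d := d + 1) (by omega) f' (fun x => u x - f y0 x) (fun _ => 0) R'
    (by
      intro x y hxy
      obtain ⟨⟨_, h2⟩, h3⟩ := (hR' x y).1 hxy
      rw [hf'1 y h3, add_zero]
      show f y x - f y0 x = u x - f y0 x
      rw [h2]) T
    (by
      intro y
      by_cases hy : y ∈ T
      · rw [hf'1 y hy]
        exact hdeg y hy y0 hy0
      · rw [hf'2 y hy]
        exact degLE_const 0)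
    (by
      intro A hA Z hZ hc hR
      exact hfree A hA Z hZ hc fun x hx y hy => ((hR' x y).1 (hR x hx y hy)).1) M hM n (2 * n / Q) hTn hng hn1 hμ hMs
  rw [hcnt] at h1
  refine h1.trans (le_of_eq ?_)
  rw [mul_assoc 4 (((1 : ℕ) : ℝ) + 1 + ((d + 1 : ℕ) : ℝ))]

end small

open Classical in
/-- **The bound for relations with separated maps.** -/
theorem sep_bound (p s : ℕ) : ∀ d : ℕ, 2 ^ (d + 1) ≤ p + 1 → ∃ K : ℝ, 0 < K ∧
    ∀ (G Y H : Type) [AddCommGroup G] [AddCommGroup H] [Fintype G] (S : Finset G) (T : Finset Y)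
      (f : Y → G → H) (u : G → H) (η n Q : ℝ),
      (∀ y ∈ T, ∀ y' ∈ T, DegLE d (fun x => f y x - f y' x)) → SepOn T f η →
      KFree (p + 1) s (Rl S f u) univ T → 1 ≤ Q → Q ^ ((2 * (p + 1) + 1) ^ d) ≤ n →
      η ≤ 1 / Q ^ (2 * (2 * (p + 1) + 1) ^ d) → (T.card : ℝ) ≤ n → n ≤ Fintype.card G →
      cnt (Rl S f u) univ T ^ (p + 1) * Q ≤ K * (Fintype.card G : ℝ) ^ (p + 1) * n ^ p := by
  intro d
  induction d with
  | zero =>
    intro hp
    refine ⟨((p + 1 : ℕ) + (s : ℝ)) ^ (p + 1), by positivity, ?_⟩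
    intro G Y H _ _ _ S T f u η n Q hdeg _ hfree hQ1 hQn _ hTn hng
    rw [pow_zero, pow_one] at hQn
    have hn1 : 1 ≤ n := hQ1.trans hQn
    have h1 := base_bound S T f u hdeg hfree (hTn.trans hng)
    have h2 : Q ≤ n ^ p := by
      calc Q ≤ n := hQn
        _ = n ^ 1 := (pow_one n).symm
        _ ≤ n ^ p := pow_le_pow_right₀ hn1 (by
          have : 2 ^ (0 + 1) = 2 := by norm_num
          omega)
    have h0 : 0 ≤ cnt (Rl S f u) univ T := cnt_nonneg _ _ _
    calc cnt (Rl S f u) univ T ^ (p + 1) * Q ≤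
          (((p + 1 : ℕ) + (s : ℝ)) * Fintype.card G) ^ (p + 1) * n ^ p := by gcongr
      _ = _ := by rw [mul_pow]
  | succ d ih =>
    intro hp
    obtain ⟨K', hK'0, hK'⟩ := ih (le_trans (Nat.pow_le_pow_right (by norm_num) (by omega)) hp)
    obtain ⟨j, hj⟩ : ∃ j, p + 1 = 2 ^ (d + 1) * (1 + 1) + j := ⟨p + 1 - 2 ^ (d + 1) * (1 + 1), by
      have : 2 ^ (d + 1 + 1) = 2 ^ (d + 1) * (1 + 1) := by rw [pow_succ]
      omega⟩
    obtain ⟨KA, hKA⟩ : ∃ KA : ℝ, KA = ((4 * ((2 ^ (d + 1) * (1 + 1) + j : ℕ) : ℝ)) ^ (2 ^ (d + 1) * (1 + 1) + j) +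
        2 ^ (2 ^ (d + 1) * (1 + 1)) * 4 ^ j * (4 * s * 2 ^ 1 +
          (4 * (((1 : ℕ) : ℝ) + 1 + (d + 1 : ℕ)) * 4 ^ (d + 1)) ^ (1 + 1))) := ⟨_, rfl⟩
    have hKA0 : 0 ≤ KA := by
      rw [hKA]
      positivity
    refine ⟨2 ^ p * (2 * KA + K'), by positivity, ?_⟩
    intro G Y H _ _ _ S T f u η n Q hdeg hsep hfree hQ1 hQn hη hTn hng
    set N : ℕ := (2 * (p + 1) + 1) ^ d with hN
    have hN1 : 1 ≤ N := Nat.one_le_pow _ _ (by omega)
    have hNs : (2 * (p + 1) + 1) ^ (d + 1) = (2 * (p + 1) + 1) * N := by rw [pow_succ, mul_comm]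
    rw [hNs] at hQn hη
    have hQ0 : 0 < Q := by linarith
    have hQn' : Q ≤ n := by
      calc Q = Q ^ 1 := (pow_one Q).symm
        _ ≤ Q ^ ((2 * (p + 1) + 1) * N) := pow_le_pow_right₀ hQ1 (Nat.mul_pos (by omega) hN1)
        _ ≤ n := hQn
    have hn0 : 0 < n := by linarith
    have hη2 : η ≤ 1 / Q ^ 2 := by
      refine hη.trans (one_div_le_one_div_of_le (by positivity) (pow_le_pow_right₀ hQ1 ?_))
      have : 1 ≤ (2 * (p + 1) + 1) * N := Nat.mul_pos (by omega) hN1
      omega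
    set g : ℝ := (Fintype.card G : ℝ) with hg
    have hg0 : 0 < g := by linarith
    set R := Rl S f u with hR
    let cls : Y → Finset Y := fun y => T.filter fun y' => DegLE d (fun x => f y x - f y' x)
    set Ts : Finset Y := T.filter fun y => ((cls y).card : ℝ) ≤ n / Q ^ 2 with hTs
    set Tb : Finset Y := T.filter fun y => ¬ ((cls y).card : ℝ) ≤ n / Q ^ 2 with hTb
    have hTsT : Ts ⊆ T := filter_subset _ _
    -- the small classes
    have hs : cnt R univ Ts ^ (p + 1) * Q ≤ 2 * KA * g ^ (p + 1) * n ^ p := by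
      have h1 := small_classes (s := s) (d := d) (j := j) S Ts f u (fun y hy y' hy' => hdeg y (hTsT hy) y' (hTsT hy'))
        η n Q (fun y hy y' hy' => hsep y (hTsT hy) y' (hTsT hy')) (by
          rw [← hj]
          exact hfree.mono (subset_univ _) hTsT) hQ1 hQn' hη2
        (le_trans (by exact_mod_cast card_le_card hTsT) hTn) hng (by
          intro y hy
          refine le_trans ?_ (mem_filter.1 hy).2
          exact_mod_cast card_le_card (filter_subset_filter _ hTsT))
      rw [← hKA, ← hj, ← hR, ← hg] at h1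
      have h2 : (cnt R univ Ts ^ (p + 1) * Q) * n ^ 2 ≤ (2 * KA * g ^ (p + 1) * n ^ p) * n ^ 2 := by
        calc (cnt R univ Ts ^ (p + 1) * Q) * n ^ 2 = (cnt R univ Ts ^ (p + 1) * n ^ (1 + 1)) * Q := by ring
          _ ≤ (KA * g ^ (p + 1) * n ^ (p + 1) * (2 * n / Q) ^ 1) * Q := mul_le_mul_of_nonneg_right h1 hQ0.le
          _ = (2 * KA * g ^ (p + 1) * n ^ p) * n ^ 2 := by
              rw [pow_one, pow_succ n p]
              field_simp
      exact le_of_mul_le_mul_right h2 (by positivity)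
    -- the large classes
    have hsymm : ∀ y y' : Y, DegLE d (fun x => f y x - f y' x) → DegLE d (fun x => f y' x - f y x) := by
      intro y y' h
      have h1 := (degLE_const (d := d) (G := G) (0 : H)).sub h
      have e : (fun z : G => (0 : H) - (f y z - f y' z)) = fun x => f y' x - f y x := by
        funext z
        rw [zero_sub, neg_sub]
      rwa [e] at h1
    have htrans : ∀ y y' y'' : Y, DegLE d (fun x => f y x - f y' x) → DegLE d (fun x => f y' x - f y'' x) →
        DegLE d (fun x => f y x - f y'' x) := by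
      intro y y' y'' h h'
      have h1 := h.add h'
      have e : (fun z : G => (f y z - f y' z) + (f y' z - f y'' z)) = fun x => f y x - f y'' x := by
        funext z
        rw [sub_add_sub_cancel]
      rwa [e] at h1
    have hrefl : ∀ y : Y, DegLE d (fun x => f y x - f y x) := by
      intro y
      have e : (fun x => f y x - f y x) = fun _ : G => (0 : H) := by
        funext z
        rw [sub_self]
      rw [e]
      exact degLE_const 0
    have hb : cnt R univ Tb ^ (p + 1) * Q ≤ K' * g ^ (p + 1) * n ^ p := by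
      set 𝒞 : Finset (Finset Y) := Tb.image cls with h𝒞
      have hCT : ∀ C ∈ 𝒞, C ⊆ T := by
        intro C hC
        obtain ⟨y, _, rfl⟩ := mem_image.1 hC
        exact filter_subset _ _
      have hCbig : ∀ C ∈ 𝒞, n / Q ^ 2 ≤ (C.card : ℝ) := by
        intro C hC
        obtain ⟨y, hy, rfl⟩ := mem_image.1 hC
        exact (not_le.1 (mem_filter.1 hy).2).le
      have hCdeg : ∀ C ∈ 𝒞, ∀ y ∈ C, ∀ y' ∈ C, DegLE d (fun x => f y x - f y' x) := by
        intro C hC y hy y' hy'
        obtain ⟨z, _, rfl⟩ := mem_image.1 hC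
        exact htrans _ _ _ (hsymm _ _ (mem_filter.1 hy).2) (mem_filter.1 hy').2
      have hdisj : ∀ C ∈ 𝒞, ∀ C' ∈ 𝒞, C ≠ C' → Disjoint C C' := by
        intro C hC C' hC' hne
        obtain ⟨z, _, rfl⟩ := mem_image.1 hC
        obtain ⟨z', _, rfl⟩ := mem_image.1 hC'
        rw [disjoint_left]
        intro y hy hy'
        apply hne
        have h1 := (mem_filter.1 hy).2
        have h2 := (mem_filter.1 hy').2
        have h3 := htrans _ _ _ h1 (hsymm _ _ h2)
        refine filter_congr fun w _ => ?_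
        exact ⟨fun h => htrans _ _ _ (hsymm _ _ h3) h, fun h => htrans _ _ _ h3 h⟩
      have hcover : Tb ⊆ 𝒞.biUnion id := by
        intro y hy
        exact mem_biUnion.2 ⟨cls y, mem_image_of_mem _ hy, mem_filter.2 ⟨(mem_filter.1 hy).1, hrefl y⟩⟩
      have hcardC : (𝒞.card : ℝ) ≤ Q ^ 2 := by
        have h1 : (∑ C ∈ 𝒞, C.card) ≤ T.card := by
          rw [← card_biUnion fun C hC C' hC' hne => hdisj C hC C' hC' hne]
          exact card_le_card (biUnion_subset.2 hCT)
        have h2 : (𝒞.card : ℝ) * (n / Q ^ 2) ≤ n := by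
          calc (𝒞.card : ℝ) * (n / Q ^ 2) = ∑ _C ∈ 𝒞, n / Q ^ 2 := by rw [sum_const, nsmul_eq_mul]
            _ ≤ ∑ C ∈ 𝒞, (C.card : ℝ) := sum_le_sum hCbig
            _ ≤ T.card := by exact_mod_cast h1
            _ ≤ n := hTn
        rw [mul_div_assoc', div_le_iff₀ (by positivity)] at h2
        have h3 : n * (𝒞.card : ℝ) ≤ n * Q ^ 2 := by linarith
        exact le_of_mul_le_mul_left h3 hn0
      have hsum : cnt R univ Tb ≤ ∑ C ∈ 𝒞, cnt R univ C := by
        unfold cnt
        rw [← Nat.cast_sum]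
        refine Nat.cast_le.2 ?_
        calc (∑ y ∈ Tb, (univ.filter fun x => R x y).card) ≤
              ∑ y ∈ 𝒞.biUnion id, (univ.filter fun x => R x y).card := sum_le_sum_of_subset hcover
          _ = ∑ C ∈ 𝒞, ∑ y ∈ C, (univ.filter fun x => R x y).card :=
              sum_biUnion fun C hC C' hC' hne => hdisj C hC C' hC' hne
      have hIH : ∀ C ∈ 𝒞, cnt R univ C ^ (p + 1) * Q ^ (2 * (p + 1) + 1) ≤ K' * g ^ (p + 1) * n ^ p := by
        intro C hC
        refine hK' G Y H S C f u η n (Q ^ (2 * (p + 1) + 1)) (hCdeg C hC)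
          (fun y hy y' hy' => hsep y (hCT C hC hy) y' (hCT C hC hy')) (hfree.mono (subset_univ _) (hCT C hC))
          (one_le_pow₀ hQ1) ?_ ?_ (le_trans (by exact_mod_cast card_le_card (hCT C hC)) hTn) hng
        · rw [← pow_mul]
          exact hQn
        · rw [← pow_mul]
          refine hη.trans (le_of_eq ?_)
          congr 2
          ring
      have h0 : ∀ C ∈ 𝒞, 0 ≤ cnt R univ C := fun C _ => cnt_nonneg _ _ _
      have h1 : (∑ C ∈ 𝒞, cnt R univ C) ^ (p + 1) ≤ (𝒞.card : ℝ) ^ p * ∑ C ∈ 𝒞, cnt R univ C ^ (p + 1) :=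
        pow_sum_le_card_mul_sum_pow h0 p
      have h2 : (cnt R univ Tb ^ (p + 1) * Q) * Q ^ (2 * (p + 1)) ≤ (K' * g ^ (p + 1) * n ^ p) * Q ^ (2 * (p + 1)) := by
        calc (cnt R univ Tb ^ (p + 1) * Q) * Q ^ (2 * (p + 1)) = cnt R univ Tb ^ (p + 1) * Q ^ (2 * (p + 1) + 1) := by
              ring
          _ ≤ (∑ C ∈ 𝒞, cnt R univ C) ^ (p + 1) * Q ^ (2 * (p + 1) + 1) := by
              have := cnt_nonneg R univ Tb
              gcongr
          _ ≤ ((𝒞.card : ℝ) ^ p * ∑ C ∈ 𝒞, cnt R univ C ^ (p + 1)) * Q ^ (2 * (p + 1) + 1) := by gcongr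
          _ = (𝒞.card : ℝ) ^ p * ∑ C ∈ 𝒞, cnt R univ C ^ (p + 1) * Q ^ (2 * (p + 1) + 1) := by
              rw [mul_assoc, sum_mul]
          _ ≤ (𝒞.card : ℝ) ^ p * ∑ _C ∈ 𝒞, K' * g ^ (p + 1) * n ^ p :=
              mul_le_mul_of_nonneg_left (sum_le_sum hIH) (by positivity)
          _ = (𝒞.card : ℝ) ^ (p + 1) * (K' * g ^ (p + 1) * n ^ p) := by
              rw [sum_const, nsmul_eq_mul]
              ring
          _ ≤ (Q ^ 2) ^ (p + 1) * (K' * g ^ (p + 1) * n ^ p) := by gcongr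
          _ = _ := by
              rw [← pow_mul]
              ring
      exact le_of_mul_le_mul_right h2 (by positivity)
    have hsplit : cnt R univ T = cnt R univ Ts + cnt R univ Tb := by
      rw [cnt_dg, cnt_dg, cnt_dg]
      exact (sum_filter_add_sum_filter_not T _ _).symm
    have h1 : (cnt R univ Ts + cnt R univ Tb) ^ (p + 1) ≤
        2 ^ p * (cnt R univ Ts ^ (p + 1) + cnt R univ Tb ^ (p + 1)) :=
      add_pow_le (cnt_nonneg _ _ _) (cnt_nonneg _ _ _) (p + 1)
    rw [hsplit]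
    calc (cnt R univ Ts + cnt R univ Tb) ^ (p + 1) * Q ≤
          (2 ^ p * (cnt R univ Ts ^ (p + 1) + cnt R univ Tb ^ (p + 1))) * Q := mul_le_mul_of_nonneg_right h1 hQ0.le
      _ = 2 ^ p * (cnt R univ Ts ^ (p + 1) * Q + cnt R univ Tb ^ (p + 1) * Q) := by ring
      _ ≤ 2 ^ p * (2 * KA * g ^ (p + 1) * n ^ p + K' * g ^ (p + 1) * n ^ p) := by gcongr
      _ = _ := by ring

end Pool.Agent.K7.H41.AE
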