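import Pool.Agent.K7.H41.AE.Graph
import Pool.Agent.K7.H41.AE.Sep

/-!
# Graphs defined by equations of bounded degree in one of the two vertices
-/

set_option autoImplicit false

namespace Pool.Agent.K7.H41.AE

open Finset Pool.Agent.K7.H41.BE

namespace Eqn

variable {V : Type}

/-- all prime factors of the order of the group are at least `Q` -/
def LargePrimes (E : Eqn V) (Q : ℝ) : Prop := ∀ p : ℕ, p.Prime → p ∣ Fintype.card E.G → Q ≤ p

/-- the groups `G`, `H` are vector spaces over a finite field with at least `Q` elements, and the maps `f_y` are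
polynomials of degree at most `D` on all lines of `G` -/
def OverField (E : Eqn V) (D : ℕ) (Q : ℝ) : Prop :=
  ∃ (F : Type) (_ : Field F) (_ : Fintype F) (_ : Module F E.G) (_ : Module F E.H),
    Q ≤ Fintype.card F ∧ ∀ y, LineDeg F D (E.f y)

theorem sepOn (E : Eqn V) [Fintype V] (d D : ℕ) (Q : ℝ) (hQ : 0 < Q) (hdeg : E.DegreeLE d)
    (h : E.LargePrimes Q ∨ E.OverField D Q) : SepOn univ E.f (((d : ℝ) + 2 * D) / Q) := by
  classical
  intro y _ y' _ j hj hnj
  have hjd : j + 1 ≤ d := by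
    by_contra hcon
    exact hnj (DegLE.mono (by omega) ((hdeg y).sub (hdeg y')))
  have hg : (0 : ℝ) ≤ (Fintype.card E.G : ℝ) ^ (j + 1) := by positivity
  rcases h with h | ⟨F, _, _, _, _, hF, hL⟩
  · refine (zeros_primes Q hQ h j _ hj hnj).trans (mul_le_mul_of_nonneg_right ?_ hg)
    refine div_le_div_of_nonneg_right ?_ hQ.le
    have h1 : ((j + 1 : ℕ) : ℝ) ≤ d := by exact_mod_cast hjd
    have h2 : (0 : ℝ) ≤ D := Nat.cast_nonneg _
    linarith
  · have h1 := zeros_field (F := F) (D := D) j (fun x => E.f y x - E.f y' x) ((hL y).sub (hL y')) hj hnj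
    have h2 : (2 : ℝ) ≤ Fintype.card F := by
      exact_mod_cast Fintype.one_lt_card (α := F)
    have h3 : Q / 2 ≤ (Fintype.card F : ℝ) - 1 := by linarith
    set X := sumT (j + 1) (fun l : List E.G => if diff (fun x => E.f y x - E.f y' x) l 0 = 0 then (1 : ℝ) else 0)
      with hX
    have hX0 : 0 ≤ X := by
      have h4 := sumT_mono (j + 1) (fun _ : List E.G => (0 : ℝ))
        (fun l : List E.G => if diff (fun x => E.f y x - E.f y' x) l 0 = 0 then (1 : ℝ) else 0) (fun l _ => by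
          show (0 : ℝ) ≤ if diff (fun x => E.f y x - E.f y' x) l 0 = 0 then (1 : ℝ) else 0
          split_ifs <;> norm_num)
      rw [sumT_const, mul_zero] at h4
      exact h4
    have h4 : Q / 2 * X ≤ D * (Fintype.card E.G : ℝ) ^ (j + 1) :=
      (mul_le_mul_of_nonneg_right h3 hX0).trans h1
    rw [div_mul_eq_mul_div, le_div_iff₀ hQ]
    have h5 : (0 : ℝ) ≤ d * (Fintype.card E.G : ℝ) ^ (j + 1) := by positivity
    linarith

end Eqn

section rel

variable {V : Type} [Fintype V]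

open Classical in
/-- the relation on the group -/
theorem holds_Rl (E : Eqn V) (x y : V) :
    Rl ((univ : Finset V).image E.a) E.f (Function.extend E.a E.u 0) (E.a x) y ↔ E.Holds x y := by
  show (E.a x ∈ (univ : Finset V).image E.a ∧ E.f y (E.a x) = Function.extend E.a E.u 0 (E.a x)) ↔ _
  rw [E.inj.extend_apply]
  exact ⟨fun h => h.2, fun h => ⟨mem_image_of_mem _ (mem_univ x), h⟩⟩

open Classical in
theorem cnt_Rl (E : Eqn V) :
    cnt (Rl ((univ : Finset V).image E.a) E.f (Function.extend E.a E.u 0)) univ univ = cnt E.Holds univ univ := by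
  rw [← cnt_image _ E.Holds E.a E.inj (holds_Rl E)]
  unfold cnt
  congr 1
  refine sum_congr rfl fun y _ => ?_
  congr 1
  ext z
  rw [mem_filter, mem_filter]
  exact ⟨fun h => ⟨h.2.1, h.2⟩, fun h => ⟨mem_univ _, h.2⟩⟩

open Classical in
theorem KFree_Rl (E : Eqn V) {r s : ℕ} (h : KFree r s E.Holds univ univ) :
    KFree r s (Rl ((univ : Finset V).image E.a) E.f (Function.extend E.a E.u 0)) univ univ := by
  intro A' _ Z hZ hc hR
  rcases Z.eq_empty_or_nonempty with rfl | ⟨y0, hy0⟩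
  · simp
  refine KFree_image _ E.Holds E.a E.inj (holds_Rl E) _ s h A' ?_ Z hZ hc hR
  intro z hz
  exact (hR z hz y0 hy0).1

end rel

open Classical in
theorem cnt_le_sq {V : Type} [Fintype V] (R : V → V → Prop) :
    cnt R univ univ ≤ (Fintype.card V : ℝ) ^ 2 := by
  unfold cnt
  push_cast
  calc (∑ y : V, ((univ.filter fun x => R x y).card : ℝ)) ≤ ∑ _y : V, (Fintype.card V : ℝ) :=
        sum_le_sum fun y _ => by exact_mod_cast card_le_univ _
    _ = _ := by
        rw [sum_const, nsmul_eq_mul, card_univ, sq]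

/-- **Equations of degree `d` in one of the vertices, `r ≥ 2 ^ (d + 1)`.** -/
theorem graph_large (r s d D m : ℕ) (C ε : ℝ) (hr : 2 ^ (d + 1) ≤ r) (hε : 0 < ε) :
    ∃ K δ : ℝ, 0 < K ∧ 0 < δ ∧ ∀ (V : Type) [Fintype V] (Γ : SimpleGraph V) (E : Fin m → Eqn V),
      (∀ i, (E i).SizeLE (C * Fintype.card V)) → (∀ i, (E i).DegreeLE d) →
      (∀ i, (E i).LargePrimes ((Fintype.card V : ℝ) ^ ε) ∨ (E i).OverField D ((Fintype.card V : ℝ) ^ ε)) →
      (∀ x y, x ≠ y → (Γ.Adj x y ↔ ∃ i, (E i).Holds x y ∨ (E i).Holds y x)) →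
      (completeBipartiteGraph (Fin r) (Fin s)).Free Γ →
      (Nat.card Γ.edgeSet : ℝ) ≤ K * (Fintype.card V : ℝ) ^ (2 - 1 / (r : ℝ) - δ) := by
  classical
  obtain ⟨p, rfl⟩ : ∃ p, r = p + 1 := ⟨r - 1, by
    have : 0 < 2 ^ (d + 1) := by positivity
    omega⟩
  obtain ⟨K', hK'0, hK'⟩ := sep_bound p (p + 1 + s) d hr
  obtain ⟨C₁, hC₁, hCC⟩ : ∃ C₁ : ℝ, 1 ≤ C₁ ∧ C ≤ C₁ := ⟨max 1 C, le_max_left _ _, le_max_right _ _⟩
  have hC0 : 0 < C₁ := by linarith
  obtain ⟨c₁, hc₁, hBc⟩ : ∃ c₁ : ℝ, 1 ≤ c₁ ∧ (d : ℝ) + 2 * D ≤ c₁ := ⟨max 1 _, le_max_left _ _, le_max_right _ _⟩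
  have hc0 : 0 < c₁ := by linarith
  obtain ⟨ε₁, hε₁, hε1, hε2⟩ : ∃ ε₁ : ℝ, 0 < ε₁ ∧ ε₁ ≤ 1 ∧ 2 * ε₁ ≤ ε :=
    ⟨min 1 (ε / 2), lt_min one_pos (by positivity), min_le_left _ _, by
      have := min_le_right 1 (ε / 2)
      linarith⟩
  obtain ⟨N, hN⟩ : ∃ N : ℕ, N = (2 * (p + 1) + 1) ^ d := ⟨_, rfl⟩
  have hN0 : N ≠ 0 := by
    rw [hN]
    positivity
  have hN0' : (N : ℝ) ≠ 0 := by exact_mod_cast hN0
  have hNpos : (0 : ℝ) < N := by exact_mod_cast Nat.pos_of_ne_zero hN0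
  have hr0 : ((p + 1 : ℕ) : ℝ) ≠ 0 := by positivity
  have hrpos : (0 : ℝ) < ((p + 1 : ℕ) : ℝ) := by positivity
  set δ : ℝ := ε₁ / (N * (p + 1 : ℕ)) with hδ
  have hδ0 : 0 < δ := by positivity
  set K₂ : ℝ := (K' * C₁ ^ (p + 1) * c₁ ^ (1 / (N : ℝ))) ^ (1 / ((p + 1 : ℕ) : ℝ)) with hK₂
  have hK₂0 : 0 < K₂ := by positivity
  set K₁ : ℝ := (c₁ ^ (1 / ε₁)) ^ (1 / ((p + 1 : ℕ) : ℝ) + δ) with hK₁
  have hK₁0 : 0 < K₁ := by positivity
  refine ⟨(m + 1) * (K₁ + K₂), δ, by positivity, hδ0, ?_⟩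
  intro V _ Γ E hsize hdeg hlarge hadj hfree
  rcases isEmpty_or_nonempty V with hV | hV
  · have h0 : Nat.card Γ.edgeSet = 0 := by
      have : IsEmpty Γ.edgeSet := by
        refine ⟨fun e => ?_⟩
        obtain ⟨e, he⟩ := e
        induction e using Sym2.ind with
        | _ x y => exact hV.false x
      exact Nat.card_of_isEmpty
    rw [h0, Nat.cast_zero]
    exact mul_nonneg (by positivity) (Real.rpow_nonneg (Nat.cast_nonneg _) _)
  set n : ℝ := (Fintype.card V : ℝ) with hn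
  have hn1 : 1 ≤ n := by
    rw [hn]
    exact_mod_cast Fintype.card_pos
  have hn0 : 0 < n := by linarith
  have hpow0 : 0 < n ^ (2 - 1 / ((p + 1 : ℕ) : ℝ) - δ) := by positivity
  have hcnt : ∀ i, cnt (E i).Holds univ univ ≤ (K₁ + K₂) * n ^ (2 - 1 / ((p + 1 : ℕ) : ℝ) - δ) := by
    intro i
    rcases lt_or_ge (n ^ ε₁ / c₁) 1 with hL | hL
    · -- few vertices
      have h1 : n ^ ε₁ ≤ c₁ := by
        rw [div_lt_one hc0] at hL
        exact hL.le
      have h2 : n ≤ c₁ ^ (1 / ε₁) := by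
        have h3 : n = (n ^ ε₁) ^ (1 / ε₁) := by
          rw [← Real.rpow_mul hn0.le, mul_one_div_cancel hε₁.ne', Real.rpow_one]
        rw [h3]
        exact Real.rpow_le_rpow (by positivity) h1 (by positivity)
      have h3 : n ^ (1 / ((p + 1 : ℕ) : ℝ) + δ) ≤ K₁ := Real.rpow_le_rpow hn0.le h2 (by positivity)
      have h4 : n ^ 2 = n ^ (1 / ((p + 1 : ℕ) : ℝ) + δ) * n ^ (2 - 1 / ((p + 1 : ℕ) : ℝ) - δ) := by
        rw [← Real.rpow_add hn0, ← Real.rpow_natCast]
        congr 1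
        push_cast
        ring
      calc cnt (E i).Holds univ univ ≤ n ^ 2 := cnt_le_sq _
        _ = n ^ (1 / ((p + 1 : ℕ) : ℝ) + δ) * n ^ (2 - 1 / ((p + 1 : ℕ) : ℝ) - δ) := h4
        _ ≤ (K₁ + K₂) * n ^ (2 - 1 / ((p + 1 : ℕ) : ℝ) - δ) := by
            refine mul_le_mul_of_nonneg_right ?_ hpow0.le
            linarith
    · -- many vertices
      set L : ℝ := n ^ ε₁ / c₁ with hLdef
      have hL0 : 0 < L := by linarith
      set Q : ℝ := L ^ (1 / (N : ℝ)) with hQ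
      have hQ1 : 1 ≤ Q := Real.one_le_rpow hL (by positivity)
      have hQ0 : 0 < Q := by linarith
      have hQN : Q ^ N = L := by
        rw [hQ, ← Real.rpow_natCast, ← Real.rpow_mul hL0.le, one_div_mul_cancel hN0', Real.rpow_one]
      have hLn : L ≤ n := by
        rw [hLdef, div_le_iff₀ hc0]
        calc n ^ ε₁ ≤ n ^ (1 : ℝ) := Real.rpow_le_rpow_of_exponent_le hn1 hε1
          _ = n := Real.rpow_one n
          _ ≤ n * c₁ := le_mul_of_one_le_right hn0.le hc₁
      have hη : ((d : ℝ) + 2 * D) / n ^ ε ≤ 1 / Q ^ (2 * (2 * (p + 1) + 1) ^ d) := by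
        rw [← hN, mul_comm 2 N, pow_mul, hQN, hLdef, div_pow, one_div_div, div_le_div_iff₀ (by positivity) (by positivity)]
        have h1 : (n ^ ε₁) ^ 2 ≤ n ^ ε := by
          rw [← Real.rpow_natCast, ← Real.rpow_mul hn0.le]
          refine Real.rpow_le_rpow_of_exponent_le hn1 ?_
          push_cast
          linarith
        have h2 : (d : ℝ) + 2 * D ≤ c₁ ^ 2 := hBc.trans (by nlinarith)
        have h3 : (0 : ℝ) ≤ (d : ℝ) + 2 * D := by positivity
        exact mul_le_mul h2 h1 (by positivity) (by positivity)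
      have hng : n ≤ Fintype.card (E i).G := by
        rw [hn]
        exact_mod_cast Fintype.card_le_of_injective (E i).a (E i).inj
      have hgC : (Fintype.card (E i).G : ℝ) ≤ C₁ * n :=
        le_trans (hsize i) (mul_le_mul_of_nonneg_right hCC hn0.le)
      have hsep := (E i).sepOn d D (n ^ ε) (by positivity) (hdeg i) (hlarge i)
      have hKf := KFree_Rl (E i) (KFree_of_free Γ (p + 1) s hfree (E i).Holds
        (fun x y hxy h => (hadj x y hxy).2 ⟨i, Or.inl h⟩) univ univ)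
      have h1 := hK' (E i).G V (E i).H ((univ : Finset V).image (E i).a) univ (E i).f
        (Function.extend (E i).a (E i).u 0) _ n Q (fun y _ y' _ => (hdeg i y).sub (hdeg i y')) hsep hKf hQ1
        (by rw [← hN, hQN]; exact hLn) hη (by rw [card_univ]) hng
      rw [cnt_Rl] at h1
      have hc0' : 0 ≤ cnt (E i).Holds univ univ := cnt_nonneg _ _ _
      have h2 : cnt (E i).Holds univ univ ^ (p + 1) ≤ K' * C₁ ^ (p + 1) * n ^ (2 * p + 1) / Q := by
        rw [le_div_iff₀ hQ0]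
        refine h1.trans ?_
        calc K' * (Fintype.card (E i).G : ℝ) ^ (p + 1) * n ^ p ≤ K' * (C₁ * n) ^ (p + 1) * n ^ p := by gcongr
          _ = K' * C₁ ^ (p + 1) * n ^ (2 * p + 1) := by
              rw [mul_pow]
              ring
      have h3 : K' * C₁ ^ (p + 1) * n ^ (2 * p + 1) / Q = (K₂ * n ^ (2 - 1 / ((p + 1 : ℕ) : ℝ) - δ)) ^ (p + 1) := by
        have e1 : K₂ ^ (p + 1) = K' * C₁ ^ (p + 1) * c₁ ^ (1 / (N : ℝ)) := by
          rw [hK₂, ← Real.rpow_natCast, ← Real.rpow_mul (by positivity), one_div_mul_cancel hr0, Real.rpow_one]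
        have e2 : (n ^ (2 - 1 / ((p + 1 : ℕ) : ℝ) - δ)) ^ (p + 1) = n ^ (2 * p + 1) / n ^ (ε₁ / N) := by
          rw [← Real.rpow_natCast, ← Real.rpow_mul hn0.le, ← Real.rpow_natCast n (2 * p + 1), ← Real.rpow_sub hn0]
          congr 1
          rw [hδ]
          push_cast
          field_simp
          ring
        have e3 : Q = n ^ (ε₁ / N) / c₁ ^ (1 / (N : ℝ)) := by
          rw [hQ, hLdef, Real.div_rpow (by positivity) hc0.le, ← Real.rpow_mul hn0.le]
          congr 2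
          ring
        rw [mul_pow, e1, e2, e3]
        field_simp
      have h4 : cnt (E i).Holds univ univ ≤ K₂ * n ^ (2 - 1 / ((p + 1 : ℕ) : ℝ) - δ) := by
        refine le_of_pow_le_pow_left₀ (n := p + 1) (by omega) (by positivity) ?_
        rw [← h3]
        exact h2
      refine h4.trans (mul_le_mul_of_nonneg_right ?_ hpow0.le)
      linarith
  have h1 := edges_le_symm Γ (fun i => (E i).Holds) (fun x y h => (hadj x y h.ne).1 h) _ hcnt
  refine h1.trans ?_
  have h2 : 0 ≤ (K₁ + K₂) * n ^ (2 - 1 / ((p + 1 : ℕ) : ℝ) - δ) := by positivity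
  calc (m : ℝ) * ((K₁ + K₂) * n ^ (2 - 1 / ((p + 1 : ℕ) : ℝ) - δ)) ≤
        (m + 1) * ((K₁ + K₂) * n ^ (2 - 1 / ((p + 1 : ℕ) : ℝ) - δ)) := by
          refine mul_le_mul_of_nonneg_right ?_ h2
          linarith
    _ = _ := by ring

end Pool.Agent.K7.H41.AE
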