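import Pool.Agent.K7.H41.AE.Degree

/-!
# The number of pairs of a relation without large complete parts, of bounded degree in one variable
-/

set_option autoImplicit false

namespace Pool.Agent.K7.H41.AE

open Finset Pool.Agent.K7.H41.BE

section red

variable {G Y : Type} [Fintype G]

open Classical in
/-- if the degrees are large, then fewer elements suffice -/
theorem reduce_free {s : ℕ} (R : G → Y → Prop) (Z : Finset Y) (ν : ℝ) (hν : 0 ≤ ν) :
    ∀ (j : ℕ) (A : Finset G), KFree (A.card + j) s R univ Z → (∀ x ∈ A, ∀ y ∈ Z, R x y) →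
      (∀ y ∈ Z, ν + (A.card + j : ℕ) ≤ dg R y) → (Z.card : ℝ) * ν ^ j ≤ s * (Fintype.card G : ℝ) ^ j := by
  intro j
  induction j generalizing Z with
  | zero =>
    intro A hfree hA _
    have := hfree A (subset_univ _) Z (Subset.refl _) rfl hA
    simpa using this
  | succ j ih =>
    intro A hfree hA hdeg
    set g : ℝ := (Fintype.card G : ℝ) with hg
    have hg0 : 0 ≤ g := Nat.cast_nonneg _
    have h1 : ∀ x ∈ univ \ A, (((Z.filter fun y => R x y).card : ℕ) : ℝ) * ν ^ j ≤ s * g ^ j := by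
      intro x hx
      have hxA : x ∉ A := (mem_sdiff.1 hx).2
      have hcard : (insert x A).card = A.card + 1 := card_insert_of_notMem hxA
      refine ih (Z.filter fun y => R x y) (insert x A) ?_ ?_ ?_
      · rw [hcard]
        have h2 : KFree (A.card + (j + 1)) s R univ (Z.filter fun y => R x y) := hfree.mono (subset_univ _) (filter_subset _ _)
        rwa [add_assoc, add_comm 1 j]
      · intro x' hx' y hy
        rcases mem_insert.1 hx' with rfl | hx'
        · exact (mem_filter.1 hy).2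
        · exact hA x' hx' y (mem_filter.1 hy).1
      · intro y hy
        rw [hcard]
        have h3 := hdeg y (mem_filter.1 hy).1
        push_cast at h3 ⊢
        linarith
    have h2 : ∀ y ∈ Z, ν ≤ (((univ \ A).filter fun x => R x y).card : ℝ) := by
      intro y hy
      have h3 := hdeg y hy
      have h4 : dg R y = (((univ \ A).filter fun x => R x y).card : ℝ) + ((A.filter fun x => R x y).card : ℝ) := by
        unfold dg nb
        rw [← Nat.cast_add, ← card_union_of_disjoint]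
        · congr 2
          ext x
          simp only [mem_filter, mem_univ, true_and, mem_union, mem_sdiff]
          tauto
        · rw [disjoint_left]
          intro x hx hx'
          exact (mem_sdiff.1 (mem_filter.1 hx).1).2 (mem_filter.1 hx').1
      have h5 : ((A.filter fun x => R x y).card : ℝ) ≤ A.card := by exact_mod_cast card_filter_le _ _
      push_cast at h3
      have h6 : (0 : ℝ) ≤ j := Nat.cast_nonneg _
      linarith
    have h3 : (Z.card : ℝ) * ν ≤ ∑ x ∈ univ \ A, ((Z.filter fun y => R x y).card : ℝ) := by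
      calc (Z.card : ℝ) * ν = ∑ _y ∈ Z, ν := by rw [sum_const, nsmul_eq_mul]
        _ ≤ ∑ y ∈ Z, (((univ \ A).filter fun x => R x y).card : ℝ) := sum_le_sum h2
        _ = ∑ x ∈ univ \ A, ((Z.filter fun y => R x y).card : ℝ) := by
            simp only [card_filter]
            push_cast
            rw [sum_comm]
    calc (Z.card : ℝ) * ν ^ (j + 1) = (Z.card * ν) * ν ^ j := by ring
      _ ≤ (∑ x ∈ univ \ A, ((Z.filter fun y => R x y).card : ℝ)) * ν ^ j :=
          mul_le_mul_of_nonneg_right h3 (pow_nonneg hν j)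
      _ = ∑ x ∈ univ \ A, ((Z.filter fun y => R x y).card : ℝ) * ν ^ j := sum_mul _ _ _
      _ ≤ ∑ _x ∈ univ \ A, s * g ^ j := sum_le_sum h1
      _ = (univ \ A).card * (s * g ^ j) := by rw [sum_const, nsmul_eq_mul]
      _ ≤ g * (s * g ^ j) := by
          refine mul_le_mul_of_nonneg_right ?_ (by positivity)
          rw [hg]
          exact_mod_cast card_le_univ _
      _ = s * g ^ (j + 1) := by ring

open Classical in
theorem reduce_KFree {s a j : ℕ} (R : G → Y → Prop) (T : Finset Y) (ν : ℝ) (hν : 0 < ν)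
    (hfree : KFree (a + j) s R univ T) (hdeg : ∀ y ∈ T, ν + (a + j : ℕ) ≤ dg R y) :
    KFree a ⌊(s : ℝ) * (Fintype.card G / ν) ^ j⌋₊ R univ T := by
  intro A hA Z hZ hc hR
  refine Nat.le_floor ?_
  subst hc
  have h1 := reduce_free R Z ν hν.le j A (hfree.mono (subset_univ _) hZ) hR (fun y hy => hdeg y (hZ hy))
  rw [div_pow, mul_div_assoc', le_div_iff₀ (by positivity)]
  exact h1

end red

/-- the computation with real numbers -/
theorem real_heavy (a j k : ℕ) (A s g t t' n e e' μ D : ℝ) (s' : ℕ) (hk : k + 1 ≤ a) (hA : 0 ≤ A) (hs : 0 ≤ s)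
    (hg : 0 < g) (ht' : 0 < t') (htt : t' ≤ t) (htn : t ≤ n) (he : 0 < e) (hegt : e ≤ g * t)
    (hee : e / 2 ≤ e') (hμ : 1 ≤ μ)
    (hs' : (s' : ℝ) ≤ s * (4 * g * t / e) ^ j) (hD : D ^ (k + 1) ≤ (4 * s' * 2 ^ k + (4 * A) ^ (k + 1)) *
      ((μ / t') ^ k / t')) (heD : e' ^ a ≤ D ^ (k + 1) * (g * t') ^ a) :
    e ^ (a + j) * n ^ (k + 1) ≤ 2 ^ a * 4 ^ j * (4 * s * 2 ^ k + (4 * A) ^ (k + 1)) * g ^ (a + j) * n ^ (a + j) *
      μ ^ k := by
  obtain ⟨b, rfl⟩ : ∃ b, a = b + (k + 1) := ⟨a - (k + 1), by omega⟩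
  have ht : 0 < t := lt_of_lt_of_le ht' htt
  have hn : 0 < n := lt_of_lt_of_le ht htn
  have hμ0 : 0 < μ := by linarith
  set W : ℝ := (4 * g * t / e) ^ j with hW
  have hW1 : 1 ≤ W := by
    rw [hW]
    refine one_le_pow₀ ?_
    rw [le_div_iff₀ he]
    have : 0 ≤ g * t := by positivity
    linarith
  have h1 : 4 * (s' : ℝ) * 2 ^ k + (4 * A) ^ (k + 1) ≤ (4 * s * 2 ^ k + (4 * A) ^ (k + 1)) * W := by
    have h2 : 4 * (s' : ℝ) * 2 ^ k ≤ 4 * s * 2 ^ k * W := by
      calc 4 * (s' : ℝ) * 2 ^ k ≤ 4 * (s * W) * 2 ^ k := by gcongr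
        _ = _ := by ring
    have h3 : (4 * A) ^ (k + 1) ≤ (4 * A) ^ (k + 1) * W := le_mul_of_one_le_right (by positivity) hW1
    rw [add_mul]
    linarith
  set B : ℝ := 4 * s * 2 ^ k + (4 * A) ^ (k + 1) with hB
  have hB0 : 0 ≤ B := by positivity
  have h2 : e' ^ (b + (k + 1)) ≤ B * W * μ ^ k * g ^ (b + (k + 1)) * t' ^ b := by
    refine heD.trans ?_
    calc D ^ (k + 1) * (g * t') ^ (b + (k + 1)) ≤
          ((4 * s' * 2 ^ k + (4 * A) ^ (k + 1)) * ((μ / t') ^ k / t')) * (g * t') ^ (b + (k + 1)) :=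
            mul_le_mul_of_nonneg_right hD (by positivity)
      _ ≤ (B * W * ((μ / t') ^ k / t')) * (g * t') ^ (b + (k + 1)) := by gcongr
      _ = B * W * μ ^ k * g ^ (b + (k + 1)) * t' ^ b := by
          rw [div_pow, mul_pow, pow_add t' b, pow_succ t' k]
          field_simp
  have h3 : e ^ (b + (k + 1)) ≤ 2 ^ (b + (k + 1)) * (B * W * μ ^ k * g ^ (b + (k + 1)) * n ^ b) := by
    have h4 : e ≤ 2 * e' := by linarith
    calc e ^ (b + (k + 1)) ≤ (2 * e') ^ (b + (k + 1)) := pow_le_pow_left₀ he.le h4 _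
      _ = 2 ^ (b + (k + 1)) * e' ^ (b + (k + 1)) := mul_pow _ _ _
      _ ≤ 2 ^ (b + (k + 1)) * (B * W * μ ^ k * g ^ (b + (k + 1)) * t' ^ b) := by gcongr
      _ ≤ 2 ^ (b + (k + 1)) * (B * W * μ ^ k * g ^ (b + (k + 1)) * n ^ b) := by
          gcongr
          exact htt.trans htn
  have h4 : W * e ^ j = (4 * g * t) ^ j := by
    rw [hW, div_pow]
    field_simp
  calc e ^ (b + (k + 1) + j) * n ^ (k + 1) = e ^ (b + (k + 1)) * e ^ j * n ^ (k + 1) := by rw [pow_add]
    _ ≤ (2 ^ (b + (k + 1)) * (B * W * μ ^ k * g ^ (b + (k + 1)) * n ^ b)) * e ^ j * n ^ (k + 1) := by gcongr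
    _ = 2 ^ (b + (k + 1)) * B * μ ^ k * g ^ (b + (k + 1)) * n ^ b * (W * e ^ j) * n ^ (k + 1) := by ring
    _ = 2 ^ (b + (k + 1)) * B * μ ^ k * g ^ (b + (k + 1)) * n ^ b * (4 * g * t) ^ j * n ^ (k + 1) := by rw [h4]
    _ ≤ 2 ^ (b + (k + 1)) * B * μ ^ k * g ^ (b + (k + 1)) * n ^ b * (4 * g * n) ^ j * n ^ (k + 1) := by gcongr
    _ = _ := by
        rw [mul_pow, mul_pow]
        ring

section thmA

variable {G Y H : Type} [AddCommGroup G] [AddCommGroup H] [Fintype G]

open Classical in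
/-- **The bound for one relation.** -/
theorem thmA {k s d j : ℕ} (hd : 1 ≤ d) (f : Y → G → H) (u : G → H) (v : Y → H) (R : G → Y → Prop)
    (hR : ∀ x y, R x y → f y x = u x + v y) (T : Finset Y) (hf : ∀ y, DegLE d (f y))
    (hfree : KFree (2 ^ d * (k + 1) + j) s R univ T) (M : List G → ℝ)
    (hM : ∀ l : List G, l.length = d → ∀ c : H, ((T.filter fun y => diff (f y) l 0 = c).card : ℝ) ≤ M l)
    (n μ : ℝ) (hTn : (T.card : ℝ) ≤ n) (hng : n ≤ Fintype.card G) (hn : 1 ≤ n) (hμ : 1 ≤ μ)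
    (hMs : sumT d M ≤ μ * (Fintype.card G : ℝ) ^ d) :
    cnt R univ T ^ (2 ^ d * (k + 1) + j) * n ^ (k + 1) ≤
      ((4 * ((2 ^ d * (k + 1) + j : ℕ) : ℝ)) ^ (2 ^ d * (k + 1) + j) +
        2 ^ (2 ^ d * (k + 1)) * 4 ^ j * (4 * s * 2 ^ k + (4 * (((k : ℝ) + 1 + d) * 4 ^ d)) ^ (k + 1))) *
      (Fintype.card G : ℝ) ^ (2 ^ d * (k + 1) + j) * n ^ (2 ^ d * (k + 1) + j) * μ ^ k := by
  set a : ℕ := 2 ^ d * (k + 1) with ha
  set r : ℕ := a + j with hr
  set g : ℝ := (Fintype.card G : ℝ) with hg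
  set t : ℝ := (T.card : ℝ) with ht
  set e : ℝ := cnt R univ T with he
  set A : ℝ := ((k : ℝ) + 1 + d) * 4 ^ d with hA
  set B : ℝ := 2 ^ a * 4 ^ j * (4 * s * 2 ^ k + (4 * A) ^ (k + 1)) with hB
  have hA0 : 0 ≤ A := by positivity
  have hB0 : 0 ≤ B := by positivity
  have hka : k + 1 ≤ a := by
    rw [ha]
    exact Nat.le_mul_of_pos_left _ (by positivity)
  have hg1 : 1 ≤ g := hn.trans hng
  have hg0 : 0 < g := by linarith
  have hn0 : 0 < n := by linarith
  have hμ0 : 0 < μ := by linarith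
  have he0 : 0 ≤ e := cnt_nonneg _ _ _
  have ht0 : 0 ≤ t := Nat.cast_nonneg _
  -- the trivial bound
  have hegt : e ≤ g * t := by
    rw [he]
    unfold cnt
    push_cast
    calc (∑ y ∈ T, ((univ.filter fun x => R x y).card : ℝ)) ≤ ∑ _y ∈ T, g := sum_le_sum fun y _ => by
          rw [hg]
          exact_mod_cast card_le_univ _
      _ = g * t := by rw [sum_const, nsmul_eq_mul, mul_comm]
  have hmono : ∀ X : ℝ, 0 ≤ X → ∀ Z : ℝ, 0 ≤ Z → (X + Z) * g ^ r * n ^ r * μ ^ k = X * g ^ r * n ^ r * μ ^ k + Z * g ^ r * n ^ r * μ ^ k :=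
    fun X _ Z _ => by ring
  rw [hmono _ (by positivity) _ hB0]
  rcases le_or_gt e (4 * r * t) with hsmall | hlarge
  · have h1 : e ^ r * n ^ (k + 1) ≤ (4 * (r : ℝ)) ^ r * g ^ r * n ^ r * μ ^ k := by
      have h2 : e ≤ 4 * r * n := hsmall.trans (mul_le_mul_of_nonneg_left hTn (by positivity))
      have h3 : n ^ (k + 1) ≤ g ^ r := by
        calc n ^ (k + 1) ≤ g ^ (k + 1) := pow_le_pow_left₀ hn0.le hng _
          _ ≤ g ^ r := pow_le_pow_right₀ hg1 (by omega)
      have h4 : 1 ≤ μ ^ k := one_le_pow₀ hμ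
      calc e ^ r * n ^ (k + 1) ≤ (4 * r * n) ^ r * g ^ r := by
            gcongr
        _ = (4 * (r : ℝ)) ^ r * g ^ r * n ^ r := by
            rw [mul_pow]
            ring
        _ ≤ (4 * (r : ℝ)) ^ r * g ^ r * n ^ r * μ ^ k := le_mul_of_one_le_right (by positivity) h4
    have h2 : 0 ≤ B * g ^ r * n ^ r * μ ^ k := by positivity
    linarith
  · have hepos : 0 < e := lt_of_le_of_lt (by positivity) hlarge
    have htpos : 0 < t := by
      rcases ht0.eq_or_lt with h | h
      · rw [← h, mul_zero] at hegt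
        linarith
      · exact h
    set ν : ℝ := e / (4 * t) with hν
    have hν0 : 0 < ν := by positivity
    have hνr : (r : ℝ) < ν := by
      rw [hν, lt_div_iff₀ (by positivity)]
      linarith
    set T' : Finset Y := T.filter fun y => 2 * ν ≤ dg R y with hT'
    set e' : ℝ := cnt R univ T' with he'
    have hee : e / 2 ≤ e' := by
      have h1 : e = e' + ∑ y ∈ T.filter (fun y => ¬ 2 * ν ≤ dg R y), dg R y := by
        rw [he, he', cnt_dg, cnt_dg, hT']
        exact (sum_filter_add_sum_filter_not T _ _).symm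
      have h2 : (∑ y ∈ T.filter (fun y => ¬ 2 * ν ≤ dg R y), dg R y) ≤ e / 2 := by
        calc (∑ y ∈ T.filter (fun y => ¬ 2 * ν ≤ dg R y), dg R y) ≤
              ∑ _y ∈ T.filter (fun y => ¬ 2 * ν ≤ dg R y), 2 * ν :=
                sum_le_sum fun y hy => (not_le.1 (mem_filter.1 hy).2).le
          _ = (T.filter (fun y => ¬ 2 * ν ≤ dg R y)).card * (2 * ν) := by rw [sum_const, nsmul_eq_mul]
          _ ≤ t * (2 * ν) := by
              refine mul_le_mul_of_nonneg_right ?_ (mul_nonneg zero_le_two hν0.le)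
              rw [ht]
              exact Nat.cast_le.2 (card_filter_le _ _)
          _ = e / 2 := by
              rw [hν]
              field_simp
              norm_num
      linarith
    have he'0 : 0 < e' := by linarith
    set t' : ℝ := (T'.card : ℝ) with ht'
    have htt : t' ≤ t := by
      rw [ht', ht]
      exact_mod_cast card_filter_le _ _
    have ht'0 : 0 < t' := by
      rcases (Nat.cast_nonneg (α := ℝ) T'.card).eq_or_lt with h | h
      · exfalso
        have h1 : T' = ∅ := by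
          rw [← card_eq_zero]
          exact_mod_cast h.symm
        have h2 : e' = 0 := by
          rw [he', h1]
          unfold cnt
          simp
        linarith
      · exact h
    have hfree' : KFree a ⌊(s : ℝ) * (Fintype.card G / ν) ^ j⌋₊ R univ T' := by
      refine reduce_KFree R T' ν hν0 (hfree.mono (subset_univ _) (filter_subset _ _)) ?_
      intro y hy
      have h1 := (mem_filter.1 hy).2
      have h2 : ((a + j : ℕ) : ℝ) < ν := hνr
      linarith
    set s' : ℕ := ⌊(s : ℝ) * (Fintype.card G / ν) ^ j⌋₊ with hs'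
    have hs'le : (s' : ℝ) ≤ s * (4 * g * t / e) ^ j := by
      have h1 : (s' : ℝ) ≤ (s : ℝ) * (Fintype.card G / ν) ^ j := Nat.floor_le (by positivity)
      refine h1.trans (le_of_eq ?_)
      rw [hν, ← hg]
      congr 2
      field_simp
    -- the bound for `T'`
    have hcs := gcs T' d R
    rw [← he', ← hg, ← ht'] at hcs
    set D : ℝ := (e' / (g * t')) ^ 2 ^ d with hD
    have hD0 : 0 < D := by positivity
    have hτ : ∀ τ : ℝ, 0 < τ → D ≤ A / t' + τ * (μ / t') + s' / (t' * τ ^ k) := by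
      intro τ hτ
      have h2 := rel_bound (k := k) (s := s') hd f u v R hR T' hf hfree' M (fun l hl c => le_trans (by
        exact_mod_cast card_le_card (filter_subset_filter _ (filter_subset _ _))) (hM l hl c)) τ hτ
      rw [← hA, ← hg, ← ht'] at h2
      have h3 : τ * g * sumT d M ≤ τ * g * (μ * g ^ d) := mul_le_mul_of_nonneg_left hMs (by positivity)
      have h4 : D * (g ^ (d + 1) * t') ≤ tot T' d R := by
        rw [hD, div_pow, div_mul_eq_mul_div, div_le_iff₀ (by positivity)]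
        calc e' ^ 2 ^ d * (g ^ (d + 1) * t') = e' ^ 2 ^ d * g ^ (d + 1) * t' := by ring
          _ ≤ _ := hcs
          _ = _ := mul_comm _ _
      have h5 : D ≤ (A * g ^ d * t' + τ * g * (μ * g ^ d) + s' * g ^ (d + 1) / τ ^ k) / (g ^ (d + 1) * t') := by
        rw [le_div_iff₀ (by positivity)]
        linarith
      refine h5.trans ?_
      have h6 : (A * g ^ d * t' + τ * g * (μ * g ^ d) + s' * g ^ (d + 1) / τ ^ k) / (g ^ (d + 1) * t') =
          A / g + τ * (μ / t') + s' / (t' * τ ^ k) := by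
        rw [pow_succ]
        field_simp
      rw [h6]
      have h7 : A / g ≤ A / t' := div_le_div_of_nonneg_left hA0 ht'0 (by linarith)
      linarith
    have h1 := real_D k A s' D (μ / t') t' hA0 (Nat.cast_nonneg _) hD0 ht'0
      (div_le_div_of_nonneg_right hμ ht'0.le) hτ
    have h2 : e' ^ a ≤ D ^ (k + 1) * (g * t') ^ a := by
      have h3 : e' = e' / (g * t') * (g * t') := by
        field_simp
      have h4 : e' ^ a = D ^ (k + 1) * (g * t') ^ a := by
        rw [hD, ← pow_mul, ← ha, ← mul_pow, ← h3]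
      exact h4.le
    have h3 := real_heavy a j k A s g t t' n e e' μ D s' hka hA0 (Nat.cast_nonneg _) hg0 ht'0 htt hTn hepos hegt
      hee hμ hs'le h1 h2
    have h4 : 0 ≤ (4 * (r : ℝ)) ^ r * g ^ r * n ^ r * μ ^ k := by positivity
    linarith

end thmA

end Pool.Agent.K7.H41.AE
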