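import Pool.Agent.K7.H41.BE.Bil

/-!
# Graphs defined by equations which are affine in one variable: the main inequality
-/

set_option autoImplicit false

namespace Pool.Agent.K7.H41.AE

open Finset Pool.Agent.K7.H41.BE

variable {G G' H : Type} [AddCommGroup G] [AddCommGroup H]

/-- the relation `L_y(x) = u(x) + v(y)` -/
def RelA (L : G' → G →+ H) (u : G → H) (v : G' → H) (x : G) (y : G') : Prop := L y x = u x + v y

variable [Fintype G]

section main

variable (L : G' → G →+ H) (u : G → H) (v : G' → H)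

open Classical in
/-- the number of `x` such that `x` and `x + h` are neighbours of `y` -/
noncomputable def dd (h : G) (y : G') : ℕ :=
  (univ.filter fun x => RelA L u v x y ∧ RelA L u v (x + h) y).card

open Classical in
/-- the number of `x` with `u(x + h) - u(x) = B(h, y)` -/
noncomputable def qq (h : G) (y : G') : ℕ := (univ.filter fun x => u (x + h) - u x = L y h).card

omit [Fintype G] in
theorem rel_shift {x h : G} {y : G'} (hx : RelA L u v x y) :
    RelA L u v (x + h) y ↔ u (x + h) - u x = L y h := by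
  unfold RelA at *
  rw [map_add, hx]
  constructor
  · intro e
    rw [sub_eq_iff_eq_add]
    have : u x + v y + L y h = u (x + h) + v y := e
    have h2 : u x + L y h + v y = u (x + h) + v y := by rw [← this]; abel
    rw [← add_right_cancel h2]
    abel
  · intro e
    rw [← e]
    abel

open Classical in
/-- **One direction.** -/
theorem one_direction {k s : ℕ} (F : Finset G) (Y : Finset G')
    (hfree : KFree (2 * (k + 1)) s (RelA L u v) Fᶜ Y) (h : G) (hh : h ≠ 0) (τ : ℝ) (hτ : 0 < τ) :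
    ((∑ y ∈ Y, dd L u v h y : ℕ) : ℝ) ≤ (3 * (k + 1) + 2 * F.card) * Y.card +
      τ * ((∑ y ∈ Y, qq L u h y : ℕ) : ℝ) + s * Fintype.card G / τ ^ k := by
  -- the classes
  let I : Finset H := Y.image fun y : G' => L y h
  let Yc : H → Finset G' := fun c => Y.filter fun y => L y h = c
  let Xc : H → Finset G := fun c => univ.filter fun x => u (x + h) - u x = c
  let Bad : Finset G := F ∪ F.image (· - h)
  let D : G' → Finset G := fun y => (univ.filter fun x => RelA L u v x y ∧ RelA L u v (x + h) y) \ Bad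
  have hBad : Bad.card ≤ 2 * F.card := by
    have h1 := card_union_le F (F.image (· - h))
    have h2 := card_image_le (s := F) (f := (· - h))
    show (F ∪ F.image (· - h)).card ≤ _
    omega
  have hdD : ∀ y, dd L u v h y ≤ 2 * F.card + (D y).card := by
    intro y
    have h1 := le_card_sdiff Bad (univ.filter fun x => RelA L u v x y ∧ RelA L u v (x + h) y)
    show (univ.filter fun x => RelA L u v x y ∧ RelA L u v (x + h) y).card ≤ 2 * F.card +
      ((univ.filter fun x => RelA L u v x y ∧ RelA L u v (x + h) y) \ Bad).card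
    omega
  have hclass : ∀ c ∈ I, ((∑ y ∈ Yc c, (D y).card : ℕ) : ℝ) ≤
      3 * (k + 1) * (Yc c).card + τ * (Xc c).card * (Yc c).card + s * (Xc c).card / τ ^ k := by
    intro c _
    refine count_sizes (fun x : G => {x, x + h, x - h}) 3 s (fun x => card_le_three) (Xc c) k (Yc c) D ?_ ?_
      τ hτ
    · intro y hy x hx
      obtain ⟨hx, -⟩ := mem_sdiff.1 hx
      obtain ⟨-, h1, h2⟩ := mem_filter.1 hx
      rw [rel_shift L u v h1] at h2
      exact mem_filter.2 ⟨mem_univ _, h2.trans (mem_filter.1 hy).2⟩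
    · intro L hL hLp Z hZ hZL
      rcases Z.eq_empty_or_nonempty with rfl | ⟨y0, hy0⟩
      · simp
      have hmem := hZL y0 hy0
      refine hfree (L.toFinset ∪ L.toFinset.image (· + h)) ?_ Z (hZ.trans (filter_subset _ _))
        (by rw [card_double h hh L hLp, hL]) ?_
      · intro x hx
        rw [mem_compl]
        intro hxF
        rcases mem_union.1 hx with hx | hx
        · exact (mem_sdiff.1 (hmem x (List.mem_toFinset.1 hx))).2 (mem_union_left _ hxF)
        · obtain ⟨x', hx', rfl⟩ := mem_image.1 hx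
          exact (mem_sdiff.1 (hmem x' (List.mem_toFinset.1 hx'))).2
            (mem_union_right _ (mem_image.2 ⟨x' + h, hxF, by abel⟩))
      · intro x hx y hy
        rcases mem_union.1 hx with hx | hx
        · exact (mem_filter.1 (mem_sdiff.1 (hZL y hy x (List.mem_toFinset.1 hx))).1).2.1
        · obtain ⟨x', hx', rfl⟩ := mem_image.1 hx
          exact (mem_filter.1 (mem_sdiff.1 (hZL y hy x' (List.mem_toFinset.1 hx'))).1).2.2
  have hmaps : ∀ y ∈ Y, L y h ∈ I := fun y hy => mem_image_of_mem (fun y => L y h) hy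
  have e1 : (∑ c ∈ I, ∑ y ∈ Yc c, (D y).card) = ∑ y ∈ Y, (D y).card :=
    sum_fiberwise_of_maps_to hmaps _
  have e2 : (∑ c ∈ I, (Yc c).card) = Y.card := (card_eq_sum_card_fiberwise hmaps).symm
  have e3 : (∑ c ∈ I, (Xc c).card * (Yc c).card) = ∑ y ∈ Y, qq L u h y := by
    rw [← sum_fiberwise_of_maps_to hmaps]
    refine sum_congr rfl fun c _ => ?_
    rw [mul_comm, ← smul_eq_mul, ← sum_const]
    refine sum_congr rfl fun y hy => ?_
    unfold qq
    rw [(mem_filter.1 hy).2]
  have e4 : (∑ c ∈ I, (Xc c).card) ≤ Fintype.card G := by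
    rw [← card_univ, ← card_biUnion]
    · exact card_le_card (subset_univ _)
    · intro c _ c' _ hcc
      rw [Function.onFun, disjoint_left]
      intro x hx hx'
      exact hcc ((mem_filter.1 hx).2.symm.trans (mem_filter.1 hx').2)
  have h1 : ((∑ y ∈ Y, (D y).card : ℕ) : ℝ) ≤ 3 * (k + 1) * Y.card +
      τ * ((∑ y ∈ Y, qq L u h y : ℕ) : ℝ) + s * Fintype.card G / τ ^ k := by
    rw [← e1]
    calc ((∑ c ∈ I, ∑ y ∈ Yc c, (D y).card : ℕ) : ℝ) = ∑ c ∈ I, ((∑ y ∈ Yc c, (D y).card : ℕ) : ℝ) := by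
          push_cast
          rfl
      _ ≤ ∑ c ∈ I, ((3 * (k + 1) * (Yc c).card + τ * (Xc c).card * (Yc c).card) +
          s * (Xc c).card / τ ^ k) := sum_le_sum hclass
      _ = 3 * (k + 1) * ((∑ c ∈ I, (Yc c).card : ℕ) : ℝ) + τ * ((∑ c ∈ I, (Xc c).card * (Yc c).card : ℕ) : ℝ)
          + s * ((∑ c ∈ I, (Xc c).card : ℕ) : ℝ) / τ ^ k := by
          rw [sum_add_distrib, sum_add_distrib, ← mul_sum, ← sum_div, ← mul_sum]
          push_cast
          congr 2
          rw [mul_sum]
          refine sum_congr rfl fun c _ => ?_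
          ring
      _ ≤ _ := by
          rw [e2, e3]
          gcongr
  have h2 : ((∑ y ∈ Y, dd L u v h y : ℕ) : ℝ) ≤ 2 * F.card * Y.card + ((∑ y ∈ Y, (D y).card : ℕ) : ℝ) := by
    have : ∑ y ∈ Y, dd L u v h y ≤ 2 * F.card * Y.card + ∑ y ∈ Y, (D y).card := by
      calc ∑ y ∈ Y, dd L u v h y ≤ ∑ y ∈ Y, (2 * F.card + (D y).card) := sum_le_sum fun y _ => hdD y
        _ = _ := by
          rw [sum_add_distrib, sum_const, smul_eq_mul]
          ring
    exact_mod_cast this
  linarith

open Classical in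
theorem sum_dd (y : G') : ∑ h : G, dd L u v h y = (nb (RelA L u v) y).card ^ 2 := by
  have h1 : ∀ h : G, dd L u v h y = ∑ x ∈ nb (RelA L u v) y, if RelA L u v (x + h) y then 1 else 0 := by
    intro h
    unfold dd nb
    rw [← card_filter, filter_filter]
  rw [sum_congr rfl fun h _ => h1 h, sum_comm, sq, ← smul_eq_mul, ← sum_const]
  refine sum_congr rfl fun x _ => ?_
  rw [← card_filter]
  unfold nb
  refine card_bij' (fun h _ => x + h) (fun z _ => z - x) ?_ ?_ ?_ ?_
  · intro h hh
    exact mem_filter.2 ⟨mem_univ _, (mem_filter.1 hh).2⟩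
  · intro z hz
    refine mem_filter.2 ⟨mem_univ _, ?_⟩
    rw [add_sub_cancel]
    exact (mem_filter.1 hz).2
  · intro h _
    simp
  · intro z _
    simp

theorem dd_zero (y : G') : dd L u v 0 y = (nb (RelA L u v) y).card := by
  classical
  unfold dd nb
  congr 1
  refine filter_congr fun x _ => ?_
  simp

open Classical in
/-- **The main inequality.** -/
theorem main_ineq {k s : ℕ} (F : Finset G) (Y : Finset G')
    (hfree : KFree (2 * (k + 1)) s (RelA L u v) Fᶜ Y) (τ : ℝ) (hτ : 0 < τ) :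
    ((∑ y ∈ Y, (nb (RelA L u v) y).card ^ 2 : ℕ) : ℝ) ≤ ((∑ y ∈ Y, (nb (RelA L u v) y).card : ℕ) : ℝ) +
      Fintype.card G * ((3 * (k + 1) + 2 * F.card) * Y.card) +
      τ * ((∑ y ∈ Y, ∑ h : G, qq L u h y : ℕ) : ℝ) + s * (Fintype.card G : ℝ) ^ 2 / τ ^ k := by
  have e1 : (∑ y ∈ Y, (nb (RelA L u v) y).card ^ 2) = ∑ h : G, ∑ y ∈ Y, dd L u v h y := by
    rw [sum_comm]
    exact sum_congr rfl fun y _ => (sum_dd L u v y).symm
  have e2 : (∑ h : G, ∑ y ∈ Y, dd L u v h y) =
      (∑ y ∈ Y, (nb (RelA L u v) y).card) + ∑ h ∈ univ.erase (0 : G), ∑ y ∈ Y, dd L u v h y := by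
    rw [← add_sum_erase univ _ (mem_univ (0 : G))]
    congr 1
    exact sum_congr rfl fun y _ => dd_zero L u v y
  rw [e1, e2, Nat.cast_add]
  have h1 : ((∑ h ∈ univ.erase (0 : G), ∑ y ∈ Y, dd L u v h y : ℕ) : ℝ) ≤
      ∑ h : G, ((3 * (k + 1) + 2 * F.card) * Y.card +
      τ * ((∑ y ∈ Y, qq L u h y : ℕ) : ℝ) + s * Fintype.card G / τ ^ k) := by
    rw [Nat.cast_sum]
    refine (sum_le_sum fun h hh => one_direction L u v F Y hfree h (ne_of_mem_erase hh) τ hτ).trans ?_
    refine sum_le_sum_of_subset_of_nonneg (erase_subset _ _) fun h _ _ => ?_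
    positivity
  refine (add_le_add_right h1 _).trans (le_of_eq ?_)
  rw [sum_add_distrib, sum_add_distrib, sum_const, sum_const, nsmul_eq_mul, nsmul_eq_mul, card_univ,
    ← mul_sum]
  have e3 : (∑ h : G, ((∑ y ∈ Y, qq L u h y : ℕ) : ℝ)) = ((∑ y ∈ Y, ∑ h : G, qq L u h y : ℕ) : ℝ) := by
    rw [sum_comm]
    push_cast
    rfl
  rw [e3]
  ring

end main

end Pool.Agent.K7.H41.AE
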