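import Pool.Agent.K7.H41.AE.GraphD
import Pool.Agent.W834.NG.Sol
import Pool.Agent.W834.NG.Graph

/-!
# The projective norm graphs are given by one equation of degree `r - 2`
-/

set_option autoImplicit false

namespace Pool.Agent.K7.H41.AE

open Finset Pool.Agent.K7.H41.BE Pool.Agent.W834.NG

/-- `m + 1` norm equations have at most `m !` common solutions (Alon, Kollár, Rónyai, Szabó); the proof is the one
in the starting library `Pool/Agent/TH454/BW/NormFree.lean` -/
theorem norm_solutions {K : Type} [Field K] {m : ℕ} (hm : 0 < m) (φ : K →+* K) (c : Fin (m + 1) → K)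
    (hc : Function.Injective c) (a : Fin (m + 1) → K) (S : Finset K) (b : K → K)
    (hS : ∀ s ∈ S, ∀ i, ∏ j : Fin m, φ^[j] (s + c i) = a i * b s) : S.card ≤ m.factorial := by
  classical
  refine (card_le_F hm φ c a Finset.univ S b (fun s hs i _ => hS s hs i)).trans ?_
  obtain ⟨n, rfl⟩ : ∃ n, m = n + 1 := ⟨m - 1, by omega⟩
  refine F_triv _ n Finset.univ ?_ ?_ Finset.univ ∅ ?_ ?_
  · intro k i _ i' _ h
    apply hc
    have hinj : Function.Injective (φ^[(k : ℕ)]) := Function.Injective.iterate φ.injective k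
    exact hinj h
  · simp
  · exact Finset.disjoint_empty_right _
  · simp

section field

variable {K : Type} [Field K] (φ : K →+* K) (m : ℕ)

theorem PG_free (hm : 0 < m) : NoK (PG φ m) (m + 1) (m.factorial + 1) := by
  classical
  rintro ⟨x, y, hx, hy, hadj⟩
  have hxa : ∀ i, (x i).2.1 ≠ 0 := fun i => (x i).2.2.1
  have hyb : ∀ j, (y j).2.1 ≠ 0 := fun j => (y j).2.2.1
  have hN : ∀ i j, Nm φ m ((x i).1 + (y j).1) = (x i).2.1 * (y j).2.1 := fun i j => (hadj i j).2
  have hX : Function.Injective fun i => (x i).1 := by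
    intro i k hik
    apply hx
    have h1 := hN i 0
    have h2 := hN k 0
    simp only at hik
    rw [hik, h2] at h1
    have h3 : (x k).2.1 = (x i).2.1 := mul_right_cancel₀ (hyb 0) h1
    exact Prod.ext hik (Subtype.ext h3.symm)
  have hY : Function.Injective fun j => (y j).1 := by
    intro i k hik
    apply hy
    have h1 := hN 0 i
    have h2 := hN 0 k
    simp only at hik
    rw [hik, h2] at h1
    have h3 : (y k).2.1 = (y i).2.1 := mul_left_cancel₀ (hxa 0) h1
    exact Prod.ext hik (Subtype.ext h3.symm)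
  have hb : ∀ j, Nm φ m ((y j).1 + (x 0).1) / (x 0).2.1 = (y j).2.1 := by
    intro j
    rw [add_comm, hN, mul_div_cancel_left₀ _ (hxa 0)]
  have := norm_solutions hm φ (fun i => (x i).1) hX (fun i => (x i).2.1)
    (Finset.univ.image fun j => (y j).1) (fun s => Nm φ m (s + (x 0).1) / (x 0).2.1) (by
      intro s hs i
      obtain ⟨j, _, rfl⟩ := Finset.mem_image.1 hs
      rw [hb]
      have := hN i j
      rw [add_comm] at this
      exact this)
  rw [Finset.card_image_of_injective _ hY] at this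
  simp at this

/-- the fixed elements -/
def Fx : AddSubgroup K where
  carrier := {a | φ a = a}
  zero_mem' := map_zero φ
  add_mem' := by
    intro a b ha hb
    show φ (a + b) = a + b
    rw [map_add]
    exact congrArg₂ _ ha hb
  neg_mem' := by
    intro a ha
    show φ (-a) = -a
    rw [map_neg]
    exact congrArg _ ha

open Classical in
theorem card_Fx [Fintype K] : Fintype.card (Fx φ) = Fintype.card (AA φ) + 1 := by
  have h1 : Fintype.card (Fx φ) = (univ.filter fun a : K => φ a = a).card := Fintype.card_subtype _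
  have h2 : Fintype.card (AA φ) = (univ.filter fun a : K => a ≠ 0 ∧ φ a = a).card := Fintype.card_subtype _
  rw [h1, h2]
  have h3 : (univ.filter fun a : K => φ a = a) = insert 0 (univ.filter fun a : K => a ≠ 0 ∧ φ a = a) := by
    ext a
    simp only [mem_filter, mem_univ, true_and, mem_insert]
    constructor
    · intro h
      by_cases ha : a = 0
      · exact Or.inl ha
      · exact Or.inr ⟨ha, h⟩
    · rintro (rfl | h)
      · exact map_zero φ
      · exact h.2
  rw [h3, card_insert_of_notMem]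
  simp

open Classical in
/-- the equation of the projective norm graph -/
noncomputable def normEqn [Fintype K] : Eqn (K × AA φ) where
  G := K × Fx φ
  H := K
  a := fun v => (v.1, ⟨v.2.1, v.2.2.2⟩)
  f := fun y x => Nm φ m (x.1 + y.1) - Nm φ m x.1 - (x.2 : K) * y.2.1
  u := fun x => - Nm φ m x.1
  inj := by
    intro v w h
    have h1 := congrArg Prod.fst h
    have h2 := congrArg (fun z : K × Fx φ => (z.2 : K)) h
    exact Prod.ext h1 (Subtype.ext h2)

theorem normEqn_holds [Fintype K] (x y : K × AA φ) :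
    (normEqn φ m).Holds x y ↔ Nm φ m (x.1 + y.1) = x.2.1 * y.2.1 := by
  have h1 : (normEqn φ m).Holds x y ↔
      Nm φ m (x.1 + y.1) - Nm φ m x.1 - x.2.1 * y.2.1 = - Nm φ m x.1 := Iff.rfl
  rw [h1]
  constructor
  · intro h
    linear_combination h
  · intro h
    linear_combination h

theorem normEqn_degree [Fintype K] (m : ℕ) (hm : 1 ≤ m) : (normEqn φ (m + 1)).DegreeLE m := by
  intro y
  have hfst : ∀ j : ℕ, DegLE 1 fun x : K × Fx φ => φ^[j] x.1 := by
    intro j
    have h1 := degLE_hom ((((φ ^ j : K →+* K)).toAddMonoidHom).comp (AddMonoidHom.fst K (Fx φ)))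
    have e : (fun x : K × Fx φ => φ^[j] x.1) =
        ((((φ ^ j : K →+* K)).toAddMonoidHom).comp (AddMonoidHom.fst K (Fx φ))) := by
      funext x
      show φ^[j] x.1 = (φ ^ j : K →+* K) x.1
      rw [RingHom.coe_pow]
    rw [e]
    exact h1
  have h1 := degLE_prod_sub m (fun j (x : K × Fx φ) => φ^[j] x.1) (fun j => φ^[j] y.1) hfst
  have h2 : DegLE m fun x : K × Fx φ => (x.2 : K) * y.2.1 := by
    have h3 := degLE_hom (((AddMonoidHom.mulRight y.2.1).comp (Fx φ).subtype).comp (AddMonoidHom.snd K (Fx φ)))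
    exact DegLE.mono hm h3
  have h3 := h1.sub h2
  have e : (fun x : K × Fx φ => ((∏ i ∈ range (m + 1), (φ^[i] x.1 + φ^[i] y.1)) - ∏ i ∈ range (m + 1), φ^[i] x.1) -
      (x.2 : K) * y.2.1) = (normEqn φ (m + 1)).f y := by
    funext x
    show _ = Nm φ (m + 1) (x.1 + y.1) - Nm φ (m + 1) x.1 - (x.2 : K) * y.2.1
    unfold Nm
    rw [Fin.prod_univ_eq_prod_range (fun j => φ^[j] (x.1 + y.1)) (m + 1),
      Fin.prod_univ_eq_prod_range (fun j => φ^[j] x.1) (m + 1)]
    congr 2
    refine prod_congr rfl fun i _ => ?_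
    rw [iterate_map_add]
  rw [e] at h3
  exact h3

end field

/-- **Norm graphs.** -/
theorem norm_example (r p : ℕ) (hr : 3 ≤ r) (hp : p.Prime) :
    ∃ (V : Type) (_ : Fintype V) (Γ : SimpleGraph V) (E : Eqn V), Fintype.card V = p ^ (r - 1) * (p - 1) ∧
      E.SizeLE (2 * Fintype.card V) ∧ E.DegreeLE (r - 2) ∧
      E.LargePrimes ((Fintype.card V : ℝ) ^ (1 / (r : ℝ))) ∧
      (∀ x y, x ≠ y → (Γ.Adj x y ↔ E.Holds x y)) ∧
      (completeBipartiteGraph (Fin r) (Fin ((r - 1).factorial + 1))).Free Γ ∧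
      (1 / 4 : ℝ) * (Fintype.card V : ℝ) ^ (2 - 1 / (r : ℝ)) ≤ Nat.card Γ.edgeSet := by
  classical
  obtain ⟨m, rfl⟩ : ∃ m, r = m + 2 := ⟨r - 2, by omega⟩
  have hm1 : 1 ≤ m := by omega
  have hr1 : m + 2 - 1 = m + 1 := by omega
  have hr2 : m + 2 - 2 = m := by omega
  rw [hr1, hr2]
  have : Fact p.Prime := ⟨hp⟩
  let K := GaloisField p (m + 1)
  have : Finite K := inferInstance
  let _ : Fintype K := Fintype.ofFinite K
  have hcard : Fintype.card K = p ^ (m + 1) := by
    rw [← Nat.card_eq_fintype_card]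
    exact GaloisField.card p (m + 1) (by omega)
  set φ := frobenius K p with hφdef
  have hφ : ∀ x : K, φ^[m + 1] x = x := by
    intro x
    rw [hφdef, iterate_frobenius, ← hcard, FiniteField.pow_card]
  have hAA : Fintype.card (AA φ) = p - 1 := by
    obtain ⟨h1, h2⟩ := AA_card p K
    exact le_antisymm h2 h1
  have hV : Fintype.card (K × AA φ) = p ^ (m + 1) * (p - 1) := by
    rw [Fintype.card_prod, hcard, hAA]
  have hp2 := hp.two_le
  have hG : Fintype.card (normEqn φ (m + 1)).G = p ^ (m + 2) := by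
    show Fintype.card (K × Fx φ) = _
    rw [Fintype.card_prod, hcard, card_Fx, hAA, pow_succ p (m + 1)]
    congr 1
    omega
  have hVG : (Fintype.card (K × AA φ) : ℝ) ≤ (p : ℝ) ^ (m + 2) := by
    rw [hV]
    have : p ^ (m + 1) * (p - 1) ≤ p ^ (m + 2) := by
      rw [pow_succ p (m + 1)]
      exact Nat.mul_le_mul_left _ (Nat.sub_le _ _)
    exact_mod_cast this
  have hpR : (0 : ℝ) ≤ p := Nat.cast_nonneg _
  have hr0 : ((m + 2 : ℕ) : ℝ) ≠ 0 := by positivity
  refine ⟨K × AA φ, inferInstance, PG φ (m + 1), normEqn φ (m + 1), hV, ?_, normEqn_degree φ m hm1, ?_, ?_, ?_, ?_⟩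
  · show (Fintype.card (normEqn φ (m + 1)).G : ℝ) ≤ 2 * (Fintype.card (K × AA φ) : ℝ)
    rw [hG, hV]
    have : p ^ (m + 2) ≤ 2 * (p ^ (m + 1) * (p - 1)) := by
      rw [pow_succ p (m + 1), mul_comm 2, mul_assoc]
      exact Nat.mul_le_mul_left _ (by omega)
    exact_mod_cast this
  · intro l hl hdvd
    rw [hG] at hdvd
    have h1 : l = p := (Nat.prime_dvd_prime_iff_eq hl hp).1 (hl.dvd_of_dvd_pow hdvd)
    rw [h1]
    calc ((Fintype.card (K × AA φ) : ℝ)) ^ (1 / ((m + 2 : ℕ) : ℝ)) ≤ ((p : ℝ) ^ (m + 2)) ^ (1 / ((m + 2 : ℕ) : ℝ)) :=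
          Real.rpow_le_rpow (Nat.cast_nonneg _) hVG (by positivity)
      _ = p := by
          rw [← Real.rpow_natCast, ← Real.rpow_mul hpR, mul_one_div_cancel hr0, Real.rpow_one]
  · intro x y hxy
    rw [normEqn_holds]
    exact ⟨fun h => h.2, fun h => ⟨hxy, h⟩⟩
  · exact free_of_noK (PG_free φ (m + 1) (by omega)) _ le_rfl
  · set n : ℝ := (Fintype.card (K × AA φ) : ℝ) with hn
    have hpos : 0 < p ^ (m + 1) * (p - 1) := Nat.mul_pos (by positivity) (by omega)
    have hn0 : 0 < n := by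
      rw [hn, hV]
      exact_mod_cast hpos
    have h4 : 4 ≤ p ^ (m + 1) := by
      calc 4 = 2 ^ 2 := by norm_num
        _ ≤ p ^ 2 := Nat.pow_le_pow_left hp2 2
        _ ≤ p ^ (m + 1) := Nat.pow_le_pow_right (by omega) (by omega)
    have hdeg : ∀ v : K × AA φ, p ^ (m + 1) - 2 ≤ (PG φ (m + 1)).degree v := by
      intro v
      obtain ⟨s, hs, hadj⟩ := PG_deg φ (m + 1) (by omega) hφ v
      rw [hcard] at hs
      refine hs.trans ?_
      rw [← SimpleGraph.card_neighborFinset_eq_degree]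
      exact card_le_card fun w hw => (SimpleGraph.mem_neighborFinset _ _ _).2 (hadj w hw)
    have h2 : 2 * (Nat.card (PG φ (m + 1)).edgeSet) = ∑ v, (PG φ (m + 1)).degree v := by
      rw [(PG φ (m + 1)).sum_degrees_eq_twice_card_edges, SimpleGraph.edgeFinset_card, Nat.card_eq_fintype_card]
    have h3 : Fintype.card (K × AA φ) * (p ^ (m + 1) - 2) ≤ 2 * (Nat.card (PG φ (m + 1)).edgeSet) := by
      rw [h2, ← card_univ, ← smul_eq_mul, ← sum_const]
      exact sum_le_sum fun v _ => hdeg v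
    have h5 : n * ((p : ℝ) ^ (m + 1)) ≤ 4 * (Nat.card (PG φ (m + 1)).edgeSet : ℝ) := by
      have h6 : p ^ (m + 1) ≤ 2 * (p ^ (m + 1) - 2) := by omega
      have h7 : Fintype.card (K × AA φ) * p ^ (m + 1) ≤ 4 * (Nat.card (PG φ (m + 1)).edgeSet) := by
        calc Fintype.card (K × AA φ) * p ^ (m + 1) ≤ Fintype.card (K × AA φ) * (2 * (p ^ (m + 1) - 2)) :=
              Nat.mul_le_mul_left _ h6
          _ = 2 * (Fintype.card (K × AA φ) * (p ^ (m + 1) - 2)) := by ring
          _ ≤ 2 * (2 * (Nat.card (PG φ (m + 1)).edgeSet)) := Nat.mul_le_mul_left _ h3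
          _ = _ := by ring
      rw [hn]
      exact_mod_cast h7
    have h6 : n ^ (2 - 1 / ((m + 2 : ℕ) : ℝ)) ≤ n * (p : ℝ) ^ (m + 1) := by
      have e1 : (2 - 1 / ((m + 2 : ℕ) : ℝ)) = 1 + ((m + 1 : ℕ) : ℝ) / ((m + 2 : ℕ) : ℝ) := by
        push_cast
        field_simp
        ring
      rw [e1, Real.rpow_add hn0, Real.rpow_one]
      refine mul_le_mul_of_nonneg_left ?_ hn0.le
      calc n ^ (((m + 1 : ℕ) : ℝ) / ((m + 2 : ℕ) : ℝ)) ≤ ((p : ℝ) ^ (m + 2)) ^ (((m + 1 : ℕ) : ℝ) / ((m + 2 : ℕ) : ℝ)) :=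
            Real.rpow_le_rpow hn0.le hVG (by positivity)
        _ = (p : ℝ) ^ (m + 1) := by
            rw [← Real.rpow_natCast, ← Real.rpow_mul hpR, ← Real.rpow_natCast]
            congr 1
            field_simp
    linarith

end Pool.Agent.K7.H41.AE
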