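import Pool.Agent.K7.H41.AE.Step
import Pool.Agent.K7.H41.AE.Coll

/-!
# Affine equations whose linear parts have bounded images
-/

set_option autoImplicit false

namespace Pool.Agent.K7.H41.AE

open Finset Pool.Agent.K7.H41.BE

open Classical in
/-- the decomposition into the classes of `u` -/
theorem cnt_classesA {G Y H : Type} [AddCommGroup G] [AddCommGroup H] [Fintype G]
    (L : Y → G →+ H) (T : Finset Y) (u : G → H) (v : Y → H) :
    cnt (RelA L u v) univ T = ∑ a ∈ univ.image u, cnt (fun x y => L y x = a + v y) (univ.filter fun x => u x = a)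
      (T.filter fun y => a + v y ∈ img (L y) ⊤) := by
  unfold cnt
  rw [← Nat.cast_sum]
  congr 1
  have h1 : ∀ y ∈ T, ((univ : Finset G).filter fun x => RelA L u v x y).card =
      ∑ a ∈ univ.image u, (((univ : Finset G).filter fun x => u x = a).filter fun x => L y x = a + v y).card := by
    intro y _
    rw [card_eq_sum_card_fiberwise (f := u) (t := univ.image u)
      (fun x _ => mem_image_of_mem u (mem_univ x))]
    refine sum_congr rfl fun a _ => ?_
    congr 1
    ext x
    simp only [mem_filter, mem_univ, true_and]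
    unfold RelA
    constructor
    · rintro ⟨h1, rfl⟩
      exact ⟨rfl, h1⟩
    · rintro ⟨rfl, h2⟩
      exact ⟨h2, rfl⟩
  rw [sum_congr rfl h1, sum_comm]
  refine sum_congr rfl fun a _ => ?_
  refine (sum_filter_of_ne (s := T) (p := fun y => a + v y ∈ img (L y) ⊤) fun y _ hy => ?_).symm
  obtain ⟨x, hx⟩ := card_pos.1 (Nat.pos_of_ne_zero hy)
  rw [mem_filter, mem_filter] at hx
  rw [← hx.2]
  exact mem_img.2 ⟨x, AddSubgroup.mem_top _, rfl⟩

/-- **The relations with `u` not constant.** -/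
theorem small_relA (r s M : ℕ) (hr : 1 ≤ r) (ε : ℝ) (hε : 0 < ε) : ∃ ν₀ : ℝ,
    ∀ (G Y H : Type) [AddCommGroup G] [AddCommGroup H] [Fintype G]
      (n ν : ℝ), ν₀ ≤ ν → ν ^ (r + 1) = n → (Fintype.card G : ℝ) ≤ n →
      ∀ (L : Y → G →+ H) (T : Finset Y), (T.card : ℝ) ≤ n → (∀ y ∈ T, (img (L y) ⊤).card ≤ M) →
        ∀ (u : G → H) (v : Y → H),
          KFree (r + 1) s (RelA L u v) univ T → cnt (RelA L u v) univ T ≤ ε * (n ^ 2 / ν) := by
  classical
  obtain ⟨lam, hlam1, hlam⟩ : ∃ lam : ℝ, 1 ≤ lam ∧ 4 * s / ε ≤ lam ^ r :=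
    ⟨max 1 (4 * s / ε), le_max_left _ _, cast_mul_max hr (le_max_left _ _) (le_max_right _ _)⟩
  obtain ⟨η, hη0, hη⟩ : ∃ η : ℝ, 0 < η ∧ η * (lam * M) ≤ ε / 4 := by
    refine ⟨ε / (4 * (lam * (M + 1))), by positivity, ?_⟩
    rw [div_mul_eq_mul_div, div_le_div_iff₀ (by positivity) (by positivity)]
    have : lam * M ≤ lam * (M + 1) := by
      refine mul_le_mul_of_nonneg_left ?_ (by linarith)
      linarith
    calc ε * (lam * M) * 4 ≤ ε * (lam * (M + 1)) * 4 := by gcongr
      _ = _ := by ring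
  obtain ⟨ν₁, hν₁⟩ := smallA r s hr M (ε * η / 4) (by positivity)
  refine ⟨max 1 (max ν₁ (4 * (r + 1) * M / ε)), ?_⟩
  intro G Y H _ _ _ n ν hν hνn hG L T hTn hL u v hfree
  have hν1 : 1 ≤ ν := (le_max_left _ _).trans hν
  have hν2 : ν₁ ≤ ν := (le_max_left _ _).trans ((le_max_right _ _).trans hν)
  have hν3 : 4 * (r + 1) * M / ε ≤ ν := (le_max_right _ _).trans ((le_max_right _ _).trans hν)
  have hν0 : 0 < ν := by linarith
  have hn0 : 0 < n := by
    rw [← hνn]
    positivity
  have hνr : ν ^ r = n / ν := by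
    rw [eq_div_iff hν0.ne', ← hνn]
    ring
  set S : Finset G := univ with hSdef
  have hSn : (S.card : ℝ) ≤ n := le_trans (by exact_mod_cast card_le_univ S) hG
  set Sa : H → Finset G := fun a => S.filter fun x => u x = a with hSa
  set Ta : H → Finset Y := fun a => T.filter fun y => a + v y ∈ img (L y) ⊤ with hTa
  have hfa : ∀ a, KFree (r + 1) s (fun x y => L y x = a + v y) (Sa a) (Ta a) := by
    intro a A hA Z hZ hc hR
    refine hfree A (hA.trans (filter_subset _ _)) Z (hZ.trans (filter_subset _ _)) hc ?_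
    intro x hx y hy
    have h1 := hR x hx y hy
    have h2 := (mem_filter.1 (hA hx)).2
    unfold RelA
    rw [h2]
    exact h1
  have hsumS : (∑ a ∈ S.image u, ((Sa a).card : ℝ)) = S.card := by
    rw [← Nat.cast_sum]
    congr 1
    exact (card_eq_sum_card_fiberwise (fun x hx => mem_image_of_mem u hx)).symm
  have hsumT : (∑ a ∈ S.image u, ((Ta a).card : ℝ)) ≤ M * T.card := by
    rw [← Nat.cast_sum, ← Nat.cast_mul, Nat.cast_le]
    have h1 : (∑ a ∈ S.image u, (Ta a).card) =
        ∑ y ∈ T, ((S.image u).filter fun a => a + v y ∈ img (L y) ⊤).card := by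
      rw [hTa]
      simp only [card_filter]
      rw [sum_comm]
    rw [h1, mul_comm, ← smul_eq_mul, ← sum_const]
    refine sum_le_sum fun y hy => le_trans ?_ (hL y hy)
    refine card_le_card_of_injOn (fun a => a + v y) ?_ ?_
    · intro a ha
      exact (mem_filter.1 ha).2
    · intro a _ b _ e
      exact add_left_injective _ e
  rw [cnt_classesA L T u v,
    ← sum_filter_add_sum_filter_not (S.image u) (fun a => η * n ≤ (Sa a).card)]
  -- the large classes
  have hbig : (∑ a ∈ (S.image u).filter (fun a => η * n ≤ (Sa a).card),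
      cnt (fun x y => L y x = a + v y) (Sa a) (Ta a)) ≤ ε / 4 * (n ^ 2 / ν) := by
    have h1 : ∀ a ∈ (S.image u).filter (fun a => η * n ≤ (Sa a).card),
        cnt (fun x y => L y x = a + v y) (Sa a) (Ta a) ≤ ε * η / 4 * (n ^ 2 / ν) := by
      intro a _
      exact hν₁ G Y H n ν hν2 hνn hG L ⊤ (Ta a)
        (le_trans (by exact_mod_cast card_le_card (filter_subset _ _)) hTn)
        (fun y hy => hL y (mem_filter.1 hy).1) 0 (Sa a)
        (fun x _ => AddSubgroup.mem_top _) (fun y => a + v y) (hfa a)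
    refine (sum_le_sum h1).trans ?_
    rw [sum_const, nsmul_eq_mul]
    have h2 : (((S.image u).filter (fun a => η * n ≤ (Sa a).card)).card : ℝ) * (η * n) ≤ n := by
      calc (((S.image u).filter (fun a => η * n ≤ (Sa a).card)).card : ℝ) * (η * n) =
            ∑ _a ∈ (S.image u).filter (fun a => η * n ≤ (Sa a).card), η * n := by
              rw [sum_const, nsmul_eq_mul]
        _ ≤ ∑ a ∈ (S.image u).filter (fun a => η * n ≤ (Sa a).card), ((Sa a).card : ℝ) :=
            sum_le_sum fun a ha => (mem_filter.1 ha).2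
        _ ≤ ∑ a ∈ S.image u, ((Sa a).card : ℝ) :=
            sum_le_sum_of_subset_of_nonneg (filter_subset _ _) fun _ _ _ => Nat.cast_nonneg _
        _ ≤ n := by rw [hsumS]; exact hSn
    have h3 : (((S.image u).filter (fun a => η * n ≤ (Sa a).card)).card : ℝ) * η ≤ 1 := by
      refine le_of_mul_le_mul_right ?_ hn0
      rw [one_mul, mul_assoc]
      exact h2
    calc (((S.image u).filter (fun a => η * n ≤ (Sa a).card)).card : ℝ) * (ε * η / 4 * (n ^ 2 / ν)) =
          ((((S.image u).filter (fun a => η * n ≤ (Sa a).card)).card : ℝ) * η) * (ε / 4 * (n ^ 2 / ν)) := by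
            ring
      _ ≤ 1 * (ε / 4 * (n ^ 2 / ν)) := mul_le_mul_of_nonneg_right h3 (by positivity)
      _ = _ := one_mul _
  -- the small classes
  have hsmall : (∑ a ∈ (S.image u).filter (fun a => ¬ η * n ≤ (Sa a).card),
      cnt (fun x y => L y x = a + v y) (Sa a) (Ta a)) ≤ 3 * (ε / 4 * (n ^ 2 / ν)) := by
    have h1 : ∀ a ∈ (S.image u).filter (fun a => ¬ η * n ≤ (Sa a).card),
        cnt (fun x y => L y x = a + v y) (Sa a) (Ta a) ≤
          ((r + 1) + lam / ν * (η * n)) * ((Ta a).card : ℝ) + s / (lam / ν) ^ r * ((Sa a).card : ℝ) := by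
      intro a ha
      have h2 := kst (hfa a) (lam / ν) (by positivity)
      have h3 : cnt (fun x y => L y x = a + v y) (Sa a) (Ta a) ≤ (r + 1) * (Ta a).card +
        lam / ν * (Sa a).card * (Ta a).card + s * (Sa a).card / (lam / ν) ^ r := h2
      have h4 : ((Sa a).card : ℝ) ≤ η * n := (not_le.1 (mem_filter.1 ha).2).le
      have h5 : lam / ν * (Sa a).card * (Ta a).card ≤ lam / ν * (η * n) * (Ta a).card := by
        gcongr
      have h6 : s * (Sa a).card / (lam / ν) ^ r = s / (lam / ν) ^ r * ((Sa a).card : ℝ) := by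
        rw [mul_div_right_comm]
      rw [h6] at h3
      linarith
    refine (sum_le_sum h1).trans ?_
    rw [sum_add_distrib, ← mul_sum, ← mul_sum]
    have h2 : (∑ a ∈ (S.image u).filter (fun a => ¬ η * n ≤ (Sa a).card), ((Ta a).card : ℝ)) ≤ M * n := by
      refine (sum_le_sum_of_subset_of_nonneg (filter_subset _ _) fun _ _ _ => Nat.cast_nonneg _).trans
        (hsumT.trans ?_)
      gcongr
    have h3 : (∑ a ∈ (S.image u).filter (fun a => ¬ η * n ≤ (Sa a).card), ((Sa a).card : ℝ)) ≤ n := by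
      refine (sum_le_sum_of_subset_of_nonneg (filter_subset _ _) fun _ _ _ => Nat.cast_nonneg _).trans ?_
      rw [hsumS]
      exact hSn
    have h4 : ((r + 1) + lam / ν * (η * n)) *
        (∑ a ∈ (S.image u).filter (fun a => ¬ η * n ≤ (Sa a).card), ((Ta a).card : ℝ)) ≤
        2 * (ε / 4 * (n ^ 2 / ν)) := by
      calc ((r + 1) + lam / ν * (η * n)) *
          (∑ a ∈ (S.image u).filter (fun a => ¬ η * n ≤ (Sa a).card), ((Ta a).card : ℝ)) ≤
            ((r + 1) + lam / ν * (η * n)) * (M * n) := mul_le_mul_of_nonneg_left h2 (by positivity)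
        _ = (r + 1) * M * n + (η * (lam * M)) * (n ^ 2 / ν) := by ring
        _ ≤ ε / 4 * (n ^ 2 / ν) + ε / 4 * (n ^ 2 / ν) := by
            refine add_le_add ?_ (mul_le_mul_of_nonneg_right hη (by positivity))
            have h5 : 4 * (r + 1) * M / ε ≤ n / ν := by
              refine hν3.trans ?_
              rw [← hνr]
              calc ν = ν ^ 1 := (pow_one ν).symm
                _ ≤ _ := pow_le_pow_right₀ hν1 hr
            rw [div_le_iff₀ hε] at h5
            calc ((r : ℝ) + 1) * M * n = (4 * (r + 1) * M) * (n / 4) := by ring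
              _ ≤ (n / ν * ε) * (n / 4) := mul_le_mul_of_nonneg_right h5 (by positivity)
              _ = _ := by ring
        _ = _ := by ring
    have h5 : s / (lam / ν) ^ r *
        (∑ a ∈ (S.image u).filter (fun a => ¬ η * n ≤ (Sa a).card), ((Sa a).card : ℝ)) ≤
        ε / 4 * (n ^ 2 / ν) := by
      have h6 : (s : ℝ) ≤ ε / 4 * lam ^ r := by
        rw [div_le_iff₀ hε] at hlam
        linarith
      calc s / (lam / ν) ^ r *
          (∑ a ∈ (S.image u).filter (fun a => ¬ η * n ≤ (Sa a).card), ((Sa a).card : ℝ)) ≤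
            s / (lam / ν) ^ r * n := mul_le_mul_of_nonneg_left h3 (by positivity)
        _ = s * (n ^ 2 / ν) / lam ^ r := by
            rw [div_pow, hνr]
            field_simp
        _ ≤ ε / 4 * (n ^ 2 / ν) := by
            rw [div_le_iff₀ (by positivity)]
            calc s * (n ^ 2 / ν) ≤ (ε / 4 * lam ^ r) * (n ^ 2 / ν) := mul_le_mul_of_nonneg_right h6 (by positivity)
              _ = _ := by ring
    linarith
  have h9 : ε * (n ^ 2 / ν) = ε / 4 * (n ^ 2 / ν) + 3 * (ε / 4 * (n ^ 2 / ν)) := by ring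
  rw [h9]
  exact add_le_add hbig hsmall

section struct

variable {G Y H : Type} [AddCommGroup G] [AddCommGroup H] [Fintype G]

open Classical in
/-- the collisions of `u - L_y` -/
theorem coll_eq (L : Y → G →+ H) (u : G → H) (y : Y) :
    coll L u y = ∑ x : G, (univ.filter fun x' : G => u x' - L y x' = u x - L y x).card := by
  unfold coll qq
  simp only [card_filter]
  rw [sum_comm]
  refine sum_congr rfl fun x _ => ?_
  refine Fintype.sum_equiv (Equiv.addLeft x) _ _ fun h => ?_
  refine if_congr ?_ rfl rfl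
  show u (x + h) - u x = L y h ↔ u (x + h) - L y (x + h) = u x - L y x
  rw [map_add]
  constructor
  · intro e
    rw [← e]
    abel
  · intro e
    have h1 : u (x + h) = u x - L y x + (L y x + L y h) := sub_eq_iff_eq_add.1 e
    rw [h1]
    abel

open Classical in
/-- a large fibre -/
theorem exists_fibre (L : Y → G →+ H) (u : G → H) (y : Y) (κ n : ℝ) (hκ : 0 < κ) (hn0 : 0 < n)
    (hG : (Fintype.card G : ℝ) ≤ n) (h : κ * n ^ 2 ≤ coll L u y) :
    ∃ A : Finset G, κ * n ≤ A.card ∧ ∀ x ∈ A, ∀ x' ∈ A, u x - L y x = u x' - L y x' := by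
  by_contra hcon
  push Not at hcon
  have h1 : ∀ x : G, ((univ.filter fun x' : G => u x' - L y x' = u x - L y x).card : ℝ) < κ * n := by
    intro x
    by_contra hc
    obtain ⟨a, ha, b, hb, hne⟩ := hcon _ (not_lt.1 hc)
    exact hne ((mem_filter.1 ha).2.trans (mem_filter.1 hb).2.symm)
  have h2 : (coll L u y : ℝ) < Fintype.card G * (κ * n) := by
    rw [coll_eq]
    push_cast
    calc (∑ x : G, ((univ.filter fun x' : G => u x' - L y x' = u x - L y x).card : ℝ)) <
          ∑ _x : G, κ * n := sum_lt_sum_of_nonempty univ_nonempty fun x _ => h1 x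
      _ = _ := by rw [sum_const, nsmul_eq_mul, card_univ]
  have h3 : Fintype.card G * (κ * n) ≤ κ * n ^ 2 := by
    calc Fintype.card G * (κ * n) ≤ n * (κ * n) := mul_le_mul_of_nonneg_right hG (by positivity)
      _ = _ := by ring
  linarith

/-- two fibres meet in a coset of a kernel -/
theorem fibres_inter [DecidableEq G] (L : Y → G →+ H) (u : G → H) (y y' : Y) (A A' : Finset G)
    (hA : ∀ x ∈ A, ∀ x' ∈ A, u x - L y x = u x' - L y x')
    (hA' : ∀ x ∈ A', ∀ x' ∈ A', u x - L y' x = u x' - L y' x') : (A ∩ A').card ≤ sz (L y - L y').ker := by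
  classical
  rcases (A ∩ A').eq_empty_or_nonempty with h | ⟨x₁, hx₁⟩
  · rw [h]
    simp
  obtain ⟨h1, h2⟩ := mem_inter.1 hx₁
  obtain ⟨K, hK⟩ : ∃ K : AddSubgroup G, K = (L y - L y').ker := ⟨_, rfl⟩
  rw [← hK]
  unfold sz
  refine card_le_card_of_injOn (fun x => x - x₁) ?_ (fun a _ b _ e => by simpa using e)
  intro x hx
  rw [mem_coe, mem_inter] at hx
  rw [mem_coe, mem_filter]
  refine ⟨mem_univ _, ?_⟩
  rw [hK]
  show L y (x - x₁) - L y' (x - x₁) = 0
  have e1 := hA x hx.1 x₁ h1
  have e2 := hA' x hx.2 x₁ h2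
  have e3 : (u x - L y' x) - (u x - L y x) = (u x₁ - L y' x₁) - (u x₁ - L y x₁) := by rw [e1, e2]
  rw [sub_sub_sub_cancel_left, sub_sub_sub_cancel_left] at e3
  rw [map_sub, map_sub, sub_sub_sub_comm, e3, sub_self]

omit [AddCommGroup G] [AddCommGroup H] [Fintype G] in
open Classical in
/-- a maximal subset -/
theorem exists_max_pairwise (P : Y → Y → Prop) (hs : ∀ a b, P a b → P b a) (Bad : Finset Y) :
    ∃ F ⊆ Bad, (∀ y ∈ F, ∀ y' ∈ F, y ≠ y' → P y y') ∧ ∀ y ∈ Bad, y ∉ F → ∃ f ∈ F, ¬ P y f := by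
  obtain ⟨F, hF, hmax⟩ := exists_max_image (Bad.powerset.filter fun F : Finset Y =>
    ∀ y ∈ F, ∀ y' ∈ F, y ≠ y' → P y y') card
    ⟨∅, mem_filter.2 ⟨mem_powerset.2 (empty_subset _), fun y hy => absurd hy (notMem_empty y)⟩⟩
  obtain ⟨hFB, hFi⟩ := mem_filter.1 hF
  rw [mem_powerset] at hFB
  refine ⟨F, hFB, hFi, ?_⟩
  intro y hy hyF
  by_contra hcon
  push Not at hcon
  have h1 : insert y F ∈ Bad.powerset.filter fun F : Finset Y => ∀ y ∈ F, ∀ y' ∈ F, y ≠ y' → P y y' := by
    refine mem_filter.2 ⟨mem_powerset.2 (insert_subset hy hFB), ?_⟩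
    intro a ha b hb hne
    rcases mem_insert.1 ha with ea | ha'
    · rcases mem_insert.1 hb with eb | hb'
      · exact absurd (ea.trans eb.symm) hne
      · rw [ea]
        exact hcon b hb'
    · rcases mem_insert.1 hb with eb | hb'
      · rw [eb]
        exact hs _ _ (hcon a ha')
      · exact hFi a ha' b hb' hne
  have h2 := hmax _ h1
  rw [card_insert_of_notMem hyF] at h2
  omega

omit [AddCommGroup G] in
open Classical in
/-- large sets with small intersections are few -/
theorem few_sets (F : Finset Y) (A : Y → Finset G) (κ n : ℝ) (hκ : 0 < κ) (hn0 : 0 < n)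
    (hG : (Fintype.card G : ℝ) ≤ n) (hA : ∀ y ∈ F, κ * n ≤ (A y).card)
    (hI : ∀ y ∈ F, ∀ y' ∈ F, y ≠ y' → ((A y ∩ A y').card : ℝ) ≤ κ ^ 2 / 2 * n) : (F.card : ℝ) ≤ 2 / κ := by
  set W : ℝ := ∑ y ∈ F, ((A y).card : ℝ) with hW
  have h1 : (F.card : ℝ) * (κ * n) ≤ W := by
    rw [← nsmul_eq_mul, ← sum_const]
    exact sum_le_sum hA
  have h2 : W = ∑ x : G, ((F.filter fun y => x ∈ A y).card : ℝ) := by
    rw [hW, ← Nat.cast_sum, ← Nat.cast_sum]
    congr 1
    simp only [card_filter]
    rw [sum_comm]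
    refine sum_congr rfl fun y _ => ?_
    rw [← card_filter]
    congr 1
    ext x
    simp
  have h3 : (∑ x : G, ((F.filter fun y => x ∈ A y).card : ℝ) ^ 2) = ∑ y ∈ F, ∑ y' ∈ F, ((A y ∩ A y').card : ℝ) := by
    have e1 : ∀ x : G, ((F.filter fun y => x ∈ A y).card : ℝ) ^ 2 =
        ∑ y ∈ F, ∑ y' ∈ F, if x ∈ A y ∩ A y' then (1 : ℝ) else 0 := by
      intro x
      have e2 : ((F.filter fun y => x ∈ A y).card : ℝ) = ∑ y ∈ F, if x ∈ A y then (1 : ℝ) else 0 := by
        rw [card_filter]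
        push_cast
        rfl
      rw [e2, sq, sum_mul_sum]
      refine sum_congr rfl fun y _ => sum_congr rfl fun y' _ => ?_
      by_cases h1 : x ∈ A y <;> by_cases h2 : x ∈ A y' <;> simp [h1, h2]
    rw [sum_congr rfl fun x _ => e1 x, sum_comm]
    refine sum_congr rfl fun y _ => ?_
    rw [sum_comm]
    refine sum_congr rfl fun y' _ => ?_
    rw [← sum_filter, sum_const, nsmul_eq_mul, mul_one]
    congr 2
    ext x
    simp
  have h4 : (∑ y ∈ F, ∑ y' ∈ F, ((A y ∩ A y').card : ℝ)) ≤ W + F.card * (F.card * (κ ^ 2 / 2 * n)) := by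
    have e1 : ∀ y ∈ F, (∑ y' ∈ F, ((A y ∩ A y').card : ℝ)) ≤ (A y).card + F.card * (κ ^ 2 / 2 * n) := by
      intro y hy
      have e2 : ∀ y' ∈ F, ((A y ∩ A y').card : ℝ) ≤ (if y' = y then ((A y).card : ℝ) else 0) + κ ^ 2 / 2 * n := by
        intro y' hy'
        by_cases e : y' = y
        · rw [if_pos e, e, inter_self]
          have : 0 ≤ κ ^ 2 / 2 * n := by positivity
          linarith
        · rw [if_neg e, zero_add]
          exact hI y hy y' hy' (Ne.symm e)
      refine (sum_le_sum e2).trans (le_of_eq ?_)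
      rw [sum_add_distrib, sum_ite_eq' F y, if_pos hy, sum_const, nsmul_eq_mul]
    refine (sum_le_sum e1).trans (le_of_eq ?_)
    rw [sum_add_distrib, sum_const, nsmul_eq_mul]
  have h5 : W ^ 2 ≤ n * (W + F.card * (F.card * (κ ^ 2 / 2 * n))) := by
    rw [h2]
    refine sq_sum_le_card_mul_sum_sq.trans ?_
    rw [h3, card_univ, ← h2]
    refine mul_le_mul hG h4 (sum_nonneg fun _ _ => sum_nonneg fun _ _ => Nat.cast_nonneg _) hn0.le
  have h6 : (F.card * (κ * n)) ^ 2 ≤ W ^ 2 := pow_le_pow_left₀ (by positivity) h1 2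
  have h7 : n * (F.card * (F.card * (κ ^ 2 / 2 * n))) = 1 / 2 * (F.card * (κ * n)) ^ 2 := by ring
  have h8 : W ^ 2 ≤ 2 * (n * W) := by
    have : n * (W + F.card * (F.card * (κ ^ 2 / 2 * n))) =
      n * W + n * (F.card * (F.card * (κ ^ 2 / 2 * n))) := by ring
    rw [this, h7] at h5
    linarith
  have hW0 : 0 ≤ W := sum_nonneg fun _ _ => Nat.cast_nonneg _
  have h9 : W ≤ 2 * n := by
    rcases hW0.eq_or_lt with h0 | h0
    · rw [← h0]
      positivity
    · refine le_of_mul_le_mul_right ?_ h0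
      calc W * W = W ^ 2 := by ring
        _ ≤ 2 * (n * W) := h8
        _ = _ := by ring
  rw [le_div_iff₀ hκ]
  refine le_of_mul_le_mul_right ?_ hn0
  calc F.card * κ * n = F.card * (κ * n) := by ring
    _ ≤ _ := h1.trans h9

end struct

end Pool.Agent.K7.H41.AE
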