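import Pool.Agent.K7.H41.AE.Bessel
import Pool.Agent.K7.H41.BE.Zeros

/-!
# Homomorphisms with images of bounded size
-/

set_option autoImplicit false

namespace Pool.Agent.K7.H41.AE

open Finset Pool.Agent.K7.H41.BE

/-- the statement proved by induction on `M` -/
def SmallA (r s M : ℕ) : Prop := ∀ c : ℝ, 0 < c → ∃ ν₀ : ℝ,
  ∀ (G Y H : Type) [AddCommGroup G] [AddCommGroup H] [Fintype G]
    (n ν : ℝ), ν₀ ≤ ν → ν ^ (r + 1) = n → (Fintype.card G : ℝ) ≤ n →
    ∀ (L : Y → G →+ H) (Γ : AddSubgroup G) (T : Finset Y), (T.card : ℝ) ≤ n →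
      (∀ y ∈ T, (img (L y) Γ).card ≤ M) →
      ∀ (x₀ : G) (S : Finset G), (∀ x ∈ S, x - x₀ ∈ Γ) → ∀ w : Y → H,
        KFree (r + 1) s (fun x y => L y x = w y) S T →
        cnt (fun x y => L y x = w y) S T ≤ c * (n ^ 2 / ν)

section parts

variable {G Y H : Type} [AddCommGroup G] [AddCommGroup H] [Fintype G]

omit [Fintype G] in
/-- the elements of `Γ` with value in `A` -/
def subA (Γ : AddSubgroup G) (f : G →+ H) (A : Finset H) (hA : Closed A) : AddSubgroup G where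
  carrier := {h | h ∈ Γ ∧ f h ∈ A}
  zero_mem' := ⟨Γ.zero_mem, by simpa using hA.1⟩
  neg_mem' := by
    rintro h ⟨h1, h2⟩
    refine ⟨Γ.neg_mem h1, ?_⟩
    have := hA.2 0 hA.1 _ h2
    simpa using this
  add_mem' := by
    rintro h h' ⟨h1, h2⟩ ⟨h1', h2'⟩
    refine ⟨Γ.add_mem h1 h1', ?_⟩
    have h3 : -(f h') ∈ A := by
      have := hA.2 0 hA.1 _ h2'
      simpa using this
    have := hA.2 _ h2 _ h3
    simpa using this

/-- the size of the image and the kernel -/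
theorem img_mul_ker (f : G →+ H) (Γ : AddSubgroup G) : (img f Γ).card * sz (Γ ⊓ f.ker) = sz Γ := by
  classical
  have h1 := fib_card f Γ 0 0 (by
    rw [map_zero, sub_zero]
    exact (img_closed f Γ).1)
  rw [← h1]
  congr 1
  unfold fib sz
  refine congrArg _ (Finset.ext fun x => ?_)
  simp only [mem_filter, mem_univ, true_and, sub_zero]
  rfl

/-- the dependence of two homomorphisms gives a smaller subgroup -/
theorem dependent {Γ : AddSubgroup G} {f g : G →+ H} (h : ¬ Indep Γ f g) :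
    img g (Γ ⊓ f.ker) ⊆ img g Γ ∧ img g (Γ ⊓ f.ker) ≠ img g Γ := by
  constructor
  · intro c hc
    obtain ⟨x, hx, e⟩ := mem_img.1 hc
    exact mem_img.2 ⟨x, hx.1, e⟩
  · intro e
    refine h fun a ha => ?_
    have h1 : g a ∈ img g (Γ ⊓ f.ker) := by
      rw [e]
      exact mem_img.2 ⟨a, ha, rfl⟩
    obtain ⟨k, hk, e1⟩ := mem_img.1 h1
    exact ⟨k, hk.1, hk.2, e1⟩

/-- on the smaller subgroup the image is smaller -/
theorem smaller {Γ : AddSubgroup G} {f g : G →+ H} {A : Finset H} (hA : Closed A)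
    (hAe : img g (Γ ⊓ f.ker) = A) (hne : img g (Γ ⊓ f.ker) ≠ img g Γ) :
    (img f (subA Γ g A hA)).card < (img f Γ).card := by
  refine card_lt_card (Finset.ssubset_iff_subset_ne.2 ⟨?_, ?_⟩)
  · intro c hc
    obtain ⟨x, hx, e⟩ := mem_img.1 hc
    exact mem_img.2 ⟨x, hx.1, e⟩
  · intro e
    refine hne (Finset.Subset.antisymm ?_ ?_)
    · intro c hc
      obtain ⟨x, hx, e⟩ := mem_img.1 hc
      exact mem_img.2 ⟨x, hx.1, e⟩
    · intro c hc
      obtain ⟨a, ha, rfl⟩ := mem_img.1 hc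
      have h1 : f a ∈ img f (subA Γ g A hA) := by
        rw [e]
        exact mem_img.2 ⟨a, ha, rfl⟩
      obtain ⟨k, hk, e1⟩ := mem_img.1 h1
      have h2 : g (a - k) ∈ img g (Γ ⊓ f.ker) := by
        refine mem_img.2 ⟨a - k, ⟨Γ.sub_mem ha hk.1, ?_⟩, rfl⟩
        show f (a - k) = 0
        rw [map_sub, e1, sub_self]
      rw [hAe] at h2 ⊢
      have h3 : g k ∈ A := hk.2
      have h4 := hA.2 _ h2 _ (hA.2 0 hA.1 _ h3)
      have h5 : g (a - k) - (0 - g k) = g a := by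
        rw [map_sub]
        abel
      rwa [h5] at h4

/-- the index of the smaller subgroup -/
theorem index_subA {Γ : AddSubgroup G} {g : G →+ H} {A : Finset H} (hA : Closed A) :
    sz Γ ≤ (img g Γ).card * sz (subA Γ g A hA) := by
  rw [← img_mul_ker g Γ]
  refine Nat.mul_le_mul_left _ (sz_mono ?_)
  intro x hx
  refine ⟨hx.1, ?_⟩
  have : g x = 0 := hx.2
  rw [this]
  exact hA.1

omit [AddCommGroup G] [Fintype G] in
open Classical in
/-- large neighbourhoods -/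
theorem large_part {r s : ℕ} (R : G → Y → Prop) (S : Finset G) (T : Finset Y) (m : ℝ) (hm : 0 < m)
    (hfree : KFree (r + 1) s R S T) (hT : ∀ y ∈ T, (S.card : ℝ) ≤ 2 * m * ((S.filter fun x => R x y).card : ℝ)) :
    cnt R S T ≤ 2 * ((r + 1) * T.card) + 2 * (s * S.card * (4 * m) ^ r) := by
  have h1 := kst hfree (1 / (4 * m)) (by positivity)
  have h2 : cnt R S T ≤ (r + 1) * T.card + 1 / (4 * m) * S.card * T.card + s * S.card / (1 / (4 * m)) ^ r := h1
  have h3 : 1 / (4 * m) * S.card * T.card ≤ 1 / 2 * cnt R S T := by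
    have h4 : (T.card : ℝ) * S.card ≤ 2 * m * cnt R S T := by
      unfold cnt
      push_cast
      rw [mul_sum, ← nsmul_eq_mul, ← sum_const]
      exact sum_le_sum hT
    rw [div_mul_eq_mul_div, one_mul, div_mul_eq_mul_div, div_le_iff₀ (by positivity)]
    linarith
  have h5 : s * S.card / (1 / (4 * m)) ^ r = s * S.card * (4 * m) ^ r := by
    rw [div_pow, one_pow, div_div_eq_mul_div, div_one]
  rw [h5] at h2
  linarith

omit [Fintype G] in
open Classical in
/-- a maximal independent subset -/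
theorem exists_max_indep (Γ : AddSubgroup G) (L : Y → G →+ H) (Bad : Finset Y)
    (hself : ∀ y ∈ Bad, ¬ Indep Γ (L y) (L y)) :
    ∃ F ⊆ Bad, (∀ y ∈ F, ∀ y' ∈ F, y ≠ y' → Indep Γ (L y) (L y')) ∧
      ∀ y ∈ Bad, ∃ f ∈ F, ¬ Indep Γ (L y) (L f) := by
  obtain ⟨F, hF, hmax⟩ := exists_max_image (Bad.powerset.filter fun F : Finset Y =>
    ∀ y ∈ F, ∀ y' ∈ F, y ≠ y' → Indep Γ (L y) (L y')) card
    ⟨∅, mem_filter.2 ⟨mem_powerset.2 (empty_subset _), fun y hy => absurd hy (notMem_empty y)⟩⟩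
  obtain ⟨hFB, hFi⟩ := mem_filter.1 hF
  rw [mem_powerset] at hFB
  refine ⟨F, hFB, hFi, ?_⟩
  intro y hy
  by_cases hyF : y ∈ F
  · exact ⟨y, hyF, hself y hy⟩
  · by_contra hcon
    push Not at hcon
    have h1 : insert y F ∈ Bad.powerset.filter fun F : Finset Y =>
        ∀ y ∈ F, ∀ y' ∈ F, y ≠ y' → Indep Γ (L y) (L y') := by
      refine mem_filter.2 ⟨mem_powerset.2 (insert_subset hy hFB), ?_⟩
      intro a ha b hb hne
      rcases mem_insert.1 ha with ea | ha'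
      · rcases mem_insert.1 hb with eb | hb'
        · exact absurd (ea.trans eb.symm) hne
        · rw [ea]
          exact hcon b hb'
      · rcases mem_insert.1 hb with eb | hb'
        · rw [eb]
          exact (hcon a ha').symm
        · exact hFi a ha' b hb' hne
    have h2 := hmax _ h1
    rw [card_insert_of_notMem hyF] at h2
    omega

omit [AddCommGroup G] [Fintype G] in
open Classical in
theorem cnt_fiberwise {ι : Type} [DecidableEq ι] (R : G → Y → Prop) (S : Finset G) (T : Finset Y) (P : Finset ι) (φ : Y → ι)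
    (hφ : ∀ y ∈ T, φ y ∈ P) : cnt R S T = ∑ p ∈ P, cnt R S (T.filter fun y => φ y = p) := by
  unfold cnt
  rw [← Nat.cast_sum]
  congr 1
  exact (sum_fiberwise_of_maps_to hφ _).symm

/-- the step for one class -/
theorem one_class {r s M : ℕ} (c'' n ν : ℝ) (hc'' : 0 ≤ c'') (hν0 : 0 < ν) 
    (IH : ∀ (L : Y → G →+ H) (Γ : AddSubgroup G) (T : Finset Y), (T.card : ℝ) ≤ n →
      (∀ y ∈ T, (img (L y) Γ).card ≤ M) → ∀ (x₀ : G) (S : Finset G), (∀ x ∈ S, x - x₀ ∈ Γ) → ∀ w : Y → H,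
        KFree (r + 1) s (fun x y => L y x = w y) S T →
        cnt (fun x y => L y x = w y) S T ≤ c'' * (n ^ 2 / ν))
    (L : Y → G →+ H) (Γ : AddSubgroup G) (f : G →+ H) (A : Finset H) (T : Finset Y) (hTn : (T.card : ℝ) ≤ n)
    (hM : ∀ y ∈ T, (img (L y) Γ).card ≤ M + 1) (hf : (img f Γ).card ≤ M + 1)
    (hA : ∀ y ∈ T, img f (Γ ⊓ (L y).ker) = A ∧ img f (Γ ⊓ (L y).ker) ≠ img f Γ)
    (x₀ : G) (S : Finset G) (hS : ∀ x ∈ S, x - x₀ ∈ Γ) (w : Y → H)
    (hfree : KFree (r + 1) s (fun x y => L y x = w y) S T) :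
    cnt (fun x y => L y x = w y) S T ≤ (M + 1) * (c'' * (n ^ 2 / ν)) := by
  classical
  rcases T.eq_empty_or_nonempty with rfl | ⟨y₁, hy₁⟩
  · have : cnt (fun x y => L y x = w y) S (∅ : Finset Y) = 0 := by
      unfold cnt
      simp
    rw [this]
    positivity
  have hcl : Closed A := by
    rw [← (hA y₁ hy₁).1]
    exact img_closed _ _
  set Γ' := subA Γ f A hcl with hΓ'
  have hle : Γ' ≤ Γ := fun h hh => hh.1
  have h1 := cosets_sum Γ Γ' hle (fun x y => L y x = w y) x₀ S hS T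
  have h2 : ∀ x₁ ∈ univ.filter (fun x₁ : G => x₁ - x₀ ∈ Γ),
      cnt (fun x y => L y x = w y) (S.filter fun x => x - x₁ ∈ Γ') T ≤ c'' * (n ^ 2 / ν) := by
    intro x₁ _
    refine IH L Γ' T hTn ?_ x₁ _ (fun x hx => (mem_filter.1 hx).2) w
      (hfree.mono (filter_subset _ _) (Finset.Subset.refl _))
    intro y hy
    have h3 := smaller hcl (hA y hy).1 (hA y hy).2
    rw [← hΓ'] at h3
    have h4 := hM y hy
    omega
  have h3 := sum_le_sum h2
  rw [← h1, sum_const, nsmul_eq_mul, coset_card] at h3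
  have h4 : (sz Γ : ℝ) ≤ (M + 1) * sz Γ' := by
    have h5 : sz Γ ≤ (M + 1) * sz Γ' := (index_subA hcl).trans (Nat.mul_le_mul_right _ hf)
    exact_mod_cast h5
  have h5 : (0 : ℝ) < sz Γ' := by exact_mod_cast sz_pos Γ'
  have h6 : (sz Γ' : ℝ) * cnt (fun x y => L y x = w y) S T ≤ sz Γ * (c'' * (n ^ 2 / ν)) := h3
  have h7 : (sz Γ : ℝ) * (c'' * (n ^ 2 / ν)) ≤ (M + 1) * sz Γ' * (c'' * (n ^ 2 / ν)) :=
    mul_le_mul_of_nonneg_right h4 (by positivity)
  refine le_of_mul_le_mul_left ?_ h5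
  calc (sz Γ' : ℝ) * cnt (fun x y => L y x = w y) S T ≤ (M + 1) * sz Γ' * (c'' * (n ^ 2 / ν)) := h6.trans h7
    _ = _ := by ring

end parts

end Pool.Agent.K7.H41.AE
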