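import Pool.Agent.K7.H41.AE.SmallA

/-!
# Homomorphisms with images of bounded size: the induction
-/

set_option autoImplicit false

namespace Pool.Agent.K7.H41.AE

open Finset Pool.Agent.K7.H41.BE

section parts

variable {G Y H : Type} [AddCommGroup G] [AddCommGroup H] [Fintype G]

open Classical in
/-- small but nonempty neighbourhoods -/
theorem bad_part {r s M : ℕ} (c' c'' n ν : ℝ) (hc' : 0 < c') (hc'' : 0 ≤ c'') (hn0 : 0 < n) (hν0 : 0 < ν)
    (hG : (Fintype.card G : ℝ) ≤ n)
    (IH : ∀ (L : Y → G →+ H) (Γ : AddSubgroup G) (T : Finset Y), (T.card : ℝ) ≤ n →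
      (∀ y ∈ T, (img (L y) Γ).card ≤ M) → ∀ (x₀ : G) (S : Finset G), (∀ x ∈ S, x - x₀ ∈ Γ) → ∀ w : Y → H,
        KFree (r + 1) s (fun x y => L y x = w y) S T →
        cnt (fun x y => L y x = w y) S T ≤ c'' * (n ^ 2 / ν))
    (L : Y → G →+ H) (Γ : AddSubgroup G) (Bad : Finset Y) (hBn : (Bad.card : ℝ) ≤ n)
    (hM : ∀ y ∈ Bad, (img (L y) Γ).card ≤ M + 1)
    (x₀ : G) (S : Finset G) (hS : ∀ x ∈ S, x - x₀ ∈ Γ) (w : Y → H)
    (hfree : KFree (r + 1) s (fun x y => L y x = w y) S Bad) (hSn : c' * n ≤ S.card)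
    (hB1 : ∀ y ∈ Bad, ∃ x ∈ S, L y x = w y)
    (hB2 : ∀ y ∈ Bad, 2 * ((M : ℝ) + 1) * ((S.filter fun x => L y x = w y).card : ℝ) < S.card) :
    cnt (fun x y => L y x = w y) S Bad ≤
      (4 * ((M : ℝ) + 1) ^ 2 / c' * 2 ^ (M + 1)) * ((M + 1) * (c'' * (n ^ 2 / ν))) := by
  have hS0 : (0 : ℝ) < S.card := lt_of_lt_of_le (by positivity) hSn
  obtain ⟨F, hFB, hFi, hFm⟩ := exists_max_indep Γ L Bad (by
    intro y hy hind
    obtain ⟨x', hx', e'⟩ := hB1 y hy
    have h1 : ∃ x ∈ S, L y x ≠ w y := by
      by_contra hcon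
      push Not at hcon
      have h2 : S.filter (fun x => L y x = w y) = S := filter_true_of_mem hcon
      have h3 := hB2 y hy
      rw [h2] at h3
      have h4 : (0 : ℝ) ≤ M := Nat.cast_nonneg _
      nlinarith
    obtain ⟨x, hx, e⟩ := h1
    have h2 : x - x' ∈ Γ := by
      have : x - x' = (x - x₀) - (x' - x₀) := by abel
      rw [this]
      exact Γ.sub_mem (hS x hx) (hS x' hx')
    obtain ⟨k, hk, e1, e2⟩ := hind _ h2
    apply e
    rw [← e', ← sub_eq_zero, ← map_sub, ← e2, e1])
  -- the size of `F`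
  have hFc : (F.card : ℝ) ≤ 4 * ((M : ℝ) + 1) ^ 2 / c' := by
    have h1 := bessel L Γ x₀ w S hS F hFi (fun y hy => by
      obtain ⟨x, hx, e⟩ := hB1 y (hFB hy)
      rw [← e, ← map_sub]
      exact mem_img.2 ⟨x - x₀, hS x hx, rfl⟩) (S.card / (2 * ((M : ℝ) + 1))) (by positivity) (by
      intro y hy
      have h2 := hB2 y (hFB hy)
      have h3 : ((img (L y) Γ).card : ℝ) ≤ M + 1 := by exact_mod_cast hM y (hFB hy)
      have h4 : (0 : ℝ) < (img (L y) Γ).card := by exact_mod_cast img_pos _ _
      have h5 : (S.card : ℝ) / (M + 1) ≤ S.card / (img (L y) Γ).card :=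
        div_le_div_of_nonneg_left hS0.le h4 h3
      have h6 : ((S.filter fun x => L y x = w y).card : ℝ) ≤ S.card / (2 * ((M : ℝ) + 1)) := by
        rw [le_div_iff₀ (by positivity)]
        linarith
      have h7 : (S.card : ℝ) / (M + 1) = S.card / (2 * ((M : ℝ) + 1)) + S.card / (2 * ((M : ℝ) + 1)) := by
        field_simp
        norm_num
      linarith)
    rcases Nat.eq_zero_or_pos F.card with h0 | h0
    · rw [h0]
      push_cast
      positivity
    have h0' : (0 : ℝ) < F.card := by exact_mod_cast h0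
    have hΓn : (sz Γ : ℝ) ≤ n := by
      refine le_trans ?_ hG
      have : sz Γ ≤ Fintype.card G := by
        unfold sz
        exact card_le_univ _
      exact_mod_cast this
    have h2 : ((F.card : ℝ) * c') * (n * (F.card * S.card)) ≤ (4 * ((M : ℝ) + 1) ^ 2) * (n * (F.card * S.card)) := by
      have h3 : (F.card : ℝ) * (c' * n) ≤ F.card * S.card := mul_le_mul_of_nonneg_left hSn h0'.le
      calc ((F.card : ℝ) * c') * (n * (F.card * S.card)) = (F.card * (c' * n)) * (F.card * S.card) := by ring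
        _ ≤ (F.card * S.card) * (F.card * S.card) := mul_le_mul_of_nonneg_right h3 (by positivity)
        _ = (4 * ((M : ℝ) + 1) ^ 2) * (F.card * (S.card / (2 * ((M : ℝ) + 1)))) ^ 2 := by
            field_simp
            ring
        _ ≤ (4 * ((M : ℝ) + 1) ^ 2) * (S.card * (F.card * sz Γ)) := mul_le_mul_of_nonneg_left h1 (by positivity)
        _ ≤ (4 * ((M : ℝ) + 1) ^ 2) * (S.card * (F.card * n)) := by gcongr
        _ = _ := by ring
    rw [le_div_iff₀ hc']
    exact le_of_mul_le_mul_right h2 (by positivity)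
  -- the classes
  choose! f hfF hfd using hFm
  let φ : Y → Y × Finset H := fun y => (f y, img (L (f y)) (Γ ⊓ (L y).ker))
  let P : Finset (Y × Finset H) := F.biUnion fun f => (img (L f) Γ).powerset.image fun A => (f, A)
  have hP : (P.card : ℝ) ≤ F.card * 2 ^ (M + 1) := by
    have h1 : P.card ≤ ∑ f ∈ F, ((img (L f) Γ).powerset.image fun A => (f, A)).card := card_biUnion_le
    have h2 : ∀ f ∈ F, ((img (L f) Γ).powerset.image fun A => (f, A)).card ≤ 2 ^ (M + 1) := by
      intro f hf
      refine card_image_le.trans ?_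
      rw [card_powerset]
      exact Nat.pow_le_pow_right (by norm_num) (hM f (hFB hf))
    have h3 : P.card ≤ F.card * 2 ^ (M + 1) := by
      refine h1.trans ((sum_le_sum h2).trans (le_of_eq ?_))
      rw [sum_const, smul_eq_mul]
    exact_mod_cast h3
  have hφ : ∀ y ∈ Bad, φ y ∈ P := by
    intro y hy
    refine mem_biUnion.2 ⟨f y, hfF y hy, mem_image.2 ⟨_, ?_, rfl⟩⟩
    rw [mem_powerset]
    exact (dependent (hfd y hy)).1
  rw [cnt_fiberwise (fun x y => L y x = w y) S Bad P φ hφ]
  have hcl : ∀ p ∈ P, cnt (fun x y => L y x = w y) S (Bad.filter fun y => φ y = p) ≤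
      (M + 1) * (c'' * (n ^ 2 / ν)) := by
    intro p hp
    obtain ⟨f₁, hf₁, hp1⟩ := mem_biUnion.1 hp
    obtain ⟨A, -, e⟩ := mem_image.1 hp1
    have hp1 : p.1 = f₁ := by rw [← e]
    refine one_class c'' n ν hc'' hν0 IH L Γ (L p.1) p.2 _ ?_ ?_ ?_ ?_ x₀ S hS w
      (hfree.mono (Finset.Subset.refl _) (filter_subset _ _))
    · exact le_trans (by exact_mod_cast card_le_card (filter_subset _ _)) hBn
    · intro y hy
      exact hM y (mem_filter.1 hy).1
    · rw [hp1]
      exact hM f₁ (hFB hf₁)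
    · intro y hy
      obtain ⟨hy1, hy2⟩ := mem_filter.1 hy
      have e1 : f y = p.1 := by rw [← hy2]
      have e2 : img (L (f y)) (Γ ⊓ (L y).ker) = p.2 := by rw [← hy2]
      rw [← e1]
      exact ⟨e2, (dependent (hfd y hy1)).2⟩
  refine (sum_le_sum hcl).trans ?_
  rw [sum_const, nsmul_eq_mul]
  refine mul_le_mul_of_nonneg_right ?_ (by positivity)
  exact hP.trans (mul_le_mul_of_nonneg_right hFc (by positivity))

end parts

open Classical in
/-- **Homomorphisms with images of bounded size.** -/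
theorem smallA (r s : ℕ) (hr : 1 ≤ r) : ∀ M : ℕ, SmallA r s M := by
  intro M
  induction M with
  | zero =>
    intro c hc
    refine ⟨1, ?_⟩
    intro G Y H _ _ _ n ν hν hνn hG L Γ T hTn hM x₀ S hS w hfree
    have hT : T = ∅ := by
      rw [eq_empty_iff_forall_notMem]
      intro y hy
      have h1 := hM y hy
      have h2 := img_pos (L y) Γ
      omega
    subst hT
    have : cnt (fun x y => L y x = w y) S (∅ : Finset Y) = 0 := by
      unfold cnt
      simp
    rw [this]
    have : 0 < ν := by linarith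
    positivity
  | succ M ih =>
    intro c hc
    obtain ⟨lam, hlam1, hlam⟩ : ∃ lam : ℝ, 1 ≤ lam ∧ 8 * s / c ≤ lam ^ r :=
      ⟨max 1 (8 * s / c), le_max_left _ _, cast_mul_max hr (le_max_left _ _) (le_max_right _ _)⟩
    set c' : ℝ := c / (4 * lam) with hc'
    have hc'0 : 0 < c' := by positivity
    set K : ℝ := 4 * ((M : ℝ) + 1) ^ 2 / c' * 2 ^ (M + 1) with hK
    have hK0 : 0 < K := by positivity
    set c'' : ℝ := c / (4 * (K * (M + 1))) with hc''
    have hc''0 : 0 < c'' := by positivity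
    obtain ⟨ν₁, hν₁⟩ := ih c'' hc''0
    refine ⟨max 1 (max ν₁ (max (8 * (r + 1) / c)
      (4 * (2 * (r + 1) + 2 * (s * (4 * ((M : ℝ) + 1)) ^ r)) / c))), ?_⟩
    intro G Y H _ _ _ n ν hν hνn hG L Γ T hTn hM x₀ S hS w hfree
    have hν1 : 1 ≤ ν := (le_max_left _ _).trans hν
    have hν2 : ν₁ ≤ ν := (le_max_left _ _).trans ((le_max_right _ _).trans hν)
    have hν3 : 8 * (r + 1) / c ≤ ν :=
      (le_max_left _ _).trans ((le_max_right _ _).trans ((le_max_right _ _).trans hν))
    have hν4 : 4 * (2 * (r + 1) + 2 * (s * (4 * ((M : ℝ) + 1)) ^ r)) / c ≤ ν :=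
      (le_max_right _ _).trans ((le_max_right _ _).trans ((le_max_right _ _).trans hν))
    have hν0 : 0 < ν := by linarith
    have hn0 : 0 < n := by
      rw [← hνn]
      positivity
    have hνr : ν ^ r = n / ν := by
      rw [eq_div_iff hν0.ne', ← hνn]
      ring
    have hνle : ν ≤ n / ν := by
      rw [← hνr]
      calc ν = ν ^ 1 := (pow_one ν).symm
        _ ≤ _ := pow_le_pow_right₀ hν1 hr
    have hSG : (S.card : ℝ) ≤ n := le_trans (by exact_mod_cast card_le_univ S) hG
    have hX0 : 0 ≤ n ^ 2 / ν := by positivity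
    rcases le_total (S.card : ℝ) (c' * n) with hSs | hSb
    · -- few elements
      have h1 := kst hfree (lam / ν) (by positivity)
      have h2 : cnt (fun x y => L y x = w y) S T ≤ (r + 1) * T.card + lam / ν * S.card * T.card +
          s * S.card / (lam / ν) ^ r := h1
      have h3 : ((r : ℝ) + 1) * T.card ≤ c / 8 * (n ^ 2 / ν) := by
        have h4 : 8 * (r + 1) / c ≤ n / ν := hν3.trans hνle
        rw [div_le_iff₀ hc] at h4
        calc ((r : ℝ) + 1) * T.card ≤ (r + 1) * n := by gcongr
          _ = (8 * (r + 1)) * (n / 8) := by ring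
          _ ≤ (n / ν * c) * (n / 8) := by gcongr
          _ = _ := by ring
      have h4 : lam / ν * S.card * T.card ≤ c / 4 * (n ^ 2 / ν) := by
        calc lam / ν * S.card * T.card ≤ lam / ν * (c' * n) * n := by gcongr
          _ = c / 4 * (n ^ 2 / ν) := by
              rw [hc']
              field_simp
      have h5 : s * S.card / (lam / ν) ^ r ≤ c / 8 * (n ^ 2 / ν) := by
        have h6 : (s : ℝ) ≤ c / 8 * lam ^ r := by
          rw [div_le_iff₀ hc] at hlam
          linarith
        rw [div_pow, hνr, div_div_eq_mul_div, div_le_iff₀ (by positivity)]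
        calc s * S.card * (n / ν) ≤ (c / 8 * lam ^ r) * n * (n / ν) := by gcongr
          _ = _ := by ring
      nlinarith
    · -- many elements
      set Tp : Finset Y := T.filter fun y =>
        (S.card : ℝ) ≤ 2 * ((M : ℝ) + 1) * ((S.filter fun x => L y x = w y).card : ℝ) with hTp
      set Tm : Finset Y := T.filter fun y =>
        ¬ (S.card : ℝ) ≤ 2 * ((M : ℝ) + 1) * ((S.filter fun x => L y x = w y).card : ℝ) with hTm
      set Bad : Finset Y := Tm.filter fun y => ∃ x ∈ S, L y x = w y with hBad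
      have hsplit : cnt (fun x y => L y x = w y) S T =
          cnt (fun x y => L y x = w y) S Tp + cnt (fun x y => L y x = w y) S Bad := by
        have e1 : cnt (fun x y => L y x = w y) S T =
            cnt (fun x y => L y x = w y) S Tp + cnt (fun x y => L y x = w y) S Tm := by
          unfold cnt
          rw [← Nat.cast_add]
          congr 1
          exact (sum_filter_add_sum_filter_not _ _ _).symm
        have e2 : cnt (fun x y => L y x = w y) S Tm = cnt (fun x y => L y x = w y) S Bad := by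
          unfold cnt
          congr 1
          refine (sum_filter_of_ne (s := Tm) (p := fun y => ∃ x ∈ S, L y x = w y) fun y _ hy => ?_).symm
          obtain ⟨x, hx⟩ := card_pos.1 (Nat.pos_of_ne_zero hy)
          exact ⟨x, (mem_filter.1 hx).1, (mem_filter.1 hx).2⟩
        rw [e1, e2]
      have hBT : Bad ⊆ T := (filter_subset _ _).trans (filter_subset _ _)
      have h1 := large_part (r := r) (s := s) (fun x y => L y x = w y) S Tp ((M : ℝ) + 1) (by positivity)
        (hfree.mono (Finset.Subset.refl _) (filter_subset _ _)) (fun y hy => (mem_filter.1 hy).2)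
      have hTpn : (Tp.card : ℝ) ≤ n := le_trans (by exact_mod_cast card_le_card (filter_subset _ _)) hTn
      have h2 : 2 * (((r : ℝ) + 1) * Tp.card) + 2 * (s * S.card * (4 * ((M : ℝ) + 1)) ^ r) ≤
          c / 4 * (n ^ 2 / ν) := by
        have h4 : 4 * (2 * (r + 1) + 2 * (s * (4 * ((M : ℝ) + 1)) ^ r)) / c ≤ n / ν := hν4.trans hνle
        rw [div_le_iff₀ hc] at h4
        calc 2 * (((r : ℝ) + 1) * Tp.card) + 2 * (s * S.card * (4 * ((M : ℝ) + 1)) ^ r) ≤
              2 * (((r : ℝ) + 1) * n) + 2 * (s * n * (4 * ((M : ℝ) + 1)) ^ r) := by gcongr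
          _ = (4 * (2 * (r + 1) + 2 * (s * (4 * ((M : ℝ) + 1)) ^ r))) * (n / 4) := by ring
          _ ≤ (n / ν * c) * (n / 4) := by gcongr
          _ = _ := by ring
      have h3 := bad_part (r := r) (s := s) (M := M) c' c'' n ν hc'0 hc''0.le hn0 hν0 hG
        (fun L Γ T => hν₁ G Y H n ν hν2 hνn hG L Γ T) L Γ Bad
        (le_trans (by exact_mod_cast card_le_card hBT) hTn) (fun y hy => hM y (hBT hy)) x₀ S hS w
        (hfree.mono (Finset.Subset.refl _) hBT) hSb (fun y hy => (mem_filter.1 hy).2)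
        (fun y hy => not_le.1 (mem_filter.1 (mem_filter.1 hy).1).2)
      have h4 : K * ((M + 1) * (c'' * (n ^ 2 / ν))) = c / 4 * (n ^ 2 / ν) := by
        rw [hc'']
        field_simp
      rw [← hK, h4] at h3
      rw [hsplit]
      nlinarith

end Pool.Agent.K7.H41.AE
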