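import Pool.Agent.K7.H41.AE.Cube

/-!
# Cubes in the neighbourhoods: summation
-/

set_option autoImplicit false

namespace Pool.Agent.K7.H41.AE

open Finset Pool.Agent.K7.H41.BE

section sums

variable {G : Type} [Fintype G]

/-- the sum over all lists of length `d` -/
noncomputable def sumT : ℕ → (List G → ℝ) → ℝ
  | 0, F => F []
  | d + 1, F => ∑ h : G, sumT d fun l => F (h :: l)

theorem sumT_mono : ∀ (d : ℕ) (F F' : List G → ℝ), (∀ l, l.length = d → F l ≤ F' l) → sumT d F ≤ sumT d F' := by
  intro d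
  induction d with
  | zero =>
    intro F F' h
    exact h [] rfl
  | succ d ih =>
    intro F F' h
    refine sum_le_sum fun a _ => ih _ _ fun l hl => h (a :: l) ?_
    rw [List.length_cons, hl]

theorem sumT_add : ∀ (d : ℕ) (F F' : List G → ℝ), sumT d (fun l => F l + F' l) = sumT d F + sumT d F' := by
  intro d
  induction d with
  | zero =>
    intro F F'
    rfl
  | succ d ih =>
    intro F F'
    show (∑ h : G, sumT d fun l => F (h :: l) + F' (h :: l)) =
      (∑ h : G, sumT d fun l => F (h :: l)) + ∑ h : G, sumT d fun l => F' (h :: l)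
    rw [← sum_add_distrib]
    exact sum_congr rfl fun a _ => ih _ _

theorem sumT_mul (c : ℝ) : ∀ (d : ℕ) (F : List G → ℝ), sumT d (fun l => c * F l) = c * sumT d F := by
  intro d
  induction d with
  | zero =>
    intro F
    rfl
  | succ d ih =>
    intro F
    show (∑ h : G, sumT d fun l => c * F (h :: l)) = c * ∑ h : G, sumT d fun l => F (h :: l)
    rw [mul_sum]
    exact sum_congr rfl fun a _ => ih _

theorem sumT_const (c : ℝ) : ∀ d : ℕ, sumT d (fun _ : List G => c) = (Fintype.card G : ℝ) ^ d * c := by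
  intro d
  induction d with
  | zero =>
    show c = _
    rw [pow_zero, one_mul]
  | succ d ih =>
    show (∑ _h : G, sumT d fun _ => c) = _
    rw [ih, sum_const, nsmul_eq_mul, card_univ, pow_succ]
    ring

theorem sumT_eq : ∀ (d : ℕ) (F : List G → ℝ), sumT d F = ∑ h : Fin d → G, F (List.ofFn h) := by
  intro d
  induction d with
  | zero =>
    intro F
    rw [Fintype.sum_unique]
    simp [sumT]
  | succ d ih =>
    intro F
    show (∑ h : G, sumT d fun l => F (h :: l)) = _
    rw [← Equiv.sum_comp (Fin.consEquiv fun _ : Fin (d + 1) => G), Fintype.sum_prod_type]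
    refine sum_congr rfl fun a _ => ?_
    rw [ih]
    refine sum_congr rfl fun t _ => ?_
    congr 1
    rw [List.ofFn_succ]
    simp [Fin.consEquiv]

end sums

section tot

variable {G Y H : Type} [AddCommGroup G] [Fintype G]

/-- the number of cubes in the neighbourhoods -/
noncomputable def tot (T : Finset Y) : ℕ → (G → Y → Prop) → ℝ
  | 0, R => cnt R univ T
  | d + 1, R => ∑ h : G, tot T d (sh R h)

theorem tot_eq (T : Finset Y) : ∀ (d : ℕ) (R : G → Y → Prop),
    tot T d R = sumT d fun l => cnt (cube R l) univ T := by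
  intro d
  induction d with
  | zero =>
    intro R
    rfl
  | succ d ih =>
    intro R
    show (∑ h : G, tot T d (sh R h)) = ∑ h : G, sumT d fun l => cnt (cube R (h :: l)) univ T
    refine sum_congr rfl fun h _ => ?_
    rw [ih]
    congr 1
    funext l
    rw [cube_sh]

theorem tot_nonneg (T : Finset Y) : ∀ (d : ℕ) (R : G → Y → Prop), 0 ≤ tot T d R := by
  intro d
  induction d with
  | zero =>
    intro R
    exact cnt_nonneg _ _ _
  | succ d ih =>
    intro R
    exact sum_nonneg fun h _ => ih _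

omit [AddCommGroup G] in
theorem cnt_dg (R : G → Y → Prop) (T : Finset Y) : cnt R univ T = ∑ y ∈ T, dg R y := by
  unfold cnt dg nb
  push_cast
  rfl

open Classical in
theorem sum_sh (R : G → Y → Prop) (T : Finset Y) :
    (∑ h : G, cnt (sh R h) univ T) = ∑ y ∈ T, dg R y ^ 2 := by
  simp_rw [cnt_dg]
  rw [sum_comm]
  refine sum_congr rfl fun y _ => ?_
  have h1 : ∀ h : G, dg (sh R h) y = ∑ x ∈ nb R y, if R (x + h) y then (1 : ℝ) else 0 := by
    intro h
    unfold dg nb sh
    rw [sum_boole, filter_filter]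
    refine congrArg _ (congrArg _ (Finset.ext fun x => ?_))
    simp only [mem_filter, mem_univ, true_and]
  rw [sum_congr rfl fun h _ => h1 h, sum_comm, sq]
  have h2 : dg R y = ((nb R y).card : ℝ) := rfl
  rw [h2, ← nsmul_eq_mul, ← sum_const]
  refine sum_congr rfl fun x _ => ?_
  rw [sum_boole]
  congr 1
  unfold nb
  refine card_bij' (fun h _ => x + h) (fun z _ => z - x) ?_ ?_ ?_ ?_
  · intro h hh
    exact mem_filter.2 ⟨mem_univ _, (mem_filter.1 hh).2⟩
  · intro z hz
    refine mem_filter.2 ⟨mem_univ _, ?_⟩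
    rw [add_sub_cancel]
    exact (mem_filter.1 hz).2
  · intro h _
    simp
  · intro z _
    simp

theorem cs_step (R : G → Y → Prop) (T : Finset Y) :
    cnt R univ T ^ 2 ≤ T.card * ∑ h : G, cnt (sh R h) univ T := by
  rw [sum_sh, cnt_dg]
  exact sq_sum_le_card_mul_sum_sq

/-- **The number of cubes**, by the inequality of Cauchy and Schwarz. -/
theorem gcs (T : Finset Y) : ∀ (d : ℕ) (R : G → Y → Prop),
    cnt R univ T ^ 2 ^ d * (Fintype.card G : ℝ) ^ (d + 1) * T.card ≤
      ((Fintype.card G : ℝ) * T.card) ^ 2 ^ d * tot T d R := by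
  intro d
  induction d with
  | zero =>
    intro R
    show cnt R univ T ^ 2 ^ 0 * (Fintype.card G : ℝ) ^ (0 + 1) * T.card ≤
      ((Fintype.card G : ℝ) * T.card) ^ 2 ^ 0 * cnt R univ T
    simp only [pow_zero, pow_one, zero_add]
    exact le_of_eq (by ring)
  | succ d ih =>
    intro R
    set g : ℝ := (Fintype.card G : ℝ) with hg
    set t : ℝ := (T.card : ℝ) with ht
    have hg0 : 0 ≤ g := Nat.cast_nonneg _
    have ht0 : 0 ≤ t := Nat.cast_nonneg _
    set a : ℝ := cnt R univ T with ha
    have ha0 : 0 ≤ a := cnt_nonneg _ _ _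
    obtain ⟨p, hp⟩ : ∃ p, 2 ^ d = p + 1 := ⟨2 ^ d - 1, by
      have : 0 < 2 ^ d := by positivity
      omega⟩
    have h1 := cs_step R T
    rw [← ha, ← ht] at h1
    set b : ℝ := ∑ h : G, cnt (sh R h) univ T with hb
    have hb0 : 0 ≤ b := sum_nonneg fun _ _ => cnt_nonneg _ _ _
    have h2 : b ^ (p + 1) ≤ g ^ p * ∑ h : G, cnt (sh R h) univ T ^ (p + 1) := by
      have := pow_sum_le_card_mul_sum_pow (s := (univ : Finset G)) (f := fun h => cnt (sh R h) univ T)
        (fun h _ => cnt_nonneg _ _ _) p
      rwa [card_univ] at this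
    have h3 : (∑ h : G, cnt (sh R h) univ T ^ (p + 1)) * (g ^ (d + 1) * t) ≤ (g * t) ^ (p + 1) * tot T (d + 1) R := by
      show _ ≤ (g * t) ^ (p + 1) * ∑ h : G, tot T d (sh R h)
      rw [sum_mul, mul_sum]
      refine sum_le_sum fun h _ => ?_
      have := ih (sh R h)
      rw [hp] at this
      linarith
    have h4 : a ^ 2 ^ (d + 1) ≤ t ^ (p + 1) * b ^ (p + 1) := by
      have e : 2 ^ (d + 1) = 2 * (p + 1) := by rw [pow_succ, hp]; ring
      rw [e, pow_mul, ← mul_pow]
      exact pow_le_pow_left₀ (by positivity) h1 _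
    have e : 2 ^ (d + 1) = (p + 1) + (p + 1) := by rw [pow_succ, hp]; ring
    calc a ^ 2 ^ (d + 1) * g ^ (d + 1 + 1) * t ≤ (t ^ (p + 1) * b ^ (p + 1)) * g ^ (d + 1 + 1) * t := by gcongr
      _ = t ^ (p + 1) * g * (g ^ (d + 1) * t) * b ^ (p + 1) := by ring
      _ ≤ t ^ (p + 1) * g * (g ^ (d + 1) * t) * (g ^ p * ∑ h : G, cnt (sh R h) univ T ^ (p + 1)) := by
          gcongr
      _ = (g * t) ^ (p + 1) * ((∑ h : G, cnt (sh R h) univ T ^ (p + 1)) * (g ^ (d + 1) * t)) := by ring
      _ ≤ (g * t) ^ (p + 1) * ((g * t) ^ (p + 1) * tot T (d + 1) R) := by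
          refine mul_le_mul_of_nonneg_left h3 (by positivity)
      _ = (g * t) ^ 2 ^ (d + 1) * tot T (d + 1) R := by
          rw [e, pow_add]
          ring

open Classical in
/-- degenerate cubes are few -/
theorem degenerate_few : ∀ d : ℕ,
    (Fintype.card G : ℝ) * sumT d (fun l : List G => if Nondeg l then 0 else 1) ≤
      d * 4 ^ d * (Fintype.card G : ℝ) ^ d := by
  intro d
  induction d with
  | zero =>
    have h0 : Nondeg ([] : List G) := by
      show (vert ([] : List G)).card = 1
      rw [vert]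
      simp
    show (Fintype.card G : ℝ) * (if Nondeg ([] : List G) then 0 else 1) ≤ _
    rw [if_pos h0]
    simp
  | succ d ih =>
    set g : ℝ := (Fintype.card G : ℝ) with hg
    have hg0 : 0 ≤ g := Nat.cast_nonneg _
    have h1 : ∀ h : G, sumT d (fun l : List G => if Nondeg (h :: l) then (0 : ℝ) else 1) ≤
        sumT d (fun l : List G => (if Nondeg l then (0 : ℝ) else 1) + if h ∈ dset l then (1 : ℝ) else 0) := by
      intro h
      refine sumT_mono d _ _ fun l _ => ?_
      by_cases h1 : Nondeg l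
      · by_cases h2 : h ∈ dset l
        · rw [if_pos h1, if_pos h2]
          split_ifs <;> norm_num
        · rw [if_pos (nondeg_cons h1 h2), if_pos h1, if_neg h2]
          norm_num
      · rw [if_neg h1]
        split_ifs <;> norm_num
    have h2 : (∑ h : G, sumT d (fun l : List G => if h ∈ dset l then (1 : ℝ) else 0)) ≤ g ^ d * 4 ^ d := by
      have e1 : (∑ h : G, sumT d (fun l : List G => if h ∈ dset l then (1 : ℝ) else 0)) =
          sumT d (fun l : List G => ∑ h : G, if h ∈ dset l then (1 : ℝ) else 0) := by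
        simp_rw [sumT_eq]
        rw [sum_comm]
      rw [e1, ← sumT_const]
      refine sumT_mono d _ _ fun l hl => ?_
      rw [sum_boole]
      have h3 := dset_card_le l
      rw [hl] at h3
      have h4 : (univ.filter fun h : G => h ∈ dset l) = dset l := by
        ext h
        simp
      rw [h4]
      exact_mod_cast h3
    have h3 : sumT (d + 1) (fun l : List G => if Nondeg l then (0 : ℝ) else 1) ≤
        g * sumT d (fun l : List G => if Nondeg l then (0 : ℝ) else 1) + g ^ d * 4 ^ d := by
      show (∑ h : G, sumT d (fun l : List G => if Nondeg (h :: l) then (0 : ℝ) else 1)) ≤ _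
      refine (sum_le_sum fun h _ => h1 h).trans ?_
      have e : ∀ h : G, sumT d (fun l : List G => (if Nondeg l then (0 : ℝ) else 1) + if h ∈ dset l then (1 : ℝ) else 0) =
          sumT d (fun l : List G => if Nondeg l then (0 : ℝ) else 1) +
          sumT d (fun l : List G => if h ∈ dset l then (1 : ℝ) else 0) := fun h => sumT_add d _ _
      rw [sum_congr rfl fun h _ => e h, sum_add_distrib, sum_const, nsmul_eq_mul, card_univ, ← hg]
      linarith
    calc g * sumT (d + 1) (fun l : List G => if Nondeg l then (0 : ℝ) else 1) ≤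
          g * (g * sumT d (fun l : List G => if Nondeg l then (0 : ℝ) else 1) + g ^ d * 4 ^ d) :=
            mul_le_mul_of_nonneg_left h3 hg0
      _ ≤ g * (d * 4 ^ d * g ^ d + g ^ d * 4 ^ d) := by
          refine mul_le_mul_of_nonneg_left ?_ hg0
          linarith
      _ ≤ ((d + 1 : ℕ) : ℝ) * 4 ^ (d + 1) * g ^ (d + 1) := by
          push_cast
          have h4 : (0 : ℝ) ≤ (d + 1) * 4 ^ d * g ^ (d + 1) := by positivity
          have h5 : ((d : ℝ) + 1) * 4 ^ (d + 1) * g ^ (d + 1) = 4 * ((d + 1) * 4 ^ d * g ^ (d + 1)) := by ring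
          have h6 : g * (d * 4 ^ d * g ^ d + g ^ d * 4 ^ d) = (d + 1) * 4 ^ d * g ^ (d + 1) := by ring
          rw [h5, h6]
          linarith

end tot

end Pool.Agent.K7.H41.AE
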